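import Pool.Agent.Helper31_Con.Fam

section

/-!
# Definability
-/

namespace Helper31Con

open Function Filter

/-- Definable predicates of assignments. -/
def Dfn (P : (ℕ → ℕ) → Prop) : Prop := ∃ φ : Fm, ∀ e, φ.Sat e ↔ P e

namespace Dfn

variable {P P' : (ℕ → ℕ) → Prop}

lemma congr (h : Dfn P) (h' : ∀ e, P e ↔ P' e) : Dfn P' := by
  obtain ⟨φ, hφ⟩ := h
  exact ⟨φ, fun e => (hφ e).trans (h' e)⟩

lemma false' : Dfn (fun _ => False) := ⟨.bot, fun _ => Iff.rfl⟩

lemma imp (h : Dfn P) (h' : Dfn P') : Dfn (fun e => P e → P' e) := by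
  obtain ⟨φ, hφ⟩ := h
  obtain ⟨ψ, hψ⟩ := h'
  exact ⟨.imp φ ψ, fun e => imp_congr (hφ e) (hψ e)⟩

lemma not (h : Dfn P) : Dfn (fun e => ¬ P e) := h.imp false'

lemma and (h : Dfn P) (h' : Dfn P') : Dfn (fun e => P e ∧ P' e) :=
  ((h.imp h'.not).not).congr fun e => by tauto

lemma or (h : Dfn P) (h' : Dfn P') : Dfn (fun e => P e ∨ P' e) :=
  (h.not.imp h').congr fun e => by tauto

lemma iff (h : Dfn P) (h' : Dfn P') : Dfn (fun e => P e ↔ P' e) :=
  ((h.imp h').and (h'.imp h)).congr fun e => by tauto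

lemma all (k : ℕ) (h : Dfn P) : Dfn (fun e => ∀ a, P (update e k a)) := by
  obtain ⟨φ, hφ⟩ := h
  exact ⟨.all k φ, fun e => forall_congr' fun a => hφ _⟩

lemma ex (k : ℕ) (h : Dfn P) : Dfn (fun e => ∃ a, P (update e k a)) :=
  (h.not.all k).not.congr fun e => by push Not; rfl

lemma eq (t s : Tm) : Dfn (fun e => t.val e = s.val e) := ⟨.eq t s, fun _ => Iff.rfl⟩

lemma le (t s : Tm) : Dfn (fun e => t.val e ≤ s.val e) := ⟨.le t s, fun _ => Iff.rfl⟩

/-- Finite conjunctions. -/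
lemma ball {Q : ℕ → (ℕ → ℕ) → Prop} (h : ∀ k, Dfn (Q k)) (n : ℕ) :
    Dfn (fun e => ∀ k < n, Q k e) := by
  induction n with
  | zero => exact (false'.not).congr fun e => by simp
  | succ n ih =>
    refine (ih.and (h n)).congr fun e => ?_
    constructor
    · rintro ⟨h1, h2⟩ k hk
      rcases Nat.lt_succ_iff_lt_or_eq.mp hk with h | rfl
      · exact h1 k h
      · exact h2
    · intro h1
      exact ⟨fun k hk => h1 k (by omega), h1 n (by omega)⟩

/-- Finite disjunctions. -/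
lemma bex {Q : ℕ → (ℕ → ℕ) → Prop} (h : ∀ k, Dfn (Q k)) (n : ℕ) :
    Dfn (fun e => ∃ k < n, Q k e) :=
  ((ball (fun k => (h k).not) n).not).congr fun e => by push Not; rfl

end Dfn

/-! ### Renaming -/

/-- Renaming of variables. -/
def Tm.ren (f : ℕ → ℕ) (t : Tm) : Tm := t.sb fun k => .var (f k)

/-- Renaming of all variables, free or bound. -/
def Fm.ren (f : ℕ → ℕ) : Fm → Fm
  | .bot => .bot
  | .eq t s => .eq (t.ren f) (s.ren f)
  | .le t s => .le (t.ren f) (s.ren f)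
  | .imp φ ψ => .imp (φ.ren f) (ψ.ren f)
  | .all k φ => .all (f k) (φ.ren f)

lemma Tm.val_ren (f : ℕ → ℕ) (t : Tm) (e : ℕ → ℕ) : (t.ren f).val e = t.val (e ∘ f) := by
  rw [Tm.ren, Tm.val_sb]; rfl

lemma Fm.sat_ren {f : ℕ → ℕ} (hf : Injective f) (φ : Fm) (e : ℕ → ℕ) :
    (φ.ren f).Sat e ↔ φ.Sat (e ∘ f) := by
  induction φ generalizing e with
  | bot => exact Iff.rfl
  | eq t s => simp only [Fm.ren, Fm.Sat, Tm.val_ren]
  | le t s => simp only [Fm.ren, Fm.Sat, Tm.val_ren]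
  | imp φ ψ ih1 ih2 => exact imp_congr (ih1 e) (ih2 e)
  | all k φ ih =>
    refine forall_congr' fun a => ?_
    rw [ih]
    have : update e (f k) a ∘ f = update (e ∘ f) k a := by
      funext j
      by_cases hj : j = k
      · subst hj; simp
      · rw [update_of_ne hj, comp_apply, update_of_ne (fun h => hj (hf h)), comp_apply]
    rw [this]

lemma Dfn.ren {P : (ℕ → ℕ) → Prop} (h : Dfn P) {f : ℕ → ℕ} (hf : Injective f) :
    Dfn (fun e => P (e ∘ f)) := by
  obtain ⟨φ, hφ⟩ := h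
  exact ⟨φ.ren f, fun e => (Fm.sat_ren hf φ e).trans (hφ _)⟩

/-- Definability of a 4-ary relation. -/
def D4 (R : ℕ → ℕ → ℕ → ℕ → Prop) : Prop := Dfn (fun e => R (e 0) (e 1) (e 2) (e 3))

lemma D4.app {R : ℕ → ℕ → ℕ → ℕ → Prop} (h : D4 R) (t₀ t₁ t₂ t₃ : Tm) :
    Dfn (fun e => R (t₀.val e) (t₁.val e) (t₂.val e) (t₃.val e)) := by
  set V := max (max t₀.fv t₁.fv) (max t₂.fv t₃.fv) with hV
  have h0 : t₀.fv ≤ V := (le_max_left _ _).trans (le_max_left _ _)
  have h1 : t₁.fv ≤ V := (le_max_right _ _).trans (le_max_left _ _)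
  have h2 : t₂.fv ≤ V := (le_max_left _ _).trans (le_max_right _ _)
  have h3 : t₃.fv ≤ V := (le_max_right _ _).trans (le_max_right _ _)
  have hren := Dfn.ren h (f := fun k => k + V) (fun a b hab => by simpa using hab)
  have key := ((((Dfn.eq (x V) t₀).imp ((Dfn.eq (x (V + 1)) t₁).imp
    ((Dfn.eq (x (V + 2)) t₂).imp ((Dfn.eq (x (V + 3)) t₃).imp hren)))).all (V + 3)).all
      (V + 2)).all (V + 1) |>.all V
  refine key.congr fun e => ?_
  have hv : ∀ (t : Tm) (a b c d : ℕ), t.fv ≤ V →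
      t.val (update (update (update (update e V a) (V + 1) b) (V + 2) c) (V + 3) d) = t.val e := by
    intro t a b c d ht
    refine Tm.val_congr fun k hk => ?_
    have := Tm.lt_fv hk
    rw [update_of_ne (by omega), update_of_ne (by omega), update_of_ne (by omega),
      update_of_ne (by omega)]
  have u0 : ∀ a b c d : ℕ,
      update (update (update (update e V a) (V + 1) b) (V + 2) c) (V + 3) d V = a := by
    intro a b c d
    rw [update_of_ne (by omega), update_of_ne (by omega), update_of_ne (by omega), update_self]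
  have u1 : ∀ a b c d : ℕ,
      update (update (update (update e V a) (V + 1) b) (V + 2) c) (V + 3) d (V + 1) = b := by
    intro a b c d
    rw [update_of_ne (by omega), update_of_ne (by omega), update_self]
  have u2 : ∀ a b c d : ℕ,
      update (update (update (update e V a) (V + 1) b) (V + 2) c) (V + 3) d (V + 2) = c := by
    intro a b c d
    rw [update_of_ne (by omega), update_self]
  have u3 : ∀ a b c d : ℕ,
      update (update (update (update e V a) (V + 1) b) (V + 2) c) (V + 3) d (V + 3) = d := by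
    intro a b c d
    rw [update_self]
  constructor
  · intro hk
    have := hk (t₀.val e) (t₁.val e) (t₂.val e) (t₃.val e)
    simp only [hv _ _ _ _ _ h0, hv _ _ _ _ _ h1, hv _ _ _ _ _ h2, hv _ _ _ _ _ h3, Tm.val,
      comp_apply, Nat.zero_add, u0, u1, u2, u3, Nat.add_comm 1 V, Nat.add_comm 2 V,
      Nat.add_comm 3 V, forall_const] at this
    exact this
  · intro hk a b c d
    simp only [hv _ _ _ _ _ h0, hv _ _ _ _ _ h1, hv _ _ _ _ _ h2, hv _ _ _ _ _ h3, Tm.val,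
      comp_apply, Nat.zero_add, u0, u1, u2, u3, Nat.add_comm 1 V, Nat.add_comm 2 V,
      Nat.add_comm 3 V]
    rintro rfl rfl rfl rfl
    exact hk

/-! ### Tables -/

/-- The table with parameters `a`, `b`. -/
def Ent (a b y₀ y₁ y₂ y₃ : ℕ) : Prop := ((nd y₀ (nd y₁ (nd y₂ y₃)) + 1) * b + 1) ∣ a

lemma exists_table (P : ℕ → Prop) (M : ℕ) : ∃ a b : ℕ, ∀ n < M, ((n + 1) * b + 1 ∣ a ↔ P n) := by
  classical
  set l := (List.range M).map (fun n => if P n then 0 else 1) with hl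
  have hlen : l.length = M := by simp [hl]
  refine ⟨(Nat.unbeta l).unpair.1, (Nat.unbeta l).unpair.2, fun n hn => ?_⟩
  have h1 := Nat.beta_unbeta_coe l ⟨n, by omega⟩
  unfold Nat.beta at h1
  rw [Nat.dvd_iff_mod_eq_zero, h1]
  simp [hl]

lemma dfn_ent (t s y₀ y₁ y₂ y₃ : Tm) :
    Dfn (fun e => Ent (t.val e) (s.val e) (y₀.val e) (y₁.val e) (y₂.val e) (y₃.val e)) := by
  set V := max (max t.fv s.fv) (max (max y₀.fv y₁.fv) (max y₂.fv y₃.fv)) with hV
  have key := (Dfn.eq t (.mul (.succ (.mul (.succ (ndT y₀ (ndT y₁ (ndT y₂ y₃)))) s)) (x V))).ex V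
  refine key.congr fun e => ?_
  have hv : ∀ (u : Tm) (a : ℕ), u.fv ≤ V → u.val (update e V a) = u.val e := by
    intro u a hu
    refine Tm.val_congr fun k hk => ?_
    have := Tm.lt_fv hk
    rw [update_of_ne (by omega)]
  have b1 : t.fv ≤ V := by omega
  have b2 : s.fv ≤ V := by omega
  have b3 : y₀.fv ≤ V := by omega
  have b4 : y₁.fv ≤ V := by omega
  have b5 : y₂.fv ≤ V := by omega
  have b6 : y₃.fv ≤ V := by omega
  refine exists_congr fun a => ?_
  simp only [Tm.val, val_ndT, hv _ _ b1, hv _ _ b2, hv _ _ b3, hv _ _ b4, hv _ _ b5, hv _ _ b6,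
    update_self]

/-- Strict bound for all variables. -/
def BF.mx : BF → ℕ
  | bot => 0
  | eq t s => max t.fv s.fv
  | le t s => max t.fv s.fv
  | rel _ a b c d => max (max a b) (max c d) + 1
  | slf a b c d => max (max a b) (max c d) + 1
  | imp φ ψ => max φ.mx ψ.mx
  | ball k a φ => max (max k a + 1) φ.mx

lemma dfn_ev {R : ℕ → ℕ → ℕ → ℕ → ℕ → Prop} {i : ℕ} (hR : ∀ j < i, D4 (R j)) {ψ : BF}
    (h : ψ.Ok i) {p q : ℕ} (hp : ψ.mx ≤ p) (hq : ψ.mx ≤ q) :
    Dfn (fun e => ψ.ev R (Ent (e p) (e q)) e) := by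
  induction ψ with
  | bot => exact Dfn.false'
  | eq t s => exact Dfn.eq t s
  | le t s => exact Dfn.le t s
  | rel j a b c d => exact (hR j h.1).app (x a) (x b) (x c) (x d)
  | slf a b c d =>
    exact (Dfn.le (.succ (x a)) (x 0)).and (dfn_ent (x p) (x q) (x a) (x b) (x c) (x d))
  | imp φ ψ ih1 ih2 =>
    simp only [BF.mx] at hp hq
    exact (ih1 h.1 (by omega) (by omega)).imp (ih2 h.2 (by omega) (by omega))
  | ball k a φ ih =>
    simp only [BF.mx] at hp hq
    have h1 := ((Dfn.le (x k) (x a)).imp (ih h.2.2 (by omega) (by omega))).all k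
    refine h1.congr fun e => forall_congr' fun b => ?_
    have e1 : (x k).val (update e k b) = b := by simp [Tm.val]
    have e2 : (x a).val (update e k b) = e a := by
      simp only [Tm.val]; rw [update_of_ne h.2.1.symm]
    rw [e1, e2, update_of_ne (by omega), update_of_ne (by omega)]

lemma ev_local {R : ℕ → ℕ → ℕ → ℕ → ℕ → Prop} {S S' : ℕ → ℕ → ℕ → ℕ → Prop} {i : ℕ} {ψ : BF}
    (h : ψ.Ok i) {e : ℕ → ℕ} {N : ℕ} (he : ∀ k < ψ.mx, e k ≤ N)
    (hS : ∀ y₀ y₁ y₂ y₃, y₀ < e 0 → y₀ ≤ N → y₁ ≤ N → y₂ ≤ N → y₃ ≤ N →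
      (S y₀ y₁ y₂ y₃ ↔ S' y₀ y₁ y₂ y₃)) : ψ.ev R S e ↔ ψ.ev R S' e := by
  induction ψ generalizing e with
  | bot => exact Iff.rfl
  | eq t s => exact Iff.rfl
  | le t s => exact Iff.rfl
  | rel j a b c d => exact Iff.rfl
  | slf a b c d =>
    simp only [BF.mx] at he
    simp only [BF.ev_slf]
    refine and_congr_right fun h1 => hS _ _ _ _ h1 (he _ (by omega)) (he _ (by omega))
      (he _ (by omega)) (he _ (by omega))
  | imp φ ψ ih1 ih2 =>
    simp only [BF.mx] at he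
    exact imp_congr (ih1 h.1 (fun k hk => he k (by omega)) hS)
      (ih2 h.2 (fun k hk => he k (by omega)) hS)
  | ball k a φ ih =>
    simp only [BF.mx] at he
    simp only [BF.ev_ball]
    refine forall_congr' fun b => forall_congr' fun hb => ih h.2.2 (fun j hj => ?_) ?_
    · by_cases hjk : j = k
      · subst hjk
        rw [update_self]
        exact hb.trans (he a (by omega))
      · rw [update_of_ne hjk]
        exact he j (by omega)
    · rw [update_of_ne h.1.symm]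
      exact hS

/-- Relations given by bounded recursion are definable. -/
lemma dfn_rec {R : ℕ → ℕ → ℕ → ℕ → ℕ → Prop} {i : ℕ} (hR : ∀ j < i, D4 (R j)) {ψ : BF}
    (h : ψ.Ok i) (hψ : ∀ e : ℕ → ℕ, R i (e 0) (e 1) (e 2) (e 3) ↔ ψ.ev R (R i) e) :
    D4 (R i) := by
  obtain ⟨p, hp⟩ : ∃ p, p = max ψ.mx 4 := ⟨_, rfl⟩
  have hp1 : ψ.mx ≤ p := by omega
  have hp4 : 4 ≤ p := by omega
  -- the matrix
  have m1 : Dfn (fun e => ∀ k < p, e k ≤ e (p + 2)) :=
    Dfn.ball (fun k => Dfn.le (x k) (x (p + 2))) p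
  have m2 : Dfn (fun e => Ent (e p) (e (p + 1)) (e 0) (e 1) (e 2) (e 3) ↔
      ψ.ev R (Ent (e p) (e (p + 1))) e) :=
    (dfn_ent (x p) (x (p + 1)) (x 0) (x 1) (x 2) (x 3)).iff (dfn_ev hR h hp1 (by omega))
  have m3 := (((((Dfn.le (x 0) (x (p + 2))).imp ((Dfn.le (x 1) (x (p + 2))).imp
    ((Dfn.le (x 2) (x (p + 2))).imp ((Dfn.le (x 3) (x (p + 2))).imp m2)))).all 3).all 2).all
      1).all 0
  have m4 := dfn_ent (x p) (x (p + 1)) (x 0) (x 1) (x 2) (x 3)
  have key := (((m1.and (m3.and m4)).ex p).ex (p + 1)).ex (p + 2)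
  refine key.congr fun e => ?_
  have low : ∀ (N b a : ℕ) (k : ℕ), k < p →
      update (update (update e (p + 2) N) (p + 1) b) p a k = e k := by
    intro N b a k hk
    rw [update_of_ne (by omega), update_of_ne (by omega), update_of_ne (by omega)]
  constructor
  · rintro ⟨N, b, a, h1, h2, h3⟩
    set f := update (update (update e (p + 2) N) (p + 1) b) p a with hf
    have fN : f (p + 2) = N := by
      rw [hf, update_of_ne (by omega), update_of_ne (by omega), update_self]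
    have fa : f p = a := by rw [hf, update_self]
    have fb : f (p + 1) = b := by rw [hf, update_of_ne (by omega), update_self]
    have fl : ∀ k < p, f k = e k := fun k hk => low N b a k hk
    have h1' : ∀ k < p, e k ≤ N := by
      intro k hk
      have := h1 k hk
      rwa [fl k hk, fN] at this
    have key2 : ∀ y₀ y₁ y₂ y₃, y₀ ≤ N → y₁ ≤ N → y₂ ≤ N → y₃ ≤ N →
        (Ent a b y₀ y₁ y₂ y₃ ↔ R i y₀ y₁ y₂ y₃) := by
      intro y₀
      induction y₀ using Nat.strong_induction_on with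
      | _ y₀ ih =>
        intro y₁ y₂ y₃ b0 b1 b2 b3
        set f' := update (update (update (update f 0 y₀) 1 y₁) 2 y₂) 3 y₃ with hf'
        have g0 : f' 0 = y₀ := by
          rw [hf', update_of_ne (by omega), update_of_ne (by omega), update_of_ne (by omega),
            update_self]
        have g1 : f' 1 = y₁ := by
          rw [hf', update_of_ne (by omega), update_of_ne (by omega), update_self]
        have g2 : f' 2 = y₂ := by rw [hf', update_of_ne (by omega), update_self]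
        have g3 : f' 3 = y₃ := by rw [hf', update_self]
        have gk : ∀ k, 4 ≤ k → f' k = f k := by
          intro k hk
          rw [hf', update_of_ne (by omega), update_of_ne (by omega), update_of_ne (by omega),
            update_of_ne (by omega)]
        have gN : f' (p + 2) = N := by rw [gk _ (by omega), fN]
        have ga : f' p = a := by rw [gk _ (by omega), fa]
        have gb : f' (p + 1) = b := by rw [gk _ (by omega), fb]
        have h4 := h2 y₀ y₁ y₂ y₃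
        rw [← hf'] at h4
        simp only [Tm.val, g0, g1, g2, g3, gN, ga, gb] at h4
        rw [h4 b0 b1 b2 b3]
        have h5 : ψ.ev R (Ent a b) f' ↔ ψ.ev R (R i) f' := by
          refine ev_local h (N := N) (fun k hk => ?_) ?_
          · by_cases hk4 : 4 ≤ k
            · rw [gk k hk4, fl k (by omega)]
              exact h1' k (by omega)
            · interval_cases k
              · rw [g0]; exact b0
              · rw [g1]; exact b1
              · rw [g2]; exact b2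
              · rw [g3]; exact b3
          · intro z₀ z₁ z₂ z₃ c0 c0' c1 c2 c3
            rw [g0] at c0
            exact ih z₀ c0 z₁ z₂ z₃ c0' c1 c2 c3
        rw [h5, ← hψ f', g0, g1, g2, g3]
    simp only [Tm.val, fl 0 (by omega), fl 1 (by omega), fl 2 (by omega), fl 3 (by omega), fa,
      fb] at h3
    exact (key2 _ _ _ _ (h1' 0 (by omega)) (h1' 1 (by omega)) (h1' 2 (by omega))
      (h1' 3 (by omega))).mp h3
  · intro hR0
    -- the bound
    obtain ⟨N, hN⟩ : ∃ N, ∀ k < p, e k ≤ N := by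
      refine ⟨(Finset.range p).sup e, fun k hk => ?_⟩
      exact Finset.le_sup (f := e) (Finset.mem_range.mpr hk)
    -- the table
    obtain ⟨a, b, hab⟩ := exists_table (fun n => ∃ y₀ y₁ y₂ y₃,
      n = nd y₀ (nd y₁ (nd y₂ y₃)) ∧ R i y₀ y₁ y₂ y₃)
      ((2 * (2 * ((2 * N + 1) * (2 * N + 1)) + 1) * (2 * ((2 * N + 1) * (2 * N + 1)) + 1) + 1) *
        (2 * (2 * ((2 * N + 1) * (2 * N + 1)) + 1) * (2 * ((2 * N + 1) * (2 * N + 1)) + 1) + 1) + 1)
    have hent : ∀ y₀ y₁ y₂ y₃, y₀ ≤ N → y₁ ≤ N → y₂ ≤ N → y₃ ≤ N →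
        (Ent a b y₀ y₁ y₂ y₃ ↔ R i y₀ y₁ y₂ y₃) := by
      intro y₀ y₁ y₂ y₃ b0 b1 b2 b3
      have hb : nd y₀ (nd y₁ (nd y₂ y₃)) <
          ((2 * (2 * ((2 * N + 1) * (2 * N + 1)) + 1) * (2 * ((2 * N + 1) * (2 * N + 1)) + 1) + 1) *
        (2 * (2 * ((2 * N + 1) * (2 * N + 1)) + 1) * (2 * ((2 * N + 1) * (2 * N + 1)) + 1) + 1) + 1)
          := by
        set A := (2 * N + 1) * (2 * N + 1) with hA
        have k1 : nd y₂ y₃ ≤ A := nd_le b2 b3
        have hNA : N ≤ A := by nlinarith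
        have k2 : nd y₁ (nd y₂ y₃) ≤ (2 * A + 1) * (2 * A + 1) := nd_le (by omega) k1
        set A' := (2 * A + 1) * (2 * A + 1) with hA'
        have hNA' : N ≤ A' := by nlinarith
        have k3 : nd y₀ (nd y₁ (nd y₂ y₃)) ≤ (2 * A' + 1) * (2 * A' + 1) := nd_le (by omega) k2
        have k4 : 2 * (2 * A + 1) * (2 * A + 1) + 1 = 2 * A' + 1 := by rw [hA']; ring
        rw [k4]
        omega
      have h6 := hab _ hb
      show ((nd y₀ (nd y₁ (nd y₂ y₃)) + 1) * b + 1) ∣ a ↔ _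
      rw [h6]
      constructor
      · rintro ⟨z₀, z₁, z₂, z₃, hz, hr⟩
        obtain ⟨i0, hz⟩ := nd_inj.mp hz
        obtain ⟨i1, hz⟩ := nd_inj.mp hz
        obtain ⟨i2, i3⟩ := nd_inj.mp hz
        rw [i0, i1, i2, i3]
        exact hr
      · intro hr
        exact ⟨_, _, _, _, rfl, hr⟩
    refine ⟨N, b, a, ?_⟩
    set f := update (update (update e (p + 2) N) (p + 1) b) p a with hf
    have fN : f (p + 2) = N := by
      rw [hf, update_of_ne (by omega), update_of_ne (by omega), update_self]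
    have fa : f p = a := by rw [hf, update_self]
    have fb : f (p + 1) = b := by rw [hf, update_of_ne (by omega), update_self]
    have fl : ∀ k < p, f k = e k := fun k hk => low N b a k hk
    refine ⟨fun k hk => ?_, ?_, ?_⟩
    · rw [fl k hk, fN]; exact hN k hk
    · intro y₀ y₁ y₂ y₃
      set f' := update (update (update (update f 0 y₀) 1 y₁) 2 y₂) 3 y₃ with hf'
      have g0 : f' 0 = y₀ := by
        rw [hf', update_of_ne (by omega), update_of_ne (by omega), update_of_ne (by omega),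
          update_self]
      have g1 : f' 1 = y₁ := by
        rw [hf', update_of_ne (by omega), update_of_ne (by omega), update_self]
      have g2 : f' 2 = y₂ := by rw [hf', update_of_ne (by omega), update_self]
      have g3 : f' 3 = y₃ := by rw [hf', update_self]
      have gk : ∀ k, 4 ≤ k → f' k = f k := by
        intro k hk
        rw [hf', update_of_ne (by omega), update_of_ne (by omega), update_of_ne (by omega),
          update_of_ne (by omega)]
      have gN : f' (p + 2) = N := by rw [gk _ (by omega), fN]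
      have ga : f' p = a := by rw [gk _ (by omega), fa]
      have gb : f' (p + 1) = b := by rw [gk _ (by omega), fb]
      simp only [Tm.val, g0, g1, g2, g3, gN, ga, gb]
      intro b0 b1 b2 b3
      rw [hent _ _ _ _ b0 b1 b2 b3]
      have h5 : ψ.ev R (Ent a b) f' ↔ ψ.ev R (R i) f' := by
        refine ev_local h (N := N) (fun k hk => ?_) ?_
        · by_cases hk4 : 4 ≤ k
          · rw [gk k hk4, fl k (by omega)]
            exact hN k (by omega)
          · interval_cases k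
            · rw [g0]; exact b0
            · rw [g1]; exact b1
            · rw [g2]; exact b2
            · rw [g3]; exact b3
        · intro z₀ z₁ z₂ z₃ _ c0' c1 c2 c3
          exact hent z₀ z₁ z₂ z₃ c0' c1 c2 c3
      rw [h5, ← hψ f', g0, g1, g2, g3]
    · simp only [Tm.val, fl 0 (by omega), fl 1 (by omega), fl 2 (by omega), fl 3 (by omega), fa,
        fb]
      exact (hent _ _ _ _ (hN 0 (by omega)) (hN 1 (by omega)) (hN 2 (by omega))
        (hN 3 (by omega))).mpr hR0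

end Helper31Con

end

section

/-!
# Horn steps
-/

namespace Helper31Con

open Function Filter Fm

lemma horn0 {β : Fm} (h : ∀ e, β.Sat e) : ∃ c : ℕ, ∀ᶠ B in rich, ∀ e N M,
    (∀ k, e k ≤ N) → c * (N + 1) ≤ M → Pr B c M (β.cl e) := by
  refine ⟨β.sz, ?_⟩
  filter_upwards [rich_ucl h] with B hB e N M he hM
  exact (Pr.inst hB he).mono le_rfl hM

lemma horn1 {α β : Fm} (h : ∀ e, α.Sat e → β.Sat e) : ∃ c : ℕ, ∀ᶠ B in rich, ∀ e N M n,
    (∀ k, e k ≤ N) → c * (N + 1) ≤ M → Pr B n M (α.cl e) → Pr B (c + n) M (β.cl e) := by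
  refine ⟨(imp α β).sz + 1, ?_⟩
  filter_upwards [rich_ucl (φ := imp α β) h] with B hB e N M n he hM h1
  have hM' : (imp α β).sz * (N + 1) ≤ M := (Nat.mul_le_mul_right _ (by omega)).trans hM
  exact (Pr.h1 hB rfl he hM' h1).mono (by omega) le_rfl

lemma horn2 {α₁ α₂ β : Fm} (h : ∀ e, α₁.Sat e → α₂.Sat e → β.Sat e) :
    ∃ c : ℕ, ∀ᶠ B in rich, ∀ e N M n₁ n₂, (∀ k, e k ≤ N) → c * (N + 1) ≤ M →
    Pr B n₁ M (α₁.cl e) → Pr B n₂ M (α₂.cl e) → Pr B (c + n₁ + n₂) M (β.cl e) := by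
  refine ⟨(imp α₁ (imp α₂ β)).sz + 2, ?_⟩
  filter_upwards [rich_ucl (φ := imp α₁ (imp α₂ β)) h] with B hB e N M n₁ n₂ he hM h1 h2
  have hM' : (imp α₁ (imp α₂ β)).sz * (N + 1) ≤ M := (Nat.mul_le_mul_right _ (by omega)).trans hM
  exact (Pr.h2 hB rfl he hM' h1 h2).mono (by omega) le_rfl

lemma horn3 {α₁ α₂ α₃ β : Fm} (h : ∀ e, α₁.Sat e → α₂.Sat e → α₃.Sat e → β.Sat e) :
    ∃ c : ℕ, ∀ᶠ B in rich, ∀ e N M n₁ n₂ n₃, (∀ k, e k ≤ N) → c * (N + 1) ≤ M →
    Pr B n₁ M (α₁.cl e) → Pr B n₂ M (α₂.cl e) → Pr B n₃ M (α₃.cl e) →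
    Pr B (c + n₁ + n₂ + n₃) M (β.cl e) := by
  refine ⟨(imp α₁ (imp α₂ (imp α₃ β))).sz + 3, ?_⟩
  filter_upwards [rich_ucl (φ := imp α₁ (imp α₂ (imp α₃ β))) h] with B hB e N M n₁ n₂ n₃ he hM
    h1 h2 h3
  have hM' : (imp α₁ (imp α₂ (imp α₃ β))).sz * (N + 1) ≤ M :=
    (Nat.mul_le_mul_right _ (by omega)).trans hM
  exact (Pr.h3 hB rfl he hM' h1 h2 h3).mono (by omega) le_rfl

lemma horn4 {α₁ α₂ α₃ α₄ β : Fm}
    (h : ∀ e, α₁.Sat e → α₂.Sat e → α₃.Sat e → α₄.Sat e → β.Sat e) :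
    ∃ c : ℕ, ∀ᶠ B in rich, ∀ e N M n₁ n₂ n₃ n₄, (∀ k, e k ≤ N) → c * (N + 1) ≤ M →
    Pr B n₁ M (α₁.cl e) → Pr B n₂ M (α₂.cl e) → Pr B n₃ M (α₃.cl e) → Pr B n₄ M (α₄.cl e) →
    Pr B (c + n₁ + n₂ + n₃ + n₄) M (β.cl e) := by
  refine ⟨(imp α₁ (imp α₂ (imp α₃ (imp α₄ β)))).sz + 4, ?_⟩
  filter_upwards [rich_ucl (φ := imp α₁ (imp α₂ (imp α₃ (imp α₄ β)))) h] with B hB e N M
    n₁ n₂ n₃ n₄ he hM h1 h2 h3 h4
  have hM' : (imp α₁ (imp α₂ (imp α₃ (imp α₄ β)))).sz * (N + 1) ≤ M :=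
    (Nat.mul_le_mul_right _ (by omega)).trans hM
  exact (Pr.h4 hB rfl he hM' h1 h2 h3 h4).mono (by omega) le_rfl

lemma horn5 {α₁ α₂ α₃ α₄ α₅ β : Fm}
    (h : ∀ e, α₁.Sat e → α₂.Sat e → α₃.Sat e → α₄.Sat e → α₅.Sat e → β.Sat e) :
    ∃ c : ℕ, ∀ᶠ B in rich, ∀ e N M n₁ n₂ n₃ n₄ n₅, (∀ k, e k ≤ N) → c * (N + 1) ≤ M →
    Pr B n₁ M (α₁.cl e) → Pr B n₂ M (α₂.cl e) → Pr B n₃ M (α₃.cl e) → Pr B n₄ M (α₄.cl e) →
    Pr B n₅ M (α₅.cl e) → Pr B (c + n₁ + n₂ + n₃ + n₄ + n₅) M (β.cl e) := by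
  refine ⟨(imp α₁ (imp α₂ (imp α₃ (imp α₄ (imp α₅ β))))).sz + 5, ?_⟩
  filter_upwards [rich_ucl (φ := imp α₁ (imp α₂ (imp α₃ (imp α₄ (imp α₅ β))))) h] with B hB e N M
    n₁ n₂ n₃ n₄ n₅ he hM h1 h2 h3 h4 h5
  have hM' : (imp α₁ (imp α₂ (imp α₃ (imp α₄ (imp α₅ β))))).sz * (N + 1) ≤ M :=
    (Nat.mul_le_mul_right _ (by omega)).trans hM
  exact ((Pr.h4 hB rfl he hM' h1 h2 h3 h4).mp h5).mono (by omega) le_rfl

lemma horn6 {α₁ α₂ α₃ α₄ α₅ α₆ β : Fm}
    (h : ∀ e, α₁.Sat e → α₂.Sat e → α₃.Sat e → α₄.Sat e → α₅.Sat e → α₆.Sat e → β.Sat e) :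
    ∃ c : ℕ, ∀ᶠ B in rich, ∀ e N M n₁ n₂ n₃ n₄ n₅ n₆, (∀ k, e k ≤ N) → c * (N + 1) ≤ M →
    Pr B n₁ M (α₁.cl e) → Pr B n₂ M (α₂.cl e) → Pr B n₃ M (α₃.cl e) → Pr B n₄ M (α₄.cl e) →
    Pr B n₅ M (α₅.cl e) → Pr B n₆ M (α₆.cl e) →
    Pr B (c + n₁ + n₂ + n₃ + n₄ + n₅ + n₆) M (β.cl e) := by
  refine ⟨(imp α₁ (imp α₂ (imp α₃ (imp α₄ (imp α₅ (imp α₆ β)))))).sz + 6, ?_⟩
  filter_upwards [rich_ucl (φ := imp α₁ (imp α₂ (imp α₃ (imp α₄ (imp α₅ (imp α₆ β)))))) h] with
    B hB e N M n₁ n₂ n₃ n₄ n₅ n₆ he hM h1 h2 h3 h4 h5 h6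
  have hM' : (imp α₁ (imp α₂ (imp α₃ (imp α₄ (imp α₅ (imp α₆ β)))))).sz * (N + 1) ≤ M :=
    (Nat.mul_le_mul_right _ (by omega)).trans hM
  exact (((Pr.h4 hB rfl he hM' h1 h2 h3 h4).mp h5).mp h6).mono (by omega) le_rfl

/-- Chains of Horn steps. -/
lemma chain {B : List Fm} {P : ℕ → Fm} {s M a : ℕ} (h0 : Pr B s M (P 0))
    (hs : ∀ i < a, ∀ n, Pr B n M (P i) → Pr B (n + s) M (P (i + 1))) :
    ∀ i ≤ a, Pr B ((i + 1) * s) M (P i) := by
  intro i
  induction i with
  | zero => intro _; simpa using h0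
  | succ i ih =>
    intro hi
    have := hs i (by omega) _ (ih (by omega))
    exact this.mono (le_of_eq (by ring)) le_rfl

/-! ### Allowed terms -/

@[simp] lemma alw_zero : Tm.zero.Alw := fun k hk => absurd hk (by simp [Tm.Has])

@[simp] lemma alw_num (n : ℕ) : (Tm.num n).Alw := Tm.alw_num n

lemma alw_succ {t : Tm} (h : t.Alw) : (Tm.succ t).Alw := h

@[simp] lemma alw_succ_iff {t : Tm} : (Tm.succ t).Alw ↔ t.Alw := Iff.rfl

@[simp] lemma alw_var_iff {k : ℕ} : (Tm.var k).Alw ↔ Al k := by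
  constructor
  · intro h; exact h k rfl
  · exact Tm.alw_var

lemma al_lt {k : ℕ} (h : k < 16) : Al k := Or.inl h

variable {R : ℕ → ℕ → ℕ → ℕ → ℕ → Prop}

lemma Pr.refl' {B : List Fm} {M : ℕ} (t : Tm) (h : 2 * t.len + 1 ≤ M) : Pr B 1 M (eq t t) :=
  Pr.eqRefl h

/-- A true equation between terms is provable. -/
lemma eq_fact (t s : Tm) : ∃ f, PB f ∧ ∀ᶠ B in rich, ∀ e N, (∀ k, e k ≤ N) →
    t.val e = s.val e → Pr B (f N) (f N) ((eq t s).cl e) := by
  obtain ⟨f, hf, h⟩ := dec_eq t s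
  refine ⟨f, hf, ?_⟩
  filter_upwards [h] with B h e N he hts
  exact (h N e he).1 hts

lemma le_fact (t s : Tm) : ∃ f, PB f ∧ ∀ᶠ B in rich, ∀ e N, (∀ k, e k ≤ N) →
    t.val e ≤ s.val e → Pr B (f N) (f N) ((le t s).cl e) := by
  obtain ⟨f, hf, h⟩ := dec_le t s
  refine ⟨f, hf, ?_⟩
  filter_upwards [h] with B h e N he hts
  exact (h N e he).1 hts

end Helper31Con

end

section

/-!
# Provable facts about the nodes
-/

namespace Helper31Con

open Function Filter Fm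

variable {R : ℕ → ℕ → ℕ → ℕ → ℕ → Prop}

lemma Iface.clA (I : Iface R) {j : ℕ} {t₀ t₁ t₂ t₃ : Tm} {e : ℕ → ℕ}
    (h : t₀.Alw ∧ t₁.Alw ∧ t₂.Alw ∧ t₃.Alw) :
    (I.A j t₀ t₁ t₂ t₃).cl e = I.A j (t₀.cl e) (t₁.cl e) (t₂.cl e) (t₃.cl e) :=
  I.cl _ _ _ _ _ _ h.1 h.2.1 h.2.2.1 h.2.2.2

lemma Iface.satA (I : Iface R) {j : ℕ} {t₀ t₁ t₂ t₃ : Tm} {e : ℕ → ℕ}
    (h : t₀.Alw ∧ t₁.Alw ∧ t₂.Alw ∧ t₃.Alw) :
    (I.A j t₀ t₁ t₂ t₃).Sat e ↔ R j (t₀.val e) (t₁.val e) (t₂.val e) (t₃.val e) :=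
  I.sat _ _ _ _ _ _ h.1 h.2.1 h.2.2.1 h.2.2.2

lemma mulle {c S N M : ℕ} (h' : S * (N + 1) ≤ M) (h : c ≤ S) : c * (N + 1) ≤ M :=
  (Nat.mul_le_mul_right _ h).trans h'

variable {con : Fm} {g : ℕ → ℕ} {s₀ : ℕ}

lemma tw_succ (k n : ℕ) : tw (k + 1) n = 2 ^ tw k n := rfl

lemma add_le_tw (k n : ℕ) : n + k ≤ tw k n := by
  induction k with
  | zero => exact le_rfl
  | succ k ih =>
    have : tw k n < 2 ^ tw k n := Nat.lt_two_pow_self
    rw [tw_succ]; omega

lemma ex2_fact (I : Iface (Rel con g s₀)) : ∃ f, PB f ∧ ∀ᶠ B in rich, ∀ N a, 2 ^ a ≤ N →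
    Pr B (f N) (f N) (I.A 16 (.num a) (.num (2 ^ a)) .zero .zero) := by
  obtain ⟨c0, h0⟩ := horn0 (β := I.A 16 .zero (.succ .zero) .zero .zero) (fun e => by
    rw [I.satA (by simp [Al])]; rfl)
  obtain ⟨c1, h1⟩ := horn2 (α₁ := I.A 16 (x 0) (x 1) .zero .zero)
    (α₂ := eq (x 2) (.add (x 1) (x 1))) (β := I.A 16 (.succ (x 0)) (x 2) .zero .zero)
    (fun e h1 h2 => by
      rw [I.satA (by simp [Al])] at h1 ⊢
      have h1' : e 1 = 2 ^ e 0 := h1
      have h2' : e 2 = e 1 + e 1 := h2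
      show e 2 = 2 ^ (e 0 + 1)
      rw [h2', h1']; ring)
  obtain ⟨f, hf, h2⟩ := eq_fact (x 2) (.add (x 1) (x 1))
  refine ⟨fun N => (N + 1) * (c0 + c1 + f N) + ((c0 + c1) * (N + 1) + f N), ?_, ?_⟩
  · exact ((PB.id.add (PB.const 1)).mul ((PB.const _).add hf)).add
      (((PB.const _).mul (PB.id.add (PB.const 1))).add hf)
  filter_upwards [h0, h1, h2] with B h0 h1 h2 N a ha
  set M := (N + 1) * (c0 + c1 + f N) + ((c0 + c1) * (N + 1) + f N) with hM
  have haN : a < 2 ^ a := Nat.lt_two_pow_self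
  have key := chain (B := B) (P := fun i => I.A 16 (.num i) (.num (2 ^ i)) .zero .zero)
    (s := c0 + c1 + f N) (M := M) (a := a) ?_ ?_ a le_rfl
  · refine key.mono ?_ le_rfl
    have : (a + 1) * (c0 + c1 + f N) ≤ (N + 1) * (c0 + c1 + f N) :=
      Nat.mul_le_mul_right _ (by omega)
    omega
  · have := h0 (as []) N M (as_le (by simp)) (mulle (S := c0 + c1) (by omega) (by omega))
    rw [I.clA (by simp [Al])] at this
    exact this.mono (by omega) le_rfl
  · intro i hi n hn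
    have hi1 : 2 ^ (i + 1) ≤ 2 ^ a := Nat.pow_le_pow_right (by omega) (by omega)
    have hi2 : 2 ^ i ≤ 2 ^ (i + 1) := Nat.pow_le_pow_right (by omega) (by omega)
    have he : ∀ k, as [i, 2 ^ i, 2 ^ (i + 1)] k ≤ N := as_le (by simp; omega)
    have q1 := h2 _ N he (by show 2 ^ (i + 1) = 2 ^ i + 2 ^ i; ring)
    have := h1 _ N M n (f N) he (mulle (S := c0 + c1) (by omega) (by omega))
      (by rw [I.clA (by simp [Al])]; exact hn) (q1.mono le_rfl (by omega))
    rw [I.clA (by simp [Al])] at this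
    exact this.mono (by omega) le_rfl

lemma tw_fact (I : Iface (Rel con g s₀)) : ∃ f, PB f ∧ ∀ᶠ B in rich, ∀ N k n, tw k n ≤ N →
    Pr B (f N) (f N) (I.A 17 (.num k) (.num n) (.num (tw k n)) .zero) := by
  obtain ⟨c0, h0⟩ := horn0 (β := I.A 17 .zero (x 0) (x 0) .zero) (fun e => by
    rw [I.satA (by simp [Al])]; rfl)
  obtain ⟨c1, h1⟩ := horn2 (α₁ := I.A 17 (x 0) (x 1) (x 2) .zero)
    (α₂ := I.A 16 (x 2) (x 3) .zero .zero) (β := I.A 17 (.succ (x 0)) (x 1) (x 3) .zero)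
    (fun e h1 h2 => by
      rw [I.satA (by simp [Al])] at h1 h2 ⊢
      have h1' : e 2 = tw (e 0) (e 1) := h1
      have h2' : e 3 = 2 ^ e 2 := h2
      show e 3 = tw (e 0 + 1) (e 1)
      rw [h2', h1']; rfl)
  obtain ⟨f, hf, h2⟩ := ex2_fact I
  refine ⟨fun N => (N + 1) * (c0 + c1 + f N) + ((c0 + c1) * (N + 1) + f N), ?_, ?_⟩
  · exact ((PB.id.add (PB.const 1)).mul ((PB.const _).add hf)).add
      (((PB.const _).mul (PB.id.add (PB.const 1))).add hf)
  filter_upwards [h0, h1, h2] with B h0 h1 h2 N a m ha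
  set M := (N + 1) * (c0 + c1 + f N) + ((c0 + c1) * (N + 1) + f N) with hM
  have haN := add_le_tw a m
  have key := chain (B := B) (P := fun i => I.A 17 (.num i) (.num m) (.num (tw i m)) .zero)
    (s := c0 + c1 + f N) (M := M) (a := a) ?_ ?_ a le_rfl
  · refine key.mono ?_ le_rfl
    have : (a + 1) * (c0 + c1 + f N) ≤ (N + 1) * (c0 + c1 + f N) :=
      Nat.mul_le_mul_right _ (by omega)
    omega
  · have := h0 (as [m]) N M (as_le (by simp; omega)) (mulle (S := c0 + c1) (by omega) (by omega))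
    rw [I.clA (by simp [Al])] at this
    exact this.mono (by omega) le_rfl
  · intro i hi n hn
    have hi1 : tw (i + 1) m ≤ tw a m := tw_le_tw (by omega) m
    have hi2 : tw i m ≤ tw (i + 1) m := tw_le_tw (by omega) m
    have he : ∀ k, as [i, m, tw i m, tw (i + 1) m] k ≤ N := as_le (by simp; omega)
    have q1 := h2 N (tw i m) (show 2 ^ tw i m ≤ N by rw [← tw_succ]; omega)
    have := h1 _ N M n (f N) he (mulle (S := c0 + c1) (by omega) (by omega))
      (by rw [I.clA (by simp [Al])]; exact hn)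
      (by rw [I.clA (by simp [Al])]; exact q1.mono le_rfl (by omega))
    rw [I.clA (by simp [Al])] at this
    exact this.mono (by omega) le_rfl

/-- Hypotheses on the growth function. -/
structure Good (g : ℕ → ℕ) (s₀ : ℕ) : Prop where
  mono : Monotone g
  pos : 1 ≤ s₀
  lt : ∀ n, s₀ ≤ n → n < g n

/-- The graph of `g` is provable. -/
structure Graph (g : ℕ → ℕ) (γ : Fm) : Prop where
  free : ∀ k, γ.Free k → k < 2
  sat : ∀ e : ℕ → ℕ, γ.Sat e ↔ e 1 = g (e 0)
  prov : ∃ (G : List Fm) (c : ℕ), (∀ β ∈ G, TrueS β) ∧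
    ∀ n, Prov G ((g n + 2) ^ c) (γ.cl (as [n, g n]))

lemma gr_fact (I : Iface (Rel con g s₀)) {γ : Fm} (hγ : Graph g γ) : ∃ f, PB f ∧ ∀ᶠ B in rich,
    ∀ N n, n ≤ N → g n ≤ N → Pr B (f N) (f N) (I.A 18 (.num n) (.num (g n)) .zero .zero) := by
  obtain ⟨c1, h1⟩ := horn1 (α := γ) (β := I.A 18 (x 0) (x 1) .zero .zero)
    (fun e h1 => by
      rw [I.satA (by simp [Al])]
      exact (hγ.sat e).mp h1)
  obtain ⟨G, c, hG, hp⟩ := hγ.prov
  have hGB : ∀ᶠ B in rich, ∀ β ∈ G, β ∈ B := rich_iff.mpr ⟨G, hG, fun B hB => hB⟩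
  refine ⟨fun N => (N + 2) ^ c + c1 * (N + 1) + c1, ?_, ?_⟩
  · exact (((PB.id.add (PB.const 2)).pow c).add ((PB.const _).mul (PB.id.add (PB.const 1)))).add
      (PB.const _)
  filter_upwards [h1, hGB] with B h1 hGB N n hn hgn
  have q := ((hp n).pr).monoT hGB
  have hc : (g n + 2) ^ c ≤ (N + 2) ^ c := Nat.pow_le_pow_left (by omega) _
  set M := (N + 2) ^ c + c1 * (N + 1) + c1 with hM
  have := h1 (as [n, g n]) N M ((g n + 2) ^ c) (as_le (by simp; omega)) (by omega)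
    (q.mono le_rfl (by omega))
  rw [I.clA (by simp [Al])] at this
  exact this.mono (by omega) le_rfl

lemma Good.iter (hg : Good g s₀) {x : ℕ} (hx : s₀ ≤ x) (m : ℕ) : x + m ≤ g^[m] x := by
  induction m with
  | zero => exact le_rfl
  | succ m ih =>
    rw [iterate_succ_apply']
    have := hg.lt (g^[m] x) (by omega)
    omega

lemma Good.iter_le (hg : Good g s₀) {x : ℕ} (hx : s₀ ≤ x) {m m' : ℕ} (h : m ≤ m') :
    g^[m] x ≤ g^[m'] x := by
  obtain ⟨d, rfl⟩ := Nat.exists_eq_add_of_le h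
  rw [Nat.add_comm, iterate_add_apply]
  have h1 := hg.iter hx m
  have := hg.iter (x := g^[m] x) (by omega) d
  omega

lemma it_fact (I : Iface (Rel con g s₀)) (hg : Good g s₀) {γ : Fm} (hγ : Graph g γ) :
    ∃ f, PB f ∧ ∀ᶠ B in rich, ∀ N m n, s₀ ≤ n → g^[m] n ≤ N →
    Pr B (f N) (f N) (I.A 19 (.num m) (.num n) (.num (g^[m] n)) .zero) := by
  obtain ⟨c0, h0⟩ := horn1 (α := le (.num s₀) (x 0)) (β := I.A 19 .zero (x 0) (x 0) .zero)
    (fun e h => by
      rw [I.satA (by simp [Al])]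
      have h' : s₀ ≤ e 0 := by simpa [Fm.Sat, Tm.val] using h
      exact ⟨h', rfl⟩)
  obtain ⟨c1, h1⟩ := horn2 (α₁ := I.A 19 (x 0) (x 1) (x 2) .zero)
    (α₂ := I.A 18 (x 2) (x 3) .zero .zero) (β := I.A 19 (.succ (x 0)) (x 1) (x 3) .zero)
    (fun e h1 h2 => by
      rw [I.satA (by simp [Al])] at h1 h2 ⊢
      obtain ⟨h1', h1''⟩ : s₀ ≤ e 1 ∧ e 2 = g^[e 0] (e 1) := h1
      have h2' : e 3 = g (e 2) := h2
      refine ⟨h1', ?_⟩
      show e 3 = g^[e 0 + 1] (e 1)
      rw [iterate_succ_apply', h2', h1''])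
  obtain ⟨f, hf, h2⟩ := gr_fact I hγ
  obtain ⟨f', hf', h3⟩ := le_fact (.num s₀) (x 0)
  refine ⟨fun N => (N + 1) * (c0 + c1 + f N + f' N) + ((c0 + c1) * (N + 1) + f N + f' N), ?_, ?_⟩
  · exact ((PB.id.add (PB.const 1)).mul (((PB.const _).add hf).add hf')).add
      ((((PB.const _).mul (PB.id.add (PB.const 1))).add hf).add hf')
  filter_upwards [h0, h1, h2, h3] with B h0 h1 h2 h3 N a m hm ha
  set M := (N + 1) * (c0 + c1 + f N + f' N) + ((c0 + c1) * (N + 1) + f N + f' N) with hM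
  have haN := hg.iter hm a
  have key := chain (B := B) (P := fun i => I.A 19 (.num i) (.num m) (.num (g^[i] m)) .zero)
    (s := c0 + c1 + f N + f' N) (M := M) (a := a) ?_ ?_ a le_rfl
  · refine key.mono ?_ le_rfl
    have : (a + 1) * (c0 + c1 + f N + f' N) ≤ (N + 1) * (c0 + c1 + f N + f' N) :=
      Nat.mul_le_mul_right _ (by omega)
    omega
  · have q := h3 (as [m]) N (as_le (by simp; omega)) (by
      show (Tm.num s₀).val (as [m]) ≤ m
      simpa using hm)
    have := h0 (as [m]) N M (f' N) (as_le (by simp; omega))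
      (mulle (S := c0 + c1) (by omega) (by omega)) (q.mono le_rfl (by omega))
    rw [I.clA (by simp [Al])] at this
    exact this.mono (by omega) le_rfl
  · intro i hi n hn
    have hi1 : g^[i + 1] m ≤ g^[a] m := hg.iter_le hm (by omega)
    have hi2 : g^[i] m ≤ g^[i + 1] m := hg.iter_le hm (by omega)
    have he : ∀ k, as [i, m, g^[i] m, g^[i + 1] m] k ≤ N := as_le (by
      simp only [List.forall_mem_cons, List.not_mem_nil, IsEmpty.forall_iff, implies_true,
        and_true]; omega)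
    have e1 : g (g^[i] m) = g^[i + 1] m := (iterate_succ_apply' g i m).symm
    have q1 := h2 N (g^[i] m) (by omega) (by rw [e1]; omega)
    rw [e1] at q1
    have := h1 _ N M n (f N) he (mulle (S := c0 + c1) (by omega) (by omega))
      (by rw [I.clA (by simp [Al])]; exact hn)
      (by rw [I.clA (by simp [Al])]; exact q1.mono le_rfl (by omega))
    rw [I.clA (by simp [Al])] at this
    exact this.mono (by omega) le_rfl

lemma Good.sd_ge (hg : Good g s₀) (D i : ℕ) : s₀ + i ≤ sd g s₀ D i := by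
  induction i with
  | zero => exact le_rfl
  | succ i ih =>
    have h1 := hg.iter (x := sd g s₀ D i) (by omega) D
    show _ ≤ tw _ _
    have h2 := add_le_tw (g^[D] (sd g s₀ D i)) (g^[D] (sd g s₀ D i))
    have := hg.pos
    omega

lemma Good.sd_succ_ge (hg : Good g s₀) (D i : ℕ) : g^[D] (sd g s₀ D i) ≤ sd g s₀ D (i + 1) := by
  show _ ≤ tw _ _
  exact le_tw _ _

lemma sd_fact (I : Iface (Rel con g s₀)) (hg : Good g s₀) {γ : Fm} (hγ : Graph g γ) :
    ∃ f, PB f ∧ ∀ᶠ B in rich, ∀ N i D, D ≤ N → sd g s₀ D i ≤ N →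
    Pr B (f N) (f N) (I.A 20 (.num i) (.num D) (.num (sd g s₀ D i)) .zero) := by
  obtain ⟨c0, h0⟩ := horn0 (β := I.A 20 .zero (x 0) (.num s₀) .zero)
    (fun e => by
      rw [I.satA (by simp [Al])]
      show (Tm.num s₀).val e = s₀
      simp)
  obtain ⟨c1, h1⟩ := horn3 (α₁ := I.A 20 (x 0) (x 1) (x 2) .zero)
    (α₂ := I.A 19 (x 1) (x 2) (x 3) .zero) (α₃ := I.A 17 (x 3) (x 3) (x 4) .zero)
    (β := I.A 20 (.succ (x 0)) (x 1) (x 4) .zero)
    (fun e h1 h2 h3 => by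
      rw [I.satA (by simp [Al])] at h1 h2 h3 ⊢
      have h1' : e 2 = sd g s₀ (e 1) (e 0) := h1
      obtain ⟨_, h2'⟩ : s₀ ≤ e 2 ∧ e 3 = g^[e 1] (e 2) := h2
      have h3' : e 4 = tw (e 3) (e 3) := h3
      show e 4 = tw (g^[e 1] (sd g s₀ (e 1) (e 0))) (g^[e 1] (sd g s₀ (e 1) (e 0)))
      rw [h3', h2', h1'])
  obtain ⟨f, hf, h2⟩ := it_fact I hg hγ
  obtain ⟨f', hf', h3⟩ := tw_fact I
  refine ⟨fun N => (N + 1) * (c0 + c1 + f N + f' N) + ((c0 + c1) * (N + s₀ + 1) + f N + f' N),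
    ?_, ?_⟩
  · exact ((PB.id.add (PB.const 1)).mul (((PB.const _).add hf).add hf')).add
      ((((PB.const _).mul ((PB.id.add (PB.const _)).add (PB.const 1))).add hf).add hf')
  filter_upwards [h0, h1, h2, h3] with B h0 h1 h2 h3 N a D hD ha
  set M := (N + 1) * (c0 + c1 + f N + f' N) + ((c0 + c1) * (N + s₀ + 1) + f N + f' N) with hM
  have haN := hg.sd_ge D a
  have key := chain (B := B)
    (P := fun i => I.A 20 (.num i) (.num D) (.num (sd g s₀ D i)) .zero)
    (s := c0 + c1 + f N + f' N) (M := M) (a := a) ?_ ?_ a le_rfl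
  · refine key.mono ?_ le_rfl
    have : (a + 1) * (c0 + c1 + f N + f' N) ≤ (N + 1) * (c0 + c1 + f N + f' N) :=
      Nat.mul_le_mul_right _ (by omega)
    omega
  · have := h0 (as [D]) (N + s₀) M (as_le (by simp; omega))
      (mulle (S := c0 + c1) (by omega) (by omega))
    rw [I.clA (by simp [Al])] at this
    have e1 : (Tm.num s₀).cl (as [D]) = Tm.num s₀ := Tm.sb_num _ _
    rw [e1] at this
    exact this.mono (by omega) le_rfl
  · intro i hi n hn
    have mono : ∀ j j', j ≤ j' → sd g s₀ D j ≤ sd g s₀ D j' := by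
      intro j j' hjj
      induction hjj with
      | refl => exact le_rfl
      | step _ ih =>
        refine ih.trans ((hg.iter_le ?_ (Nat.zero_le D)).trans (hg.sd_succ_ge D _))
        exact (Nat.le_add_right _ _).trans (hg.sd_ge D _)
    have hi1 : sd g s₀ D (i + 1) ≤ sd g s₀ D a := mono _ _ (by omega)
    have hi2 : sd g s₀ D i ≤ sd g s₀ D (i + 1) := mono _ _ (by omega)
    have hi3 := hg.sd_succ_ge D i
    have hi4 := hg.sd_ge D i
    have he : ∀ k, as [i, D, sd g s₀ D i, g^[D] (sd g s₀ D i), sd g s₀ D (i + 1)] k ≤ N :=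
      as_le (by
        simp only [List.forall_mem_cons, List.not_mem_nil, IsEmpty.forall_iff, implies_true,
          and_true]; omega)
    have q1 := h2 N D (sd g s₀ D i) (by omega) (by omega)
    have q2 := h3 N (g^[D] (sd g s₀ D i)) (g^[D] (sd g s₀ D i))
      (show sd g s₀ D (i + 1) ≤ N by omega)
    have := h1 _ N M n (f N) (f' N) he
      (mulle (S := c0 + c1) (by
        have : (c0 + c1) * (N + 1) ≤ (c0 + c1) * (N + s₀ + 1) :=
          Nat.mul_le_mul_left _ (by omega)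
        omega) (by omega))
      (by rw [I.clA (by simp [Al])]; exact hn)
      (by rw [I.clA (by simp [Al])]; exact q1.mono le_rfl (by omega))
      (by rw [I.clA (by simp [Al])]; exact q2.mono le_rfl (by omega))
    rw [I.clA (by simp [Al])] at this
    exact this.mono (by omega) le_rfl

lemma nod_fact (I : Iface (Rel con g s₀)) (hg : Good g s₀) {γ : Fm} (hγ : Graph g γ) :
    ∃ f, PB f ∧ ∀ᶠ B in rich, ∀ N i m D, D ≤ N → nod g s₀ D i m ≤ N →
    Pr B (f N) (f N) (I.A 21 (.num i) (.num m) (.num D) (.num (nod g s₀ D i m))) := by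
  obtain ⟨c1, h1⟩ := horn2 (α₁ := I.A 20 (x 0) (x 2) (x 4) .zero)
    (α₂ := I.A 19 (x 1) (x 4) (x 3) .zero) (β := I.A 21 (x 0) (x 1) (x 2) (x 3))
    (fun e h1 h2 => by
      rw [I.satA (by simp [Al])] at h1 h2 ⊢
      have h1' : e 4 = sd g s₀ (e 2) (e 0) := h1
      obtain ⟨_, h2'⟩ : s₀ ≤ e 4 ∧ e 3 = g^[e 1] (e 4) := h2
      show e 3 = g^[e 1] (sd g s₀ (e 2) (e 0))
      rw [h2', h1'])
  obtain ⟨f, hf, h2⟩ := it_fact I hg hγ
  obtain ⟨f', hf', h3⟩ := sd_fact I hg hγ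
  refine ⟨fun N => c1 * (N + 1) + f N + f' N + c1, ?_, ?_⟩
  · exact ((((PB.const _).mul (PB.id.add (PB.const 1))).add hf).add hf').add (PB.const _)
  filter_upwards [h1, h2, h3] with B h1 h2 h3 N i m D hD ha
  set M := c1 * (N + 1) + f N + f' N + c1 with hM
  have haN := hg.sd_ge D i
  have hx : s₀ ≤ sd g s₀ D i := by omega
  have hit := hg.iter hx m
  have hle : sd g s₀ D i ≤ nod g s₀ D i m := hg.iter_le hx (Nat.zero_le m)
  have hnod : nod g s₀ D i m = g^[m] (sd g s₀ D i) := rfl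
  have he : ∀ k, as [i, m, D, nod g s₀ D i m, sd g s₀ D i] k ≤ N :=
    as_le (by
      simp only [List.forall_mem_cons, List.not_mem_nil, IsEmpty.forall_iff, implies_true,
        and_true]; omega)
  have q1 := h2 N m (sd g s₀ D i) hx (by omega)
  have q2 := h3 N i D hD (by omega)
  have := h1 _ N M (f' N) (f N) he (by omega)
    (by rw [I.clA (by simp [Al])]; exact q2.mono le_rfl (by omega))
    (by rw [I.clA (by simp [Al])]; exact q1.mono le_rfl (by omega))
  rw [I.clA (by simp [Al])] at this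
  exact this.mono (by omega) le_rfl

end Helper31Con

end

section

/-!
# Provable facts about codes
-/

namespace Helper31Con

open Function Filter Fm

variable {con : Fm} {g : ℕ → ℕ} {s₀ : ℕ}

/-- Square bound for `nd`. -/
def sq (M : ℕ) : ℕ := (2 * M + 1) * (2 * M + 1)

lemma le_sq (M : ℕ) : M ≤ sq M := by unfold sq; nlinarith

lemma sq_eb : EB sq :=
  (((EB.const 2).mul EB.id).add (EB.const 1)).mul (((EB.const 2).mul EB.id).add (EB.const 1))

lemma sq_iter_eb (k : ℕ) : EB (fun N => sq^[k] N) := by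
  induction k with
  | zero => exact EB.id
  | succ k ih =>
    have : EB (fun N => sq (sq^[k] N)) := sq_eb.comp ih
    refine this.of_le fun N => ?_
    rw [iterate_succ_apply']

lemma nd_le_it {a b k K : ℕ} (ha : a ≤ sq^[k] K) (hb : b ≤ sq^[k] K) : nd a b ≤ sq^[k + 1] K := by
  rw [iterate_succ_apply']
  exact nd_le ha hb

lemma it_le_it {k k' K : ℕ} (h : k ≤ k') : sq^[k] K ≤ sq^[k'] K := by
  induction h with
  | refl => exact le_rfl
  | step _ ih => rw [iterate_succ_apply']; exact ih.trans (le_sq _)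

lemma thc_le {b c v ξ K : ℕ} (h9 : 9 ≤ K) (hb : b ≤ K) (hc : tc (.num c) ≤ K)
    (hv : tc (.num v) ≤ K) (hξ : ξ ≤ K) : thc b c v ξ ≤ sq^[11] K := by
  have i : ∀ {a : ℕ} (k : ℕ), a ≤ K → a ≤ sq^[k] K := fun k h =>
    h.trans (it_le_it (k := 0) (Nat.zero_le k))
  have u1 : nd 0 b ≤ sq^[1] K := nd_le_it (i 0 (by omega)) (i 0 hb)
  have u2 : nd (nd 0 b) (tc (.num v)) ≤ sq^[2] K := nd_le_it u1 (i 1 hv)
  have u3 : nd 6 (nd (nd 0 b) (tc (.num v))) ≤ sq^[3] K := nd_le_it (i 2 (by omega)) u2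
  have u4 : nd (nd 6 (nd (nd 0 b) (tc (.num v)))) ξ ≤ sq^[4] K := nd_le_it u3 (i 3 hξ)
  have u5 := nd_le_it (i (a := 8) 4 (by omega)) u4
  have u6 := nd_le_it (i 5 hb) u5
  have u7 := nd_le_it (i (a := 9) 6 (by omega)) u6
  have w1 : nd 0 2 ≤ sq^[1] K := nd_le_it (i 0 (by omega)) (i 0 (by omega))
  have w2 : nd (nd 0 2) (tc (.num c)) ≤ sq^[2] K := nd_le_it w1 (i 1 hc)
  have w3 := nd_le_it (i (a := 6) 2 (by omega)) w2
  have u8 := nd_le_it (w3.trans (it_le_it (by omega : 3 ≤ 7))) u7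
  have u9 := nd_le_it (i (a := 8) 8 (by omega)) u8
  have u10 := nd_le_it (i (a := 2) 9 (by omega)) u9
  exact nd_le_it (i (a := 9) 10 (by omega)) u10

lemma tc_num_le {n N : ℕ} (h : n ≤ N) : tc (.num n) ≤ cb (N + 1) := by
  refine (tc_le_cb _).trans (cb_mono ?_)
  rw [Tm.len_num]; omega

/-- Bound for the values of `CdA`. -/
def Zb (N : ℕ) : ℕ := sq^[12] (cb (N + 1) + 4 * N + 18)

lemma Zb_eb : EB Zb := by
  have h1 : EB (fun N => cb (N + 1) + 4 * N + 18) :=
    ((cb_eb.comp (EB.id.add (EB.const 1))).add ((EB.const 4).mul EB.id)).add (EB.const 18)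
  exact (sq_iter_eb 12).comp h1

lemma cdA_le {m v c z N : ℕ} (h : CdA m v c z) (hm : m ≤ N) (hv : v ≤ N) (hc : c ≤ N) :
    z ≤ Zb N := by
  obtain ⟨lb, P, ξ, h1, ⟨l, φ, h2, h3, h4⟩, h5⟩ := h
  have hlb : lb < c := by rw [h1]; exact lt_nd_l _ _
  have hP : P < c := by rw [h1]; exact lt_nd_r _ _
  have hξ : ξ ≤ P := by
    rw [h4, h2]
    exact mem_le_lc (List.mem_of_getElem? h3)
  rw [h5]
  have hcb := le_cb (N + 1)
  refine nd_le_it (k := 11) (thc_le (by omega) (by unfold bv; omega) ?_ ?_ (by omega)) ?_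
  · have := tc_num_le hc; omega
  · have := tc_num_le hv; omega
  · exact (show lb ≤ cb (N + 1) + 4 * N + 18 by omega).trans (it_le_it (k := 0) (by omega))

lemma nu_fact (I : Iface (Rel con g s₀)) : ∃ f, EB f ∧ ∀ᶠ B in rich, ∀ N n, n ≤ N →
    Pr B (f N) (f N) (I.A 22 (.num n) (.num (tc (.num n))) .zero .zero) := by
  obtain ⟨c0, h0⟩ := horn1 (α := eq (x 0) (ndT (.num 1) .zero)) (β := I.A 22 .zero (x 0) .zero .zero)
    (fun e h => by
      rw [I.satA (by simp [Al])]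
      have h' : e 0 = nd 1 0 := by simpa [Fm.Sat, Tm.val] using h
      exact h')
  obtain ⟨c1, h1⟩ := horn2 (α₁ := I.A 22 (x 0) (x 1) .zero .zero)
    (α₂ := eq (x 2) (ndT (.num 2) (x 1))) (β := I.A 22 (.succ (x 0)) (x 2) .zero .zero)
    (fun e h1 h2 => by
      rw [I.satA (by simp [Al])] at h1 ⊢
      have h1' : e 1 = tc (.num (e 0)) := h1
      have h2' : e 2 = nd 2 (e 1) := by simpa [Fm.Sat, Tm.val] using h2
      show e 2 = tc (.num (e 0 + 1))
      rw [h2', h1']; rfl)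
  obtain ⟨f, hf, h2⟩ := eq_fact (x 2) (ndT (.num 2) (x 1))
  obtain ⟨f', hf', h3⟩ := eq_fact (x 0) (ndT (.num 1) .zero)
  set K : ℕ → ℕ := fun N => cb (N + 1) with hK
  have hKE : EB K := cb_eb.comp (EB.id.add (EB.const 1))
  refine ⟨fun N => (N + 1) * (c0 + c1 + f (K N) + f' (K N)) +
    ((c0 + c1) * (K N + 1) + f (K N) + f' (K N)), ?_, ?_⟩
  · have e1 : EB (fun N => f (K N)) := hf.eb.comp hKE
    have e2 : EB (fun N => f' (K N)) := hf'.eb.comp hKE
    exact ((EB.id.add (EB.const 1)).mul (((EB.const _).add e1).add e2)).add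
      ((((EB.const _).mul (hKE.add (EB.const 1))).add e1).add e2)
  filter_upwards [h0, h1, h2, h3] with B h0 h1 h2 h3 N a ha
  set M := (N + 1) * (c0 + c1 + f (K N) + f' (K N)) +
    ((c0 + c1) * (K N + 1) + f (K N) + f' (K N)) with hM
  have hKN : N + 1 ≤ K N := le_cb _
  have htc : ∀ i ≤ N, tc (.num i) ≤ K N := fun i hi => tc_num_le hi
  have key := chain (B := B) (P := fun i => I.A 22 (.num i) (.num (tc (.num i))) .zero .zero)
    (s := c0 + c1 + f (K N) + f' (K N)) (M := M) (a := a) ?_ ?_ a le_rfl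
  · refine key.mono ?_ le_rfl
    have : (a + 1) * (c0 + c1 + f (K N) + f' (K N)) ≤ (N + 1) * (c0 + c1 + f (K N) + f' (K N)) :=
      Nat.mul_le_mul_right _ (by omega)
    omega
  · have hb : nd 1 0 ≤ K N := htc 0 (by omega)
    have he : ∀ k, as [nd 1 0] k ≤ K N := as_le (by simpa using hb)
    have q := h3 _ (K N) he (by rw [val_ndT]; rfl)
    have := h0 _ (K N) M _ he (mulle (S := c0 + c1) (by omega) (by omega))
      (q.mono le_rfl (by omega))
    rw [I.clA (by simp [Al])] at this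
    exact this.mono (by omega) le_rfl
  · intro i hi n hn
    have he : ∀ k, as [i, tc (.num i), tc (.num (i + 1))] k ≤ K N := as_le (by
      simp only [List.forall_mem_cons, List.not_mem_nil, IsEmpty.forall_iff, implies_true,
        and_true]
      exact ⟨by omega, htc _ (by omega), htc _ (by omega)⟩)
    have q1 := h2 _ (K N) he (by rw [val_ndT]; rfl)
    have := h1 _ (K N) M n _ he (mulle (S := c0 + c1) (by omega) (by omega))
      (by rw [I.clA (by simp [Al])]; exact hn) (q1.mono le_rfl (by omega))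
    rw [I.clA (by simp [Al])] at this
    exact this.mono (by omega) le_rfl

lemma nth_fact (I : Iface (Rel con g s₀)) : ∃ f, EB f ∧ ∀ᶠ B in rich,
    ∀ (N : ℕ) (l : List Fm) (m : ℕ) (φ : Fm), lc l ≤ N → m ≤ N → l[m]? = some φ →
    Pr B (f N) (f N) (I.A 23 (.num (lc l)) (.num m) (.num (fc φ)) .zero) := by
  obtain ⟨c0, h0⟩ := horn2 (α₁ := I.A 10 (x 0) .zero .zero .zero)
    (α₂ := eq (x 0) (ndT (x 1) (x 2))) (β := I.A 23 (x 0) .zero (x 1) .zero)
    (fun e h h' => by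
      rw [I.satA (by simp [Al])] at h ⊢
      obtain ⟨l, hl⟩ : IsL (e 0) := h
      have h2 : e 0 = nd (e 1) (e 2) := by simpa [Fm.Sat, Tm.val] using h'
      cases l with
      | nil =>
        have := nd_pos (e 1) (e 2)
        have : e 0 = 0 := hl
        omega
      | cons φ l =>
        have h3 : nd (e 1) (e 2) = nd (fc φ) (lc l) := h2.symm.trans hl
        exact ⟨φ :: l, φ, hl, rfl, (nd_inj.mp h3).1⟩)
  obtain ⟨c1, h1⟩ := horn3 (α₁ := I.A 23 (x 0) (x 1) (x 2) .zero)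
    (α₂ := I.A 10 (x 3) .zero .zero .zero) (α₃ := eq (x 3) (ndT (x 4) (x 0)))
    (β := I.A 23 (x 3) (.succ (x 1)) (x 2) .zero)
    (fun e h1 h2 h3 => by
      rw [I.satA (by simp [Al])] at h1 h2 ⊢
      obtain ⟨l, φ, hl, hφ, hφ'⟩ : NthR (e 0) (e 1) (e 2) := h1
      obtain ⟨l', hl'⟩ : IsL (e 3) := h2
      have h3' : e 3 = nd (e 4) (e 0) := by simpa [Fm.Sat, Tm.val] using h3
      cases l' with
      | nil =>
        have := nd_pos (e 4) (e 0)
        have : e 3 = 0 := hl'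
        omega
      | cons ψ l' =>
        have h3 : nd (e 4) (e 0) = nd (fc ψ) (lc l') := h3'.symm.trans hl'
        have h4 : l' = l := lc_inj ((nd_inj.mp h3).2.symm.trans hl)
        subst h4
        refine ⟨ψ :: l', φ, hl', ?_, hφ'⟩
        show (ψ :: l')[e 1 + 1]? = some φ
        simpa using hφ)
  obtain ⟨f, hf, h2⟩ := eq_fact (x 0) (ndT (x 1) (x 2))
  obtain ⟨f', hf', h3⟩ := eq_fact (x 3) (ndT (x 4) (x 0))
  obtain ⟨f'', hf'', h4⟩ := dec_all I
  refine ⟨fun N => (N + 1) * (c0 + c1 + f N + f' N + f'' N) +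
    ((c0 + c1) * (N + 1) + f N + f' N + f'' N), ?_, ?_⟩
  · exact ((EB.id.add (EB.const 1)).mul ((((EB.const _).add hf.eb).add hf'.eb).add hf'')).add
      (((((EB.const _).mul (EB.id.add (EB.const 1))).add hf.eb).add hf'.eb).add hf'')
  filter_upwards [h0, h1, h2, h3, h4] with B h0 h1 h2 h3 h4 N
  set s := c0 + c1 + f N + f' N + f'' N with hs
  set M := (N + 1) * s + ((c0 + c1) * (N + 1) + f N + f' N + f'' N) with hM
  have key : ∀ (m : ℕ) (l : List Fm) (φ : Fm), lc l ≤ N → m ≤ N → l[m]? = some φ →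
      Pr B ((m + 1) * s) M (I.A 23 (.num (lc l)) (.num m) (.num (fc φ)) .zero) := by
    intro m
    induction m with
    | zero =>
      intro l φ hl hm hφ
      have hL := (h4 N 10 (by omega) (lc l) 0 0 0 hl (by omega) (by omega) (by omega)).1 ⟨l, rfl⟩
      cases l with
      | nil => simp at hφ
      | cons ψ l =>
        have hψ : ψ = φ := by simpa using hφ
        subst hψ
        have hb1 : fc ψ < lc (ψ :: l) := lt_nd_l _ _
        have hb2 : lc l < lc (ψ :: l) := lt_nd_r _ _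
        have he : ∀ k, as [lc (ψ :: l), fc ψ, lc l] k ≤ N := as_le (by
          simp only [List.forall_mem_cons, List.not_mem_nil, IsEmpty.forall_iff, implies_true,
            and_true]
          omega)
        have q := h2 _ N he (by rw [val_ndT]; rfl)
        have := h0 _ N M _ _ he (mulle (S := c0 + c1) (by omega) (by omega))
          (by rw [I.clA (by simp [Al])]; exact hL.mono le_rfl (by omega))
          (q.mono le_rfl (by omega))
        rw [I.clA (by simp [Al])] at this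
        exact this.mono (by omega) le_rfl
    | succ m ih =>
      intro l φ hl hm hφ
      have hL := (h4 N 10 (by omega) (lc l) 0 0 0 hl (by omega) (by omega) (by omega)).1 ⟨l, rfl⟩
      cases l with
      | nil => simp at hφ
      | cons ψ l =>
        have hψ : l[m]? = some φ := by simpa using hφ
        have hb1 : fc ψ < lc (ψ :: l) := lt_nd_l _ _
        have hb2 : lc l < lc (ψ :: l) := lt_nd_r _ _
        have hb3 : fc φ ≤ lc l := mem_le_lc (List.mem_of_getElem? hψ)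
        have he : ∀ k, as [lc l, m, fc φ, lc (ψ :: l), fc ψ] k ≤ N := as_le (by
          simp only [List.forall_mem_cons, List.not_mem_nil, IsEmpty.forall_iff, implies_true,
            and_true]
          omega)
        have q := h3 _ N he (by rw [val_ndT]; rfl)
        have q' := ih l φ (by omega) (by omega) hψ
        have := h1 _ N M _ _ _ he (mulle (S := c0 + c1) (by omega) (by omega))
          (by rw [I.clA (by simp [Al])]; exact q')
          (by rw [I.clA (by simp [Al])]; exact hL.mono le_rfl (by omega))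
          (q.mono le_rfl (by omega))
        rw [I.clA (by simp [Al])] at this
        refine this.mono ?_ le_rfl
        have : (m + 1 + 1) * s = (m + 1) * s + s := by ring
        omega
  intro l m φ hl hm hφ
  refine (key m l φ hl hm hφ).mono ?_ le_rfl
  have : (m + 1) * s ≤ (N + 1) * s := Nat.mul_le_mul_right _ (by omega)
  omega

/-- Term for `bv`. -/
def bvT : Tm := .add (.num 18) (.mul (.num 4) (x 0))

/-- Term for `thc`. -/
def thcT : Tm :=
  ndT (.num 9) (ndT (.num 2) (ndT (.num 8) (ndT (ndT (.num 6) (ndT (ndT (.num 0) (.num 2)) (x 7)))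
    (ndT (.num 9) (ndT bvT (ndT (.num 8) (ndT (ndT (.num 6) (ndT (ndT (.num 0) bvT) (x 8)))
      (x 6))))))))

lemma val_thcT (e : ℕ → ℕ) (h7 : e 7 = tc (.num (e 2))) (h8 : e 8 = tc (.num (e 1))) :
    thcT.val e = thc (bv (e 0)) (e 2) (e 1) (e 6) := by
  simp [thcT, thc, bvT, bv, Tm.val, h7, h8]

lemma cda_fact (I : Iface (Rel con g s₀)) : ∃ f, EB f ∧ ∀ᶠ B in rich,
    ∀ N m v c z, m ≤ N → v ≤ N → c ≤ N → CdA m v c z →
    Pr B (f N) (f N) (I.A 24 (.num m) (.num v) (.num c) (.num z)) := by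
  obtain ⟨c0, h0⟩ := horn5 (α₁ := eq (x 2) (ndT (x 4) (x 5))) (α₂ := I.A 23 (x 5) (x 0) (x 6) .zero)
    (α₃ := I.A 22 (x 2) (x 7) .zero .zero) (α₄ := I.A 22 (x 1) (x 8) .zero .zero)
    (α₅ := eq (x 3) (ndT thcT (x 4))) (β := I.A 24 (x 0) (x 1) (x 2) (x 3))
    (fun e h1 h2 h3 h4 h5 => by
      rw [I.satA (by simp [Al])] at h2 h3 h4 ⊢
      have h1' : e 2 = nd (e 4) (e 5) := by simpa [Fm.Sat, Tm.val] using h1
      have h2' : NthR (e 5) (e 0) (e 6) := h2
      have h3' : e 7 = tc (.num (e 2)) := h3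
      have h4' : e 8 = tc (.num (e 1)) := h4
      have h5' : e 3 = nd (thcT.val e) (e 4) := by simpa only [Fm.Sat, Tm.val, val_ndT] using h5
      rw [val_thcT e h3' h4'] at h5'
      exact ⟨e 4, e 5, e 6, h1', h2', h5'⟩)
  obtain ⟨f1, hf1, h1⟩ := eq_fact (x 2) (ndT (x 4) (x 5))
  obtain ⟨f2, hf2, h2⟩ := eq_fact (x 3) (ndT thcT (x 4))
  obtain ⟨f3, hf3, h3⟩ := nth_fact I
  obtain ⟨f4, hf4, h4⟩ := nu_fact I
  set K : ℕ → ℕ := fun N => Zb N + cb (N + 1) with hK
  have hKE : EB K := Zb_eb.add (cb_eb.comp (EB.id.add (EB.const 1)))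
  refine ⟨fun N => f1 (K N) + f2 (K N) + f3 N + f4 N + f4 N + c0 * (K N + 1) + c0, ?_, ?_⟩
  · exact ((((((hf1.eb.comp hKE).add (hf2.eb.comp hKE)).add hf3).add hf4).add hf4).add
      ((EB.const _).mul (hKE.add (EB.const 1)))).add (EB.const _)
  filter_upwards [h0, h1, h2, h3, h4] with B h0 h1 h2 h3 h4 N m v c z hm hv hc hz
  have hz' := cdA_le hz hm hv hc
  obtain ⟨lb, P, ξ, e1, ⟨l, φ, e2, e3, e4⟩, e5⟩ := hz
  have hlb : lb < c := by rw [e1]; exact lt_nd_l _ _
  have hP : P < c := by rw [e1]; exact lt_nd_r _ _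
  have hξ : ξ ≤ P := by
    rw [e4, e2]
    exact mem_le_lc (List.mem_of_getElem? e3)
  have hcb := le_cb (N + 1)
  have hKN : K N = Zb N + cb (N + 1) := rfl
  have htc : tc (.num c) ≤ cb (N + 1) := tc_num_le hc
  have htv : tc (.num v) ≤ cb (N + 1) := tc_num_le hv
  set e := as [m, v, c, z, lb, P, ξ, tc (.num c), tc (.num v)] with he'
  have he : ∀ k, e k ≤ K N := as_le (by
    simp only [List.forall_mem_cons, List.not_mem_nil, IsEmpty.forall_iff, implies_true,
      and_true]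
    omega)
  have q1 := h1 e (K N) he (by rw [val_ndT]; exact e1)
  have q2 := h2 e (K N) he (by
    rw [val_ndT, val_thcT e rfl rfl]
    exact e5)
  have q3 := h3 N l m φ (by rw [← e2]; omega) hm e3
  have q4 := h4 N c hc
  have q5 := h4 N v hv
  rw [← e2, ← e4] at q3
  set M := f1 (K N) + f2 (K N) + f3 N + f4 N + f4 N + c0 * (K N + 1) + c0 with hM
  have := h0 e (K N) M _ _ _ _ _ he (by omega) (q1.mono le_rfl (by omega))
    (by rw [I.clA (by simp [Al])]; exact q3.mono le_rfl (by omega))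
    (by rw [I.clA (by simp [Al])]; exact q4.mono le_rfl (by omega))
    (by rw [I.clA (by simp [Al])]; exact q5.mono le_rfl (by omega))
    (q2.mono le_rfl (by omega))
  rw [I.clA (by simp [Al])] at this
  exact this.mono (by omega) le_rfl

lemma len_sub_le (φ : Fm) (n : ℕ) : (φ.sub 0 (.num n)).len ≤ φ.len * (n + 1) := by
  rw [Fm.sub_eq_sb]
  refine Fm.len_sb_le (by omega) fun k _ => ?_
  by_cases hk : k = 0
  · subst hk; simp
  · rw [update_of_ne hk]; simp only [Tm.len]; nlinarith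

/-- Bound for the values of `CdT`. -/
def Tb (con : Fm) (N : ℕ) : ℕ :=
  sq^[3] (cb (con.len * (Zb N + 1)) + cb (Zb N + 1) + Zb N + fc con + 9)

lemma Tb_eb (con : Fm) : EB (Tb con) := by
  have h1 : EB (fun N => cb (con.len * (Zb N + 1)) + cb (Zb N + 1) + Zb N + fc con + 9) :=
    ((((cb_eb.comp ((EB.const _).mul (Zb_eb.add (EB.const 1)))).add
      (cb_eb.comp (Zb_eb.add (EB.const 1)))).add Zb_eb).add (EB.const _)).add (EB.const _)
  exact (sq_iter_eb 3).comp h1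

lemma cdT_le {m v c z N : ℕ} (h : CdT con m v c z) (hm : m ≤ N) (hv : v ≤ N) (hc : c ≤ N) :
    z ≤ Tb con N := by
  obtain ⟨z', h1, h2⟩ := h
  have h3 := cdA_le h1 hm hv hc
  have h4 : fc (con.sub 0 (.num z')) ≤ cb (con.len * (Zb N + 1)) := by
    refine (fc_le_cb _).trans (cb_mono ((len_sub_le _ _).trans ?_))
    exact Nat.mul_le_mul_left _ (by omega)
  rw [h2]
  set K := cb (con.len * (Zb N + 1)) + cb (Zb N + 1) + Zb N + fc con + 9 with hK
  have i : ∀ {a : ℕ} (k : ℕ), a ≤ K → a ≤ sq^[k] K := fun k h =>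
    h.trans (it_le_it (k := 0) (Nat.zero_le k))
  have u1 : nd 1 (fc (con.sub 0 (.num z'))) ≤ sq^[1] K := nd_le_it (i 0 (by omega)) (i 0 (by omega))
  have u2 := nd_le_it (i (a := 9) 1 (by omega)) u1
  exact nd_le_it u2 (i 2 (by omega))

lemma cdt_fact (I : Iface (Rel con g s₀)) : ∃ f, EB f ∧ ∀ᶠ B in rich,
    ∀ N m v c z, m ≤ N → v ≤ N → c ≤ N → CdT con m v c z →
    Pr B (f N) (f N) (I.A 25 (.num m) (.num v) (.num c) (.num z)) := by
  obtain ⟨c0, h0⟩ := horn4 (α₁ := I.A 24 (x 0) (x 1) (x 2) (x 4))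
    (α₂ := I.A 22 (x 4) (x 5) .zero .zero)
    (α₃ := I.A 5 (.num (fc con)) .zero (x 5) (x 6))
    (α₄ := eq (x 3) (ndT (ndT (.num 9) (ndT (.num 1) (x 6))) (x 4)))
    (β := I.A 25 (x 0) (x 1) (x 2) (x 3))
    (fun e h1 h2 h3 h4 => by
      rw [I.satA (by simp [Al])] at h1 h2 h3 ⊢
      have h1' : CdA (e 0) (e 1) (e 2) (e 4) := h1
      have h2' : e 5 = tc (.num (e 4)) := h2
      obtain ⟨φ, r, k1, k2, k3⟩ : SbF ((Tm.num (fc con)).val e) 0 (e 5) (e 6) := h3
      rw [Tm.val_num] at k1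
      obtain rfl := fc_inj k1
      obtain rfl := tc_inj (h2'.symm.trans k2)
      have h4' : e 3 = nd (nd 9 (nd 1 (e 6))) (e 4) := by simpa [Fm.Sat, Tm.val] using h4
      refine ⟨e 4, h1', ?_⟩
      show e 3 = _
      rw [h4', k3]; rfl)
  obtain ⟨f1, hf1, h1⟩ := cda_fact I
  obtain ⟨f2, hf2, h2⟩ := nu_fact I
  obtain ⟨f3, hf3, h3⟩ := dec_all I
  obtain ⟨f4, hf4, h4⟩ := eq_fact (x 3) (ndT (ndT (.num 9) (ndT (.num 1) (x 6))) (x 4))
  set K : ℕ → ℕ := fun N => Tb con N + N with hK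
  have hKE : EB K := (Tb_eb con).add EB.id
  refine ⟨fun N => f1 N + f2 (Zb N) + f3 (K N) + f4 (K N) + c0 * (K N + 1) + c0, ?_, ?_⟩
  · exact ((((hf1.add (hf2.comp Zb_eb)).add (hf3.comp hKE)).add (hf4.eb.comp hKE)).add
      ((EB.const _).mul (hKE.add (EB.const 1)))).add (EB.const _)
  filter_upwards [h0, h1, h2, h3, h4] with B h0 h1 h2 h3 h4 N m v c z hm hv hc hz
  have hz' := cdT_le hz hm hv hc
  obtain ⟨z', e1, e2⟩ := hz
  have hz'' := cdA_le e1 hm hv hc
  have hb : cb (con.len * (Zb N + 1)) + cb (Zb N + 1) + Zb N + fc con + 9 ≤ Tb con N :=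
    it_le_it (k := 0) (Nat.zero_le 3)
  have hy : fc (con.sub 0 (.num z')) ≤ cb (con.len * (Zb N + 1)) := by
    refine (fc_le_cb _).trans (cb_mono ((len_sub_le _ _).trans ?_))
    exact Nat.mul_le_mul_left _ (by omega)
  have htc : tc (.num z') ≤ cb (Zb N + 1) := tc_num_le hz''
  have hKN : K N = Tb con N + N := rfl
  set e := as [m, v, c, z, z', tc (.num z'), fc (con.sub 0 (.num z'))] with he'
  have he : ∀ k, e k ≤ K N := as_le (by
    simp only [List.forall_mem_cons, List.not_mem_nil, IsEmpty.forall_iff, implies_true,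
      and_true]
    omega)
  have q1 := h1 N m v c z' hm hv hc e1
  have q2 := h2 (Zb N) z' hz''
  have q3 := (h3 (K N) 5 (by omega) (fc con) 0 (tc (.num z')) (fc (con.sub 0 (.num z')))
    (by omega) (by omega) (by omega) (by omega)).1 ⟨con, .num z', rfl, rfl, rfl⟩
  have q4 := h4 e (K N) he (by
    simp only [val_ndT, Tm.val_num]
    exact e2)
  set M := f1 N + f2 (Zb N) + f3 (K N) + f4 (K N) + c0 * (K N + 1) + c0 with hM
  have e3 : (Tm.num (fc con)).cl e = Tm.num (fc con) := Tm.sb_num _ _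
  have := h0 e (K N) M _ _ _ _ he (by omega)
    (by rw [I.clA (by simp [Al])]; exact q1.mono le_rfl (by omega))
    (by rw [I.clA (by simp [Al])]; exact q2.mono le_rfl (by omega))
    (by rw [I.clA (by simp [Al]), e3]; exact q3.mono le_rfl (by omega))
    (q4.mono le_rfl (by omega))
  rw [I.clA (by simp [Al])] at this
  exact this.mono (by omega) le_rfl

/-! ### Facts about the consistency formula -/

lemma nr_of_not_prov {T : List Fm} {n w : ℕ} (h : ¬ Prov T n .bot) : NR w (lc T) n := by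
  rintro p _ m hm ⟨⟨l, t, h1, h2, h3⟩, ⟨l', h4, h5⟩, q, _, h6⟩
  obtain rfl := lc_inj h2
  obtain rfl := lc_inj (h1.symm.trans h4)
  cases l with
  | nil =>
    have := nd_pos (nd 5 0) q
    have : p = 0 := h1
    omega
  | cons φ l =>
    have h7 : nd (nd 5 0) q = nd (fc φ) (lc l) := h6.symm.trans h1
    have h8 : fc Fm.bot = fc φ := (nd_inj.mp h7).1
    obtain rfl := fc_inj h8
    exact h ⟨l, h3, by omega⟩

lemma not_prov_of_nr {T : List Fm} {n w : ℕ} (hw : lb n ≤ w) (h : NR w (lc T) n) :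
    ¬ Prov T n .bot := by
  rintro ⟨L, h1, h2⟩
  have hle : lc (.bot :: L) ≤ w := (lc_le_lb _).trans ((lb_mono h2).trans hw)
  refine h (lc (.bot :: L)) hle (plen (.bot :: L)) h2 ⟨⟨_, T, rfl, rfl, h1⟩, ⟨_, rfl, rfl⟩,
    lc L, ?_, rfl⟩
  exact (lt_nd_r _ _).le

lemma con_fact (I : Iface (Rel con g s₀)) (hcon : IsCon con) : ∃ f, EB f ∧ ∀ᶠ B in rich,
    ∀ (N : ℕ) (T : List Fm) (n : ℕ), (∀ φ ∈ T, Fm.Sentence φ) → lc T ≤ N → n ≤ N →
    ¬ Prov T n .bot → Pr B (f N) (f N) (con.cl (as [lc T, n])) := by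
  obtain ⟨c0, h0⟩ := horn5 (α₁ := I.A 15 (x 2) (x 0) (x 1) .zero)
    (α₂ := I.A 11 (x 0) .zero .zero .zero) (α₃ := I.A 16 (x 3) (x 2) .zero .zero)
    (α₄ := I.A 16 (x 4) (x 3) .zero .zero)
    (α₅ := eq (x 4) (.add (.mul (.num 4) (x 1)) (.num 8))) (β := con)
    (fun e h1 h2 h3 h4 h5 => by
      rw [I.satA (by simp [Al])] at h1 h2 h3 h4
      have h1' : NR (e 2) (e 0) (e 1) := h1
      obtain ⟨T, hT, hS⟩ : LSR (e 0) := h2
      have h3' : e 2 = 2 ^ e 3 := h3
      have h4' : e 3 = 2 ^ e 4 := h4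
      have h5' : e 4 = 4 * e 1 + 8 := by simpa [Fm.Sat, Tm.val] using h5
      rw [hcon.sat T e hS hT]
      rw [hT] at h1'
      refine not_prov_of_nr ?_ h1'
      rw [h3', h4', h5']; exact le_rfl)
  obtain ⟨f1, hf1, h1⟩ := dec_all I
  obtain ⟨f2, hf2, h2⟩ := ex2_fact I
  obtain ⟨f3, hf3, h3⟩ := eq_fact (x 4) (.add (.mul (.num 4) (x 1)) (.num 8))
  set K : ℕ → ℕ := fun N => lb N + N with hK
  have hKE : EB K := lb_eb.add EB.id
  refine ⟨fun N => 2 * f1 (K N) + 2 * f2 (K N) + f3 (K N) + c0 * (K N + 1) + c0, ?_, ?_⟩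
  · exact (((((EB.const 2).mul (hf1.comp hKE)).add ((EB.const 2).mul (hf2.eb.comp hKE))).add
      (hf3.eb.comp hKE)).add ((EB.const _).mul (hKE.add (EB.const 1)))).add (EB.const _)
  filter_upwards [h0, h1, h2, h3] with B h0 h1 h2 h3 N T n hT hTN hn hcons
  have hKN : K N = lb N + N := rfl
  have hlb : lb n ≤ lb N := lb_mono hn
  have hlb' : lb n = 2 ^ (2 ^ (4 * n + 8)) := rfl
  have e1 : 2 ^ (4 * n + 8) < lb n := Nat.lt_two_pow_self
  have e2 : 4 * n + 8 < 2 ^ (4 * n + 8) := Nat.lt_two_pow_self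
  set e := as [lc T, n, lb n, 2 ^ (4 * n + 8), 4 * n + 8] with he'
  have he : ∀ k, e k ≤ K N := as_le (by
    simp only [List.forall_mem_cons, List.not_mem_nil, IsEmpty.forall_iff, implies_true,
      and_true]
    omega)
  have q1 := (h1 (K N) 15 (by omega) (lb n) (lc T) n 0
    (by omega) (by omega) (by omega) (by omega)).1 (nr_of_not_prov hcons)
  have q2 := (h1 (K N) 11 (by omega) (lc T) 0 0 0
    (by omega) (by omega) (by omega) (by omega)).1 ⟨T, rfl, hT⟩
  have q3 := h2 (K N) (2 ^ (4 * n + 8)) (by show lb n ≤ K N; omega)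
  have q4 := h2 (K N) (4 * n + 8) (by omega)
  have q5 := h3 e (K N) he (by
    show 4 * n + 8 = (Tm.num 4).val e * n + (Tm.num 8).val e
    simp)
  set M := 2 * f1 (K N) + 2 * f2 (K N) + f3 (K N) + c0 * (K N + 1) + c0 with hM
  have := h0 e (K N) M _ _ _ _ _ he (by omega)
    (by rw [I.clA (by simp [Al])]; exact q1.mono le_rfl (by omega))
    (by rw [I.clA (by simp [Al])]; exact q2.mono le_rfl (by omega))
    (by rw [I.clA (by simp [Al])]; exact q3.mono le_rfl (by omega))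
    (by rw [I.clA (by simp [Al])]; exact q4.mono le_rfl (by omega))
    (q5.mono le_rfl (by omega))
  have e3 : con.cl e = con.cl (as [lc T, n]) := by
    refine Fm.cl_congr fun k hk => ?_
    have := hcon.free k hk
    interval_cases k <;> rfl
  rw [e3] at this
  exact this.mono (by omega) le_rfl

end Helper31Con

end

section

/-!
# Definability of the family of relations
-/

namespace Helper31Con

open Function Filter BF

variable {con : Fm} {g : ℕ → ℕ} {s₀ : ℕ}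

/-- `b = 2 ^ a` -/
def ψ16 : BF := ((eq (x 0) (Tm.num 0)).and (eq (x 1) (Tm.num 1))).or
  (bex 4 0 (bex 5 1 ((eq (x 0) (.succ (x 4))).and ((eq (x 1) (.add (x 5) (x 5))).and
    (slf 4 5 2 3)))))

lemma ψ16_ok : ψ16.Ok 16 := by simp [ψ16, Ok]

lemma ψ16_iff (e : ℕ → ℕ) : Rel con g s₀ 16 (e 0) (e 1) (e 2) (e 3) ↔
    ψ16.ev (Rel con g s₀) (Rel con g s₀ 16) e := by
  simp (disch := decide) only [ψ16, ev_bex, ev_and, ev_or, ev_eq, ev_slf,
    Tm.val, update_self, update_of_ne, Tm.val_num, Rel]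
  constructor
  · intro h
    cases h0 : e 0 with
    | zero => left; rw [h0] at h; exact ⟨rfl, by simpa using h⟩
    | succ n =>
      right
      rw [h0] at h
      refine ⟨n, by omega, 2 ^ n, ?_, by omega, ?_, by omega, rfl⟩
      · rw [h]; exact Nat.pow_le_pow_right (by omega) (by omega)
      · rw [h]; ring
  · rintro (⟨h, h'⟩ | ⟨n, _, y, _, h1, h2, _, h3⟩)
    · rw [h, h']; rfl
    · rw [h1, h2, h3]; ring

/-- `c = tw a b` -/
def ψ17 : BF := ((eq (x 0) (Tm.num 0)).and (eq (x 2) (x 1))).or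
  (bex 4 0 (bex 5 2 ((eq (x 0) (.succ (x 4))).and ((slf 4 1 5 3).and (rel 16 5 2 2 3)))))

lemma ψ17_ok : ψ17.Ok 17 := by simp [ψ17, Ok]

lemma ψ17_iff (e : ℕ → ℕ) : Rel con g s₀ 17 (e 0) (e 1) (e 2) (e 3) ↔
    ψ17.ev (Rel con g s₀) (Rel con g s₀ 17) e := by
  simp (disch := decide) only [ψ17, ev_bex, ev_and, ev_or, ev_eq, ev_slf, ev_rel,
    Tm.val, update_self, update_of_ne, Tm.val_num, Rel]
  constructor
  · intro h
    cases h0 : e 0 with
    | zero => left; rw [h0] at h; exact ⟨rfl, h⟩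
    | succ n =>
      right
      rw [h0] at h
      refine ⟨n, by omega, tw n (e 1), ?_, by omega, ⟨by omega, rfl⟩, h⟩
      rw [h]; exact tw_le_tw (by omega) _
  · rintro (⟨h, h'⟩ | ⟨n, _, y, _, h1, ⟨_, h2⟩, h3⟩)
    · rw [h, h']; rfl
    · rw [h1, h3, h2]; rfl

/-- `s₀ ≤ b ∧ c = g^[a] b` -/
def ψ19 (s₀ : ℕ) : BF := ((eq (x 0) (Tm.num 0)).and ((le (Tm.num s₀) (x 1)).and
    (eq (x 2) (x 1)))).or
  (bex 4 0 (bex 5 2 ((eq (x 0) (.succ (x 4))).and ((slf 4 1 5 3).and (rel 18 5 2 2 3)))))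

lemma ψ19_ok (s₀ : ℕ) : (ψ19 s₀).Ok 19 := by simp [ψ19, Ok]

lemma ψ19_iff (hg : Good g s₀) (e : ℕ → ℕ) : Rel con g s₀ 19 (e 0) (e 1) (e 2) (e 3) ↔
    (ψ19 s₀).ev (Rel con g s₀) (Rel con g s₀ 19) e := by
  simp (disch := decide) only [ψ19, ev_bex, ev_and, ev_or, ev_eq, ev_le, ev_slf, ev_rel,
    Tm.val, update_self, update_of_ne, Tm.val_num, Rel]
  constructor
  · rintro ⟨hs, h⟩
    cases h0 : e 0 with
    | zero => left; rw [h0] at h; exact ⟨rfl, hs, h⟩
    | succ n =>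
      right
      rw [h0, iterate_succ_apply'] at h
      refine ⟨n, by omega, g^[n] (e 1), ?_, by omega, ⟨by omega, hs, rfl⟩, h⟩
      rw [h]
      have h1 := hg.iter hs n
      exact (hg.lt _ (by omega)).le
  · rintro (⟨h, hs, h'⟩ | ⟨n, _, y, _, h1, ⟨_, hs, h2⟩, h3⟩)
    · rw [h, h']; exact ⟨hs, rfl⟩
    · refine ⟨hs, ?_⟩
      rw [h1, iterate_succ_apply', h3, h2]

/-- `c = sd g s₀ b a` -/
def ψ20 (s₀ : ℕ) : BF := ((eq (x 0) (Tm.num 0)).and (eq (x 2) (Tm.num s₀))).or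
  (bex 4 0 (bex 5 2 (bex 6 2 ((eq (x 0) (.succ (x 4))).and ((slf 4 1 5 3).and
    ((rel 19 1 5 6 3).and (rel 17 6 6 2 3)))))))

lemma ψ20_ok (s₀ : ℕ) : (ψ20 s₀).Ok 20 := by simp [ψ20, Ok]

lemma ψ20_iff (hg : Good g s₀) (e : ℕ → ℕ) : Rel con g s₀ 20 (e 0) (e 1) (e 2) (e 3) ↔
    (ψ20 s₀).ev (Rel con g s₀) (Rel con g s₀ 20) e := by
  simp (disch := decide) only [ψ20, ev_bex, ev_and, ev_or, ev_eq, ev_slf, ev_rel,
    Tm.val, update_self, update_of_ne, Tm.val_num, Rel]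
  constructor
  · intro h
    cases h0 : e 0 with
    | zero => left; rw [h0] at h; exact ⟨rfl, h⟩
    | succ n =>
      right
      rw [h0] at h
      have h1 := hg.sd_ge (e 1) n
      have h2 : g^[e 1] (sd g s₀ (e 1) n) ≤ sd g s₀ (e 1) (n + 1) := hg.sd_succ_ge _ _
      have h3 := hg.iter (x := sd g s₀ (e 1) n) (by omega) (e 1)
      refine ⟨n, by omega, sd g s₀ (e 1) n, ?_, g^[e 1] (sd g s₀ (e 1) n), ?_, by omega,
        ⟨by omega, rfl⟩, ⟨by omega, rfl⟩, h⟩
      · rw [h]; omega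
      · rw [h]; omega
  · rintro (⟨h, h'⟩ | ⟨n, _, y, _, z, _, h1, ⟨_, h2⟩, ⟨_, h3⟩, h4⟩)
    · rw [h, h']; rfl
    · rw [h1, h4, h3, h2]; rfl

/-- `b = tc (num a)` -/
def ψ22 : BF := ((eq (x 0) (Tm.num 0)).and (eq (x 1) (ndT (Tm.num 1) (Tm.num 0)))).or
  (bex 4 0 (bex 5 1 ((eq (x 0) (.succ (x 4))).and ((eq (x 1) (ndT (Tm.num 2) (x 5))).and
    (slf 4 5 2 3)))))

lemma ψ22_ok : ψ22.Ok 22 := by simp [ψ22, Ok]

lemma ψ22_iff (e : ℕ → ℕ) : Rel con g s₀ 22 (e 0) (e 1) (e 2) (e 3) ↔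
    ψ22.ev (Rel con g s₀) (Rel con g s₀ 22) e := by
  simp (disch := decide) only [ψ22, ev_bex, ev_and, ev_or, ev_eq, ev_slf,
    Tm.val, update_self, update_of_ne, Tm.val_num, val_ndT, Rel]
  constructor
  · intro h
    cases h0 : e 0 with
    | zero => left; rw [h0] at h; exact ⟨rfl, h⟩
    | succ n =>
      right
      rw [h0] at h
      have h' : e 1 = nd 2 (tc (.num n)) := h
      refine ⟨n, by omega, tc (.num n), ?_, by omega, h', by omega, rfl⟩
      rw [h']; exact (lt_nd_r _ _).le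
  · rintro (⟨h, h'⟩ | ⟨n, _, y, _, h1, h2, _, h3⟩)
    · rw [h, h']; rfl
    · rw [h1, h2, h3]; rfl

/-- `NthR` -/
def ψ23 : BF := mp 0 4 5 ((rel 1 4 1 2 3).and
  (((eq (x 1) (Tm.num 0)).and ((eq (x 2) (x 4)).and (rel 10 5 1 2 3))).or
  (bex 6 1 ((eq (x 1) (.succ (x 6))).and (slf 5 6 2 3)))))

lemma ψ23_ok : ψ23.Ok 23 := by simp [ψ23, Ok]

lemma ψ23_iff (e : ℕ → ℕ) : Rel con g s₀ 23 (e 0) (e 1) (e 2) (e 3) ↔
    ψ23.ev (Rel con g s₀) (Rel con g s₀ 23) e := by
  simp (disch := decide) only [ψ23, mp_ev, ev_bex, ev_and, ev_or, ev_eq, ev_slf, ev_rel,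
    Tm.val, update_self, update_of_ne, Tm.val_num, Rel]
  constructor
  · rintro ⟨l, φ, h1, h2, h3⟩
    rw [h1]
    cases l with
    | nil => simp at h2
    | cons ψ l =>
      refine ⟨fc ψ, lc l, rfl, ⟨ψ, rfl⟩, ?_⟩
      cases h0 : e 1 with
      | zero =>
        rw [h0] at h2
        have : ψ = φ := by simpa using h2
        exact Or.inl ⟨rfl, by rw [h3, this], l, rfl⟩
      | succ n =>
        rw [h0] at h2
        exact Or.inr ⟨n, by omega, by omega, by simp [lc], l, φ, rfl, by simpa using h2, h3⟩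
  · rintro ⟨_, _, h, ⟨ψ, rfl⟩, ⟨h1, h2, l, rfl⟩ | ⟨n, _, h1, _, l, φ, rfl, h2, h3⟩⟩
    · exact ⟨ψ :: l, ψ, h, by rw [h1]; rfl, h2⟩
    · exact ⟨ψ :: l, φ, h, by rw [h1]; simpa using h2, h3⟩

/-- `CdA` -/
def ψ24 : BF := mp 2 4 5 (bex 6 5 (bex 7 3 (bex 8 3 ((rel 23 5 0 6 3).and
  ((rel 22 2 7 1 3).and ((rel 22 1 8 1 3).and (eq (x 3) (ndT thcT (x 4)))))))))

lemma ψ24_ok : ψ24.Ok 24 := by simp [ψ24, Ok]

lemma tc_le_thc (b c v ξ : ℕ) : tc (.num c) ≤ thc b c v ξ ∧ tc (.num v) ≤ thc b c v ξ := by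
  unfold thc
  refine ⟨?_, ?_⟩
  · exact le_nd_r _ (le_nd_r _ (le_nd_r _ (le_nd_l _ (le_nd_r _ (le_nd_r _ le_rfl)))))
  · exact le_nd_r _ (le_nd_r _ (le_nd_r _ (le_nd_r _ (le_nd_r _ (le_nd_r _ (le_nd_r _
      (le_nd_l _ (le_nd_r _ (le_nd_r _ le_rfl)))))))))

lemma ψ24_iff (e : ℕ → ℕ) : Rel con g s₀ 24 (e 0) (e 1) (e 2) (e 3) ↔
    ψ24.ev (Rel con g s₀) (Rel con g s₀ 24) e := by
  have key : ∀ a b y c d, thcT.val (update (update (update (update (update e 4 a) 5 b) 6 y)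
      7 c) 8 d) = thcT.val (as [e 0, e 1, e 2, 0, 0, 0, y, c, d]) := by
    intro a b y c d
    simp (disch := decide) only [thcT, bvT, val_ndT, Tm.val, Tm.val_num, update_self, update_of_ne]
    rfl
  simp (disch := decide) only [ψ24, mp_ev, ev_bex, ev_and, ev_eq, ev_rel,
    Tm.val, update_self, update_of_ne, val_ndT, key, Rel]
  constructor
  · rintro ⟨lb, P, ξ, h1, h2, h3⟩
    obtain ⟨t1, t2⟩ := tc_le_thc (bv (e 0)) (e 2) (e 1) ξ
    refine ⟨lb, P, h1, ξ, ?_, tc (.num (e 2)), ?_, tc (.num (e 1)), ?_, h2, rfl, rfl, ?_⟩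
    · obtain ⟨l, φ, k1, k2, k3⟩ := h2
      rw [k1, k3]; exact mem_le_lc (List.mem_of_getElem? k2)
    · rw [h3]; exact le_nd_l _ t1
    · rw [h3]; exact le_nd_l _ t2
    · rw [val_thcT _ rfl rfl]; exact h3
  · rintro ⟨lb, P, h1, ξ, _, c, _, d, _, h2, h3, h4, h5⟩
    refine ⟨lb, P, ξ, h1, h2, ?_⟩
    rw [h3, h4, val_thcT _ rfl rfl] at h5
    exact h5

lemma d4_syn {i : ℕ} (hi : i < 16) : D4 (Rel con g s₀ i) := by
  induction i using Nat.strong_induction_on with
  | _ i ih =>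
    exact dfn_rec (fun j hj => ih j hj (by omega)) (psi_ok hi) (psi_iff hi)

lemma d4_all {γ : Fm} (hγ : ∀ e : ℕ → ℕ, γ.Sat e ↔ e 1 = g (e 0)) (hg : Good g s₀) (i : ℕ) :
    D4 (Rel con g s₀ i) := by
  have h0 : ∀ j < 16, D4 (Rel con g s₀ j) := fun j hj => d4_syn hj
  have h16 : D4 (Rel con g s₀ 16) := dfn_rec h0 ψ16_ok ψ16_iff
  have h17 : D4 (Rel con g s₀ 17) := dfn_rec (fun j hj => by
    rcases Nat.lt_succ_iff_lt_or_eq.mp hj with h | rfl
    · exact h0 j h
    · exact h16) ψ17_ok ψ17_iff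
  have h18 : D4 (Rel con g s₀ 18) := ⟨γ, fun e => hγ e⟩
  have h19 : D4 (Rel con g s₀ 19) := dfn_rec (fun j hj => by
    rcases lt_or_ge j 16 with h | h
    · exact h0 j h
    · interval_cases j
      · exact h16
      · exact h17
      · exact h18) (ψ19_ok s₀) (ψ19_iff hg)
  have h20 : D4 (Rel con g s₀ 20) := dfn_rec (fun j hj => by
    rcases lt_or_ge j 16 with h | h
    · exact h0 j h
    · interval_cases j
      · exact h16
      · exact h17
      · exact h18
      · exact h19) (ψ20_ok s₀) (ψ20_iff hg)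
  have h21 : D4 (Rel con g s₀ 21) := by
    have key := ((h20.app (x 0) (x 2) (x 4) (x 4)).and (h19.app (x 1) (x 4) (x 3) (x 3))).ex 4
    refine key.congr fun e => ?_
    simp (disch := decide) only [Tm.val, update_self, update_of_ne, Rel]
    constructor
    · rintro ⟨s, h1, _, h2⟩
      rw [h2, h1]; rfl
    · intro h
      exact ⟨sd g s₀ (e 2) (e 0), rfl, (Nat.le_add_right _ _).trans (hg.sd_ge _ _), h⟩
  have h22 : D4 (Rel con g s₀ 22) := dfn_rec (fun j hj => by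
    rcases lt_or_ge j 16 with h | h
    · exact h0 j h
    · interval_cases j
      · exact h16
      · exact h17
      · exact h18
      · exact h19
      · exact h20
      · exact h21) ψ22_ok ψ22_iff
  have h23 : D4 (Rel con g s₀ 23) := dfn_rec (fun j hj => by
    rcases lt_or_ge j 16 with h | h
    · exact h0 j h
    · interval_cases j
      · exact h16
      · exact h17
      · exact h18
      · exact h19
      · exact h20
      · exact h21
      · exact h22) ψ23_ok ψ23_iff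
  have h24 : D4 (Rel con g s₀ 24) := dfn_rec (fun j hj => by
    rcases lt_or_ge j 16 with h | h
    · exact h0 j h
    · interval_cases j
      · exact h16
      · exact h17
      · exact h18
      · exact h19
      · exact h20
      · exact h21
      · exact h22
      · exact h23) ψ24_ok ψ24_iff
  have h25 : D4 (Rel con g s₀ 25) := by
    have key := ((((h24.app (x 0) (x 1) (x 2) (x 4)).and ((h22.app (x 4) (x 5) (x 4) (x 4)).and
      (((h0 5 (by omega)).app (Tm.num (fc con)) .zero (x 5) (x 6)).and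
      (Dfn.eq (x 3) (ndT (ndT (Tm.num 9) (ndT (Tm.num 1) (x 6))) (x 4)))))).ex 6).ex 5).ex 4
    refine key.congr fun e => ?_
    simp (disch := decide) only [Tm.val, update_self, update_of_ne, Rel, Tm.val_num, val_ndT]
    constructor
    · rintro ⟨z', r, y, h1, h2, ⟨φ, r', k1, k2, k3⟩, h3⟩
      obtain rfl := fc_inj k1
      obtain rfl := tc_inj (h2.symm.trans k2)
      refine ⟨z', h1, ?_⟩
      rw [h3, k3]; rfl
    · rintro ⟨z', h1, h2⟩
      exact ⟨z', tc (.num z'), fc (con.sub 0 (.num z')), h1, rfl, ⟨con, .num z', rfl, rfl, rfl⟩,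
        h2⟩
  match i with
  | 0 | 1 | 2 | 3 | 4 | 5 | 6 | 7 | 8 | 9 | 10 | 11 | 12 | 13 | 14 | 15 => exact h0 _ (by omega)
  | 16 => exact h16
  | 17 => exact h17
  | 18 => exact h18
  | 19 => exact h19
  | 20 => exact h20
  | 21 => exact h21
  | 22 => exact h22
  | 23 => exact h23
  | 24 => exact h24
  | 25 => exact h25
  | n + 26 => exact Dfn.false'

/-! ### The interface -/

/-- `x_k` occurs bound in the formula. -/
def Fm.Bd (k : ℕ) : Fm → Prop
  | .bot => False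
  | .eq _ _ => False
  | .le _ _ => False
  | .imp φ ψ => φ.Bd k ∨ ψ.Bd k
  | .all j φ => j = k ∨ φ.Bd k

lemma freeFor_of {φ : Fm} {j : ℕ} {t : Tm} (h : ∀ k, φ.Bd k → ¬ t.Has k) : φ.FreeFor j t := by
  induction φ with
  | bot => trivial
  | eq t s => trivial
  | le t s => trivial
  | imp φ ψ ih1 ih2 => exact ⟨ih1 fun k hk => h k (Or.inl hk), ih2 fun k hk => h k (Or.inr hk)⟩
  | all i φ ih => exact Or.inr (Or.inr ⟨h i (Or.inl rfl), ih fun k hk => h k (Or.inr hk)⟩)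

lemma has_sub {s : Tm} {j : ℕ} {t : Tm} {k : ℕ} (h : (s.sub j t).Has k) :
    (s.Has k ∧ k ≠ j) ∨ t.Has k := by
  induction s with
  | var i =>
    by_cases hij : i = j
    · simp only [Tm.sub, if_pos hij] at h; exact Or.inr h
    · simp only [Tm.sub, if_neg hij, Tm.Has] at h
      exact Or.inl ⟨h, by omega⟩
  | zero => exact absurd h (by simp [Tm.sub, Tm.Has])
  | succ s ih => exact ih h
  | add s r ih1 ih2 =>
    rcases h with h | h
    · rcases ih1 h with h | h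
      · exact Or.inl ⟨Or.inl h.1, h.2⟩
      · exact Or.inr h
    · rcases ih2 h with h | h
      · exact Or.inl ⟨Or.inr h.1, h.2⟩
      · exact Or.inr h
  | mul s r ih1 ih2 =>
    rcases h with h | h
    · rcases ih1 h with h | h
      · exact Or.inl ⟨Or.inl h.1, h.2⟩
      · exact Or.inr h
    · rcases ih2 h with h | h
      · exact Or.inl ⟨Or.inr h.1, h.2⟩
      · exact Or.inr h

lemma free_sub {φ : Fm} {j : ℕ} {t : Tm} {k : ℕ} (h : (φ.sub j t).Free k) :
    (φ.Free k ∧ k ≠ j) ∨ t.Has k := by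
  induction φ with
  | bot => exact absurd h (by simp [Fm.sub, Fm.Free])
  | eq s r =>
    rcases h with h | h
    · rcases has_sub h with h | h
      · exact Or.inl ⟨Or.inl h.1, h.2⟩
      · exact Or.inr h
    · rcases has_sub h with h | h
      · exact Or.inl ⟨Or.inr h.1, h.2⟩
      · exact Or.inr h
  | le s r =>
    rcases h with h | h
    · rcases has_sub h with h | h
      · exact Or.inl ⟨Or.inl h.1, h.2⟩
      · exact Or.inr h
    · rcases has_sub h with h | h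
      · exact Or.inl ⟨Or.inr h.1, h.2⟩
      · exact Or.inr h
  | imp φ ψ ih1 ih2 =>
    rcases h with h | h
    · rcases ih1 h with h | h
      · exact Or.inl ⟨Or.inl h.1, h.2⟩
      · exact Or.inr h
    · rcases ih2 h with h | h
      · exact Or.inl ⟨Or.inr h.1, h.2⟩
      · exact Or.inr h
  | all i φ ih =>
    by_cases hij : i = j
    · simp only [Fm.sub, if_pos hij] at h
      exact Or.inl ⟨h, fun h' => h.1 (hij.trans h'.symm)⟩
    · simp only [Fm.sub, if_neg hij] at h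
      obtain ⟨h1, h2⟩ := h
      rcases ih h2 with h | h
      · exact Or.inl ⟨⟨h1, h.1⟩, h.2⟩
      · exact Or.inr h

lemma Tm.sub_sb {s t : Tm} {j : ℕ} {σ : ℕ → Tm} (h : ∀ k, s.Has k → k ≠ j → σ k = .var k) :
    (s.sub j t).sb σ = s.sub j (t.sb σ) := by
  rw [Tm.sub_eq_sb, Tm.sub_eq_sb, Tm.sb_sb]
  refine Tm.sb_congr fun k hk => ?_
  by_cases hkj : k = j
  · subst hkj; simp
  · rw [update_of_ne hkj, update_of_ne hkj]
    exact h k hk hkj

lemma Fm.sub_sb {φ : Fm} {t : Tm} {j : ℕ} {σ : ℕ → Tm} (hb : ∀ k, φ.Bd k → ¬ t.Has k)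
    (h : ∀ k, φ.Free k → k ≠ j → σ k = .var k) (hj : ¬ φ.Bd j) :
    (φ.sub j t).sb σ = φ.sub j (t.sb σ) := by
  induction φ generalizing σ with
  | bot => rfl
  | eq s r =>
    simp only [Fm.sub, Fm.sb]
    rw [Tm.sub_sb fun k hk => h k (Or.inl hk), Tm.sub_sb fun k hk => h k (Or.inr hk)]
  | le s r =>
    simp only [Fm.sub, Fm.sb]
    rw [Tm.sub_sb fun k hk => h k (Or.inl hk), Tm.sub_sb fun k hk => h k (Or.inr hk)]
  | imp φ ψ ih1 ih2 =>
    simp only [Fm.sub, Fm.sb]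
    rw [ih1 (fun k hk => hb k (Or.inl hk)) (fun k hk => h k (Or.inl hk))
        (fun hk => hj (Or.inl hk)),
      ih2 (fun k hk => hb k (Or.inr hk)) (fun k hk => h k (Or.inr hk))
        (fun hk => hj (Or.inr hk))]
  | all i φ ih =>
    have hij : i ≠ j := fun h' => hj (Or.inl h')
    simp only [Fm.sub, if_neg hij, Fm.sb]
    have e1 : t.sb (update σ i (.var i)) = t.sb σ := by
      refine Tm.sb_congr fun k hk => ?_
      rw [update_of_ne]
      rintro rfl
      exact hb k (Or.inl rfl) hk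
    rw [ih (fun k hk => hb k (Or.inr hk)) (fun k hk hkj => ?_) (fun hk => hj (Or.inr hk)), e1]
    by_cases hki : k = i
    · subst hki; simp
    · rw [update_of_ne hki]
      exact h k ⟨fun h' => hki h'.symm, hk⟩ hkj

lemma bd_ren {φ : Fm} {f : ℕ → ℕ} {k : ℕ} (h : (φ.ren f).Bd k) : ∃ j, k = f j := by
  induction φ with
  | bot => exact absurd h (by simp [Fm.ren, Fm.Bd])
  | eq t s => exact absurd h (by simp [Fm.ren, Fm.Bd])
  | le t s => exact absurd h (by simp [Fm.ren, Fm.Bd])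
  | imp φ ψ ih1 ih2 =>
    rcases h with h | h
    · exact ih1 h
    · exact ih2 h
  | all i φ ih =>
    rcases h with h | h
    · exact ⟨i, h.symm⟩
    · exact ih h

lemma bd_sb {φ : Fm} {σ : ℕ → Tm} {k : ℕ} (h : (φ.sb σ).Bd k) : φ.Bd k := by
  induction φ generalizing σ with
  | bot => exact absurd h (by simp [Fm.sb, Fm.Bd])
  | eq t s => exact absurd h (by simp [Fm.sb, Fm.Bd])
  | le t s => exact absurd h (by simp [Fm.sb, Fm.Bd])
  | imp φ ψ ih1 ih2 =>
    rcases h with h | h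
    · exact Or.inl (ih1 h)
    · exact Or.inr (ih2 h)
  | all i φ ih =>
    rcases h with h | h
    · exact Or.inl h
    · exact Or.inr (ih h)

/-- A definable set is defined by a formula without unwanted variables. -/
lemma exists_delta {D : ℕ → Prop} (h : Dfn (fun e => D (e 0))) : ∃ δ : Fm,
    (∀ e, δ.Sat e ↔ D (e 0)) ∧ (∀ k, δ.Free k → k = 0) ∧ (∀ k, δ.Bd k → 16 ≤ k ∧ k % 2 = 1) := by
  obtain ⟨φ, hφ⟩ := h
  set f : ℕ → ℕ := fun k => 2 * k + 17 with hf
  have hinj : Injective f := fun a b hab => by simp only [hf] at hab; omega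
  set σ : ℕ → Tm := fun k => if k = 17 then .var 17 else .num 0 with hσ
  have hσn : NumSub σ := by
    intro k
    by_cases hk : k = 17
    · subst hk; left; simp [hσ]
    · right; exact ⟨0, by simp [hσ, hk]⟩
  refine ⟨.all 17 (.imp (.eq (.var 17) (.var 0)) ((φ.ren f).sb σ)), fun e => ?_, ?_, ?_⟩
  · have key : ∀ a, ((φ.ren f).sb σ).Sat (update e 17 a) ↔ D a := by
      intro a
      rw [Fm.sat_sb hσn, Fm.sat_ren hinj, hφ]
      simp [hσ, hf, Tm.val]
    constructor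
    · intro h
      exact (key (e 0)).mp (h (e 0) (by simp [Fm.Sat, Tm.val]))
    · intro h a ha
      have ha' : a = e 0 := by simpa [Fm.Sat, Tm.val] using ha
      rw [key, ha']; exact h
  · rintro k ⟨h1, (h2 | h2) | h2⟩
    · exact absurd h2 h1
    · exact h2.symm
    · have := (Fm.free_sb hσn h2).2
      by_cases hk : k = 17
      · exact absurd hk.symm h1
      · simp [hσ, hk, Tm.num] at this
  · rintro k (rfl | h2 | h2)
    · omega
    · exact absurd h2 (by simp [Fm.Bd])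
    · obtain ⟨j, rfl⟩ := bd_ren (bd_sb h2)
      simp only [hf]; omega

/-- The relations are given by formulas. -/
theorem exists_iface (con γ : Fm) (g : ℕ → ℕ) (s₀ : ℕ) (hγ : ∀ e : ℕ → ℕ, γ.Sat e ↔ e 1 = g (e 0))
    (hg : Good g s₀) : Nonempty (Iface (Rel con g s₀)) := by
  set D : ℕ → Prop := fun n => ∃ j < 26, ∃ a b c d, n = nd j (nd a (nd b (nd c d))) ∧
    Rel con g s₀ j a b c d with hD
  have hdef : Dfn (fun e => D (e 0)) := by
    refine Dfn.bex (Q := fun j e => ∃ a b c d, e 0 = nd j (nd a (nd b (nd c d))) ∧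
      Rel con g s₀ j a b c d) (fun j => ?_) 26
    have key := (((((Dfn.eq (x 0) (ndT (Tm.num j) (ndT (x 1) (ndT (x 2) (ndT (x 3) (x 4)))))).and
      ((d4_all (con := con) hγ hg j).app (x 1) (x 2) (x 3) (x 4))).ex 4).ex 3).ex 2).ex 1
    refine key.congr fun e => ?_
    simp (disch := decide) only [Tm.val, update_self, update_of_ne, Tm.val_num, val_ndT]
  obtain ⟨δ, h1, h2, h3⟩ := exists_delta hdef
  have hrel : ∀ j a b c d, D (nd j (nd a (nd b (nd c d)))) ↔ Rel con g s₀ j a b c d := by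
    intro j a b c d
    constructor
    · rintro ⟨j', _, a', b', c', d', hh, hr⟩
      obtain ⟨i0, hh⟩ := nd_inj.mp hh
      obtain ⟨i1, hh⟩ := nd_inj.mp hh
      obtain ⟨i2, hh⟩ := nd_inj.mp hh
      obtain ⟨i3, i4⟩ := nd_inj.mp hh
      rw [i0, i1, i2, i3, i4]; exact hr
    · intro hr
      refine ⟨j, ?_, a, b, c, d, rfl, hr⟩
      by_contra hj
      obtain ⟨n, rfl⟩ : ∃ n, j = n + 26 := ⟨j - 26, by omega⟩
      exact hr
  have hterm : ∀ (j : ℕ) (t₀ t₁ t₂ t₃ : Tm), t₀.Alw → t₁.Alw → t₂.Alw → t₃.Alw →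
      ∀ k, δ.Bd k → ¬ (ndT (Tm.num j) (ndT t₀ (ndT t₁ (ndT t₂ t₃)))).Has k := by
    intro j t₀ t₁ t₂ t₃ a0 a1 a2 a3 k hk hh
    obtain ⟨hk1, hk2⟩ := h3 k hk
    have hal : ¬ Al k := by unfold Al; omega
    simp only [has_ndT] at hh
    rcases hh with hh | hh | hh | hh | hh
    · exact Tm.not_has_num _ _ hh
    · exact hal (a0 k hh)
    · exact hal (a1 k hh)
    · exact hal (a2 k hh)
    · exact hal (a3 k hh)
  refine ⟨⟨fun j t₀ t₁ t₂ t₃ => δ.sub 0 (ndT (Tm.num j) (ndT t₀ (ndT t₁ (ndT t₂ t₃)))),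
    ?_, ?_, ?_⟩⟩
  · intro j t₀ t₁ t₂ t₃ e a0 a1 a2 a3
    rw [Fm.sat_sub (freeFor_of (hterm j t₀ t₁ t₂ t₃ a0 a1 a2 a3)), h1, update_self]
    simp only [val_ndT, Tm.val_num]
    exact hrel _ _ _ _ _
  · intro j t₀ t₁ t₂ t₃ e a0 a1 a2 a3
    show (δ.sub 0 _).sb _ = _
    rw [Fm.sub_sb (hterm j t₀ t₁ t₂ t₃ a0 a1 a2 a3)
      (fun k hk hk0 => absurd (h2 k hk) hk0) (fun h => by have := h3 0 h; omega)]
    have : (ndT (Tm.num j) (ndT t₀ (ndT t₁ (ndT t₂ t₃)))).sb (fun k => Tm.num (e k)) =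
        ndT (Tm.num j) (ndT (t₀.cl e) (ndT (t₁.cl e) (ndT (t₂.cl e) (t₃.cl e)))) := by
      simp only [ndT, Tm.sb, Tm.sb_num]; rfl
    rw [this]
  · intro j t₀ t₁ t₂ t₃ k a0 a1 a2 a3 hk
    rcases free_sub hk with h | h
    · exact absurd (h2 k h.1) h.2
    · simp only [has_ndT] at h
      rcases h with h | h
      · exact absurd h (Tm.not_has_num _ _)
      · exact h

end Helper31Con

end

section

/-!
# Instances at closed terms
-/

namespace Helper31Con

open Function Filter Fm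

/-- Closed terms. -/
def Tm.Cld (t : Tm) : Prop := ∀ k, ¬ t.Has k

lemma Tm.cld_num (n : ℕ) : (Tm.num n).Cld := fun k => Tm.not_has_num k n

lemma Tm.cld_zero : Tm.zero.Cld := fun _ h => h

lemma Tm.Cld.ndT {t s : Tm} (h : t.Cld) (h' : s.Cld) : (ndT t s).Cld := fun k hk => by
  rw [has_ndT] at hk
  rcases hk with hk | hk
  · exact h k hk
  · exact h' k hk

lemma Tm.Cld.succ {t : Tm} (h : t.Cld) : (Tm.succ t).Cld := fun k hk => h k hk

lemma Tm.Cld.add {t s : Tm} (h : t.Cld) (h' : s.Cld) : (Tm.add t s).Cld := fun k hk => by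
  rcases hk with hk | hk
  · exact h k hk
  · exact h' k hk

lemma Tm.Cld.mul {t s : Tm} (h : t.Cld) (h' : s.Cld) : (Tm.mul t s).Cld := fun k hk => by
  rcases hk with hk | hk
  · exact h k hk
  · exact h' k hk

lemma Tm.Cld.sb {t : Tm} (h : t.Cld) (σ : ℕ → Tm) : t.sb σ = t := by
  conv_rhs => rw [← Tm.sb_var t]
  exact Tm.sb_congr (fun k hk => absurd hk (h k))

/-- Every value is a variable itself or closed. -/
def CSub (σ : ℕ → Tm) : Prop := ∀ k, σ k = Tm.var k ∨ (σ k).Cld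

lemma CSub.update_var {σ : ℕ → Tm} (h : CSub σ) (j : ℕ) : CSub (update σ j (Tm.var j)) := by
  intro k
  by_cases hk : k = j
  · subst hk; simp
  · rw [update_of_ne hk]; exact h k

lemma Fm.sub_cld_sb {σ : ℕ → Tm} (hσ : CSub σ) {k : ℕ} (hk : σ k = Tm.var k) {r : Tm}
    (hr : r.Cld) (φ : Fm) : (φ.sb σ).sub k r = φ.sb (update σ k r) := by
  have hT : ∀ {σ : ℕ → Tm}, CSub σ → σ k = Tm.var k → ∀ t : Tm,
      (t.sb σ).sub k r = t.sb (update σ k r) := by
    intro σ hσ hk t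
    rw [Tm.sub_eq_sb, Tm.sb_sb]
    refine Tm.sb_congr fun j _ => ?_
    by_cases hj : j = k
    · subst hj; simp [hk, Tm.sb]
    · rw [update_of_ne hj]
      rcases hσ j with h | h
      · rw [h]; simp [Tm.sb, update_of_ne hj]
      · exact h.sb _
  induction φ generalizing σ with
  | bot => rfl
  | eq t s => simp [Fm.sb, Fm.sub, hT hσ hk]
  | le t s => simp [Fm.sb, Fm.sub, hT hσ hk]
  | imp φ ψ ih1 ih2 => simp [Fm.sb, Fm.sub, ih1 hσ hk, ih2 hσ hk]
  | all j φ ih =>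
    by_cases hj : j = k
    · subst hj
      simp [Fm.sb, Fm.sub]
    · simp only [Fm.sb, Fm.sub, if_neg hj]
      have hk' : update σ j (Tm.var j) k = Tm.var k := by
        rw [update_of_ne (Ne.symm hj)]; exact hk
      rw [ih (hσ.update_var j) hk', update_comm (Ne.symm hj)]

/-- The substitution that replaces the variables below `k`. -/
def belowT (τ : ℕ → Tm) (k : ℕ) : ℕ → Tm := fun j => if j < k then τ j else Tm.var j

lemma cSub_belowT {τ : ℕ → Tm} (hτ : ∀ k, (τ k).Cld) (k : ℕ) : CSub (belowT τ k) := by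
  intro j
  by_cases h : j < k
  · exact Or.inr (by simpa [belowT, h] using hτ j)
  · exact Or.inl (by simp [belowT, h])

lemma belowT_succ (τ : ℕ → Tm) (k : ℕ) :
    belowT τ (k + 1) = update (belowT τ k) k (τ k) := by
  funext j
  by_cases h : j = k
  · subst h; simp [belowT]
  · rw [update_of_ne h]
    simp only [belowT]
    by_cases h' : j < k
    · rw [if_pos h', if_pos (by omega)]
    · rw [if_neg h', if_neg (by omega)]

lemma Pr.inst_ucT {T : List Fm} {φ : Fm} {τ : ℕ → Tm} (hτ : ∀ k, (τ k).Cld) {N : ℕ}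
    (hN : ∀ k, (τ k).len ≤ N + 1) (n : ℕ) :
    ∀ (k m M : ℕ), 3 * (Fm.uc k n φ).len * (N + 1) ≤ M →
      Pr T m M ((Fm.uc k n φ).sb (belowT τ k)) →
      Pr T (m + 2 * n) M (φ.sb (belowT τ (k + n))) := by
  induction n with
  | zero => intro k m M _ h; exact h
  | succ n ih =>
    intro k m M hM h
    have hb : update (belowT τ k) k (Tm.var k) = belowT τ k := by
      funext j
      by_cases hj : j = k
      · subst hj; simp [belowT]
      · rw [update_of_ne hj]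
    have hlb : ∀ k' j, (belowT τ k' j).len ≤ (j + 1) * (N + 1) := by
      intro k' j
      by_cases hj : j < k'
      · have := hN j
        simp only [belowT, if_pos hj]; nlinarith
      · simp only [belowT, if_neg hj, Tm.len]; nlinarith
    simp only [Fm.uc, Fm.sb, hb] at h
    have hax := Ax.inst k ((Fm.uc (k + 1) n φ).sb (belowT τ k)) (τ k)
      (Fm.freeFor_of_closed (hτ k) _)
    have h1 : belowT τ k k = Tm.var k := by simp [belowT]
    rw [Fm.sub_cld_sb (cSub_belowT hτ k) h1 (hτ k), ← belowT_succ] at hax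
    have hlen : (imp (all k ((Fm.uc (k + 1) n φ).sb (belowT τ k)))
        ((Fm.uc (k + 1) n φ).sb (belowT τ (k + 1)))).len ≤ M := by
      have l1 := Fm.len_sb_le (φ := Fm.uc (k + 1) n φ) (σ := belowT τ k) (M := N + 1) (by omega)
        (fun j _ => hlb k j)
      have l2 := Fm.len_sb_le (φ := Fm.uc (k + 1) n φ) (σ := belowT τ (k + 1)) (M := N + 1)
        (by omega) (fun j _ => hlb (k + 1) j)
      simp only [Fm.uc, Fm.len] at hM ⊢
      nlinarith
    have h2 := (Pr.ax (T := T) hax hlen).mp h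
    have h3 := ih (k + 1) _ M ?_ h2
    · refine Pr.mono ?_ (le_of_eq ?_) le_rfl (n := 1 + m + 1 + 2 * n)
      · have : k + (n + 1) = k + 1 + n := by omega
        rw [this]; exact h3
      · omega
    · simp only [Fm.uc, Fm.len] at hM
      have : (Fm.uc (k + 1) n φ).len ≤ (Fm.uc (k + 1) n φ).len + (k + 1) + 1 := by omega
      calc 3 * (Fm.uc (k + 1) n φ).len * (N + 1)
          ≤ 3 * ((Fm.uc (k + 1) n φ).len + (k + 1) + 1) * (N + 1) := by gcongr
        _ ≤ M := hM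

/-- Instances at closed terms. -/
lemma Pr.instT {T : List Fm} {φ : Fm} (h : φ.ucl ∈ T) {τ : ℕ → Tm} (hτ : ∀ k, (τ k).Cld)
    {N : ℕ} (hN : ∀ k, (τ k).len ≤ N + 1) : Pr T φ.sz (φ.sz * (N + 1)) (φ.sb τ) := by
  have h1 : Pr T 1 (φ.sz * (N + 1)) ((Fm.uc 0 φ.fv φ).sb (belowT τ 0)) := by
    have : (Fm.uc 0 φ.fv φ).sb (belowT τ 0) = φ.ucl := by
      have hb : belowT τ 0 = Tm.var := by funext j; simp [belowT]
      rw [hb, Fm.sb_var]; rfl
    rw [this]
    refine Pr.mem h ?_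
    simp only [Fm.sz]; nlinarith
  have h2 := Pr.inst_ucT hτ hN φ.fv 0 1 (φ.sz * (N + 1)) ?_ h1
  · have h3 : φ.sb (belowT τ (0 + φ.fv)) = φ.sb τ := by
      refine Fm.sb_congr fun k hk => ?_
      have := Fm.lt_fv hk
      simp [belowT, this]
    rw [h3] at h2
    refine h2.mono ?_ le_rfl
    simp only [Fm.sz]; omega
  · simp only [Fm.sz, Fm.ucl]; nlinarith

/-! ### Rules -/

/-- Context of a derivation: axioms `B`, cost factor `C`, bound `N` for the closed terms,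
bound `M` for the lines. -/
structure Cx where
  B : List Fm
  C : ℕ
  N : ℕ
  M : ℕ
  hM : C * (N + 1) ≤ M

/-- `φ` has a derivation of depth `d`. -/
def Cx.D (X : Cx) (d : ℕ) (φ : Fm) : Prop := Pr X.B (X.C ^ d) X.M φ

/-- Admissible substitutions. -/
structure Cx.Sb (X : Cx) (τ : ℕ → Tm) : Prop where
  cld : ∀ k, (τ k).Cld
  len : ∀ k, (τ k).len ≤ X.N + 1

/-- `P` holds for all contexts with rich `B` and large `C`. -/
def Ev (P : Cx → Prop) : Prop :=
  ∀ᶠ p : List Fm × ℕ in rich ×ˢ atTop, ∀ X : Cx, X.B = p.1 → X.C = p.2 → P X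

lemma Ev.mono {P Q : Cx → Prop} (h : Ev P) (h' : ∀ X, P X → Q X) : Ev Q := by
  refine Filter.Eventually.mono h fun p hp X h1 h2 => h' X (hp X h1 h2)

lemma Ev.and {P Q : Cx → Prop} (h : Ev P) (h' : Ev Q) : Ev fun X => P X ∧ Q X := by
  filter_upwards [h, h'] with p h h' X h1 h2
  exact ⟨h X h1 h2, h' X h1 h2⟩

lemma ev_one : Ev fun X => 1 ≤ X.C := by
  have : ∀ᶠ n : ℕ in atTop, 1 ≤ n := eventually_ge_atTop 1
  filter_upwards [this.prod_inr rich] with p hp X _ h2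
  rw [h2]; exact hp

lemma Cx.D.mono {X : Cx} (h1 : 1 ≤ X.C) {d d' : ℕ} {φ : Fm} (h : X.D d φ) (hd : d ≤ d') :
    X.D d' φ := Pr.mono h (Nat.pow_le_pow_right h1 hd) le_rfl

/-- Iterated implication. -/
def impL : List Fm → Fm → Fm
  | [], β => β
  | α :: l, β => imp α (impL l β)

lemma sat_impL (l : List Fm) (β : Fm) (e : ℕ → ℕ) :
    (impL l β).Sat e ↔ ((∀ α ∈ l, α.Sat e) → β.Sat e) := by
  induction l with
  | nil => simp [impL]
  | cons α l ih => simp only [impL, Fm.Sat, ih, List.forall_mem_cons]; tauto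

lemma sb_impL (l : List Fm) (β : Fm) (σ : ℕ → Tm) :
    (impL l β).sb σ = impL (l.map fun α => α.sb σ) (β.sb σ) := by
  induction l with
  | nil => rfl
  | cons α l ih => simp only [impL, Fm.sb, ih, List.map_cons]

lemma Pr.impL {B : List Fm} {M n : ℕ} : ∀ (l : List Fm) {β : Fm} {m : ℕ},
    Pr B m M (impL l β) → (∀ α ∈ l, Pr B n M α) → Pr B (m + (n + 1) * l.length) M β
  | [], β, m, h, _ => h.mono (by simp) le_rfl
  | α :: l, β, m, h, h' => by
    have h1 := Pr.mp (show Pr B m M (imp α (Helper31Con.impL l β)) from h)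
      (h' α List.mem_cons_self)
    have h2 := Pr.impL l h1 (fun γ hγ => h' γ (List.mem_cons_of_mem _ hγ))
    refine h2.mono ?_ le_rfl
    simp only [List.length_cons]
    have : (n + 1) * (l.length + 1) = (n + 1) * l.length + (n + 1) := by ring
    omega

/-- A true Horn rule is available in rich contexts. -/
lemma ev_rule (αs : List Fm) (β : Fm) (h : ∀ e, (∀ α ∈ αs, α.Sat e) → β.Sat e) :
    Ev fun X => ∀ τ d, X.Sb τ → (∀ α ∈ αs, X.D d (α.sb τ)) → X.D (d + 1) (β.sb τ) := by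
  have h1 : ∀ᶠ B in rich, (impL αs β).ucl ∈ B := rich_ucl fun e => (sat_impL _ _ _).mpr (h e)
  have h2 : ∀ᶠ n : ℕ in atTop, (impL αs β).sz + 2 * αs.length + 1 ≤ n := eventually_ge_atTop _
  filter_upwards [h1.prod_inl atTop, h2.prod_inr rich] with p h1 h2 X hB hC τ d hτ hα
  have hc1 : 1 ≤ X.C := by rw [hC]; omega
  have hsz : (impL αs β).sz ≤ X.C := by rw [hC]; omega
  have q1 : Pr X.B (impL αs β).sz X.M ((impL αs β).sb τ) := by
    refine (Pr.instT (hB ▸ h1) hτ.cld hτ.len).mono le_rfl ?_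
    exact (Nat.mul_le_mul_right _ hsz).trans X.hM
  rw [sb_impL] at q1
  have q2 := Pr.impL (n := X.C ^ d) _ q1 (by
    intro α hα'
    obtain ⟨α', h3, rfl⟩ := List.mem_map.mp hα'
    exact hα α' h3)
  refine Pr.mono q2 ?_ le_rfl
  rw [List.length_map]
  have hp : 1 ≤ X.C ^ d := Nat.one_le_pow _ _ (by omega)
  have h3 : (X.C ^ d + 1) * αs.length ≤ X.C ^ d * (2 * αs.length) := by nlinarith
  have h4 : (impL αs β).sz ≤ X.C ^ d * (impL αs β).sz := Nat.le_mul_of_pos_left _ (by omega)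
  calc (impL αs β).sz + (X.C ^ d + 1) * αs.length
      ≤ X.C ^ d * (impL αs β).sz + X.C ^ d * (2 * αs.length) := add_le_add h4 h3
    _ = X.C ^ d * ((impL αs β).sz + 2 * αs.length) := by ring
    _ ≤ X.C ^ d * X.C := Nat.mul_le_mul_left _ (by rw [hC]; omega)
    _ = X.C ^ (d + 1) := (pow_succ _ _).symm

/-- Decision of a closed formula with truth value `P`. -/
def Cx.Dc (X : Cx) (d : ℕ) (α : Fm) (P : Prop) : Prop :=
  (P → X.D d α) ∧ (¬ P → X.D d (neg α))

lemma Cx.Dc.mono {X : Cx} (h1 : 1 ≤ X.C) {d d' : ℕ} {φ : Fm} {P : Prop} (h : X.Dc d φ P)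
    (hd : d ≤ d') : X.Dc d' φ P := ⟨fun h' => (h.1 h').mono h1 hd, fun h' => (h.2 h').mono h1 hd⟩

lemma Cx.Dc.congr {X : Cx} {d : ℕ} {φ : Fm} {P Q : Prop} (h : X.Dc d φ P) (hPQ : P ↔ Q) :
    X.Dc d φ Q := by rw [← propext hPQ]; exact h

open Classical in
/-- A literal. -/
noncomputable def lit (P : Prop) (α : Fm) : Fm := if P then α else neg α

lemma Cx.Dc.lit {X : Cx} {d : ℕ} {φ : Fm} {P : Prop} (h : X.Dc d φ P) :
    X.D d (Helper31Con.lit P φ) := by
  unfold Helper31Con.lit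
  split_ifs with hP
  · exact h.1 hP
  · exact h.2 hP

lemma lit_sb (P : Prop) (α : Fm) (σ : ℕ → Tm) : (lit P α).sb σ = lit P (α.sb σ) := by
  unfold lit
  split_ifs with hP
  · rfl
  · rfl

lemma sat_lit (P : Prop) (α : Fm) (e : ℕ → ℕ) : (lit P α).Sat e ↔ (P ↔ α.Sat e) := by
  unfold lit
  split_ifs with hP
  · simp [hP]
  · simp [hP, Fm.sat_neg]

/-- Decision rules. -/
lemma ev_dec {n : ℕ} (G : List Fm) (L : Fin n → Fm) (γ : Fm) (Φ : (Fin n → Prop) → Prop)
    (h : ∀ e, (∀ g ∈ G, g.Sat e) → (γ.Sat e ↔ Φ (fun i => (L i).Sat e))) :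
    Ev fun X => ∀ τ d (P : Fin n → Prop), X.Sb τ → (∀ g ∈ G, X.D d (g.sb τ)) →
      (∀ i, X.Dc d ((L i).sb τ) (P i)) → X.Dc (d + 1) (γ.sb τ) (Φ P) := by
  classical
  have key : ∀ s : Fin n → Bool, Ev fun X => ∀ τ d, X.Sb τ →
      (∀ α ∈ G ++ List.ofFn (fun i => lit (s i = true) (L i)), X.D d (α.sb τ)) →
        X.D (d + 1) ((lit (Φ fun i => s i = true) γ).sb τ) := by
    intro s
    refine ev_rule _ _ fun e he => ?_
    have h1 : ∀ g ∈ G, g.Sat e := fun g hg => he g (List.mem_append_left _ hg)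
    have h2 : ∀ i, (s i = true ↔ (L i).Sat e) := by
      intro i
      have := he (lit (s i = true) (L i)) (List.mem_append_right _ (by
        rw [List.mem_ofFn]; exact ⟨i, rfl⟩))
      exact (sat_lit _ _ _).mp this
    rw [sat_lit, h e h1]
    have : (fun i => s i = true) = fun i => (L i).Sat e := funext fun i => propext (h2 i)
    rw [this]
  have key' : Ev fun X => ∀ s : Fin n → Bool, ∀ τ d, X.Sb τ →
      (∀ α ∈ G ++ List.ofFn (fun i => lit (s i = true) (L i)), X.D d (α.sb τ)) →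
        X.D (d + 1) ((lit (Φ fun i => s i = true) γ).sb τ) := by
    have h0 : ∀ᶠ p : List Fm × ℕ in rich ×ˢ atTop, ∀ s : Fin n → Bool, ∀ X : Cx,
        X.B = p.1 → X.C = p.2 → ∀ τ d, X.Sb τ →
      (∀ α ∈ G ++ List.ofFn (fun i => lit (s i = true) (L i)), X.D d (α.sb τ)) →
        X.D (d + 1) ((lit (Φ fun i => s i = true) γ).sb τ) := by
      rw [Filter.eventually_all]
      exact key
    filter_upwards [h0] with p hp X h1 h2 s
    exact hp s X h1 h2
  refine key'.mono fun X hX τ d P hτ hG hL => ?_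
  have hP : (fun i => (decide (P i)) = true) = P := by funext i; simp
  have := hX (fun i => decide (P i)) τ d hτ (by
    intro α hα
    rcases List.mem_append.mp hα with hα | hα
    · exact hG α hα
    · rw [List.mem_ofFn] at hα
      obtain ⟨i, rfl⟩ := hα
      rw [lit_sb]
      refine Cx.Dc.lit ((hL i).congr ?_)
      simp)
  rw [hP, lit_sb] at this
  unfold lit at this
  split_ifs at this with h3
  · exact ⟨fun _ => this, fun h4 => absurd h3 h4⟩
  · exact ⟨fun h4 => absurd h4 h3, fun _ => this⟩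

/-- Substitutions given by lists. -/
def ta (l : List Tm) : ℕ → Tm := fun k => l.getD k Tm.zero

lemma sb_ta {X : Cx} {l : List Tm} (h : ∀ t ∈ l, t.Cld ∧ t.len ≤ X.N + 1) : X.Sb (ta l) := by
  have : ∀ k, (ta l k).Cld ∧ (ta l k).len ≤ X.N + 1 := by
    intro k
    unfold ta
    by_cases hk : k < l.length
    · rw [List.getD_eq_getElem _ _ hk]; exact h _ (List.getElem_mem hk)
    · rw [List.getD_eq_default _ _ (by omega)]
      exact ⟨Tm.cld_zero, by simp [Tm.len]⟩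
  exact ⟨fun k => (this k).1, fun k => (this k).2⟩

end Helper31Con

end
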