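import Pool.Agent.Helper31_Eff.Closed

section

/-!
# A machine that enumerates all short proofs
-/

namespace Helper31Con

open Function Filter Fm

/-! ### Patterns -/

/-- The state `(x_0, ..., x_10)`. -/
def srcP : Tm :=
  ndT (ndT (ndT (x 0) (ndT (x 1) (ndT (x 2) (ndT (x 3) (x 4)))))
    (ndT (x 5) (ndT (x 6) (ndT (x 7) (x 8))))) (ndT (x 9) (x 10))

/-- A state. -/
def stP (ts fs k th : Tm) : Tm := ndT (ndT ts fs) (ndT k th)

/-- The stack of terms. -/
def tsP : Tm := ndT (x 0) (ndT (x 1) (ndT (x 2) (ndT (x 3) (x 4))))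
/-- The stack of formulas. -/
def fsP : Tm := ndT (x 5) (ndT (x 6) (ndT (x 7) (x 8)))
/-- The rest of the stack of terms, after removing two elements. -/
def ts2P : Tm := ndT (x 2) (ndT (x 3) (x 4))
/-- The rest of the stack of terms, after removing one element. -/
def ts1P : Tm := ndT (x 1) (ndT (x 2) (ndT (x 3) (x 4)))
/-- The rest of the stack of formulas, after removing one element. -/
def fs1P : Tm := ndT (x 6) (ndT (x 7) (x 8))
/-- The rest of the stack of formulas, after removing two elements. -/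
def fs2P : Tm := ndT (x 7) (x 8)

/-- The number `n` as a term. -/
abbrev nT (n : ℕ) : Tm := Tm.num n

/-- Code of `⊥`. -/
def botP : Tm := ndT (nT 5) (nT 0)

/-- The next states. -/
def dstP : ℕ → Tm
  | 0 => stP tsP fsP (.succ (x 9)) (x 10)
  | 1 => stP (ndT (ndT (nT 0) (x 9)) tsP) fsP (nT 0) (x 10)
  | 2 => stP (ndT (ndT (nT 1) (nT 0)) tsP) fsP (x 9) (x 10)
  | 3 => stP (ndT (ndT (nT 2) (x 0)) ts1P) fsP (x 9) (x 10)
  | 4 => stP (ndT (ndT (nT 3) (ndT (x 1) (x 0))) ts2P) fsP (x 9) (x 10)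
  | 5 => stP (ndT (ndT (nT 4) (ndT (x 1) (x 0))) ts2P) fsP (x 9) (x 10)
  | 6 => stP tsP (ndT botP fsP) (x 9) (x 10)
  | 7 => stP ts2P (ndT (tE (x 1) (x 0)) fsP) (x 9) (x 10)
  | 8 => stP ts2P (ndT (tL (x 1) (x 0)) fsP) (x 9) (x 10)
  | 9 => stP tsP (ndT (tI (x 6) (x 5)) fs2P) (x 9) (x 10)
  | 10 => stP tsP (ndT (tA (x 9) (x 5)) fs1P) (nT 0) (x 10)
  | 11 => stP tsP fs2P (x 9) (ndT (tI (x 6) (tI (x 5) (x 6))) (x 10))
  | 12 => stP tsP (x 8) (x 9) (ndT (tI (tI (x 7) (tI (x 6) (x 5)))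
      (tI (tI (x 7) (x 6)) (tI (x 7) (x 5)))) (x 10))
  | 13 => stP tsP fs1P (x 9) (ndT (tI (tI (tI (x 5) botP) botP) (x 5)) (x 10))
  | 14 => stP ts1P fsP (x 9) (ndT (tE (x 0) (x 0)) (x 10))
  | 15 => stP ts2P fsP (x 9) (ndT (tI (tE (x 1) (x 0))
      (tE (ndT (nT 2) (x 1)) (ndT (nT 2) (x 0)))) (x 10))
  | 16 => stP (x 4) fsP (x 9) (ndT (tI (tE (x 3) (x 2)) (tI (tE (x 1) (x 0))
      (tE (ndT (nT 3) (ndT (x 3) (x 1))) (ndT (nT 3) (ndT (x 2) (x 0)))))) (x 10))
  | 17 => stP (x 4) fsP (x 9) (ndT (tI (tE (x 3) (x 2)) (tI (tE (x 1) (x 0))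
      (tE (ndT (nT 4) (ndT (x 3) (x 1))) (ndT (nT 4) (ndT (x 2) (x 0)))))) (x 10))
  | 18 => stP (x 4) fsP (x 9) (ndT (tI (tE (x 3) (x 2)) (tI (tE (x 1) (x 0))
      (tI (tE (x 3) (x 1)) (tE (x 2) (x 0))))) (x 10))
  | 19 => stP (x 4) fsP (x 9) (ndT (tI (tE (x 3) (x 2)) (tI (tE (x 1) (x 0))
      (tI (tL (x 3) (x 1)) (tL (x 2) (x 0))))) (x 10))
  | 20 => stP ts1P fs2P (nT 0) (ndT (tI (tA (x 9) (x 6)) (x 5)) (x 10))
  | 21 => stP tsP fs2P (nT 0) (ndT (tI (tA (x 9) (tI (x 6) (x 5)))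
      (tI (x 6) (tA (x 9) (x 5)))) (x 10))
  | 22 => stP tsP fs1P (x 9) (ndT (x 5) (x 10))
  | 23 => stP tsP fs1P (nT 0) (ndT (tA (x 9) (x 5)) (x 10))
  | 24 => stP tsP fs1P (x 9) (ndT (x 5) (x 10))
  | _ => srcP

/-- Modus ponens is possible. -/
def MpR (L th c : ℕ) : Prop := ∃ χ, MeR L (nd 8 (nd χ c)) ∧ MeR th χ

/-- The conditions. -/
def CondR (z : ℕ) : ℕ → (ℕ → ℕ) → Prop
  | 20, v => FFR (v 6) (v 9) (v 0) ∧ SbF (v 6) (v 9) (v 0) (v 5)
  | 21, v => ¬ FreeR (v 6) (v 9)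
  | 22, v => MpR (v 10) (v 10) (v 5)
  | 23, v => MeR (v 10) (v 5)
  | 24, v => MeR z (v 5)
  | _, _ => True

/-- One step. -/
def StR (z d s s' : ℕ) : Prop := d < 25 ∧ ∃ v : ℕ → ℕ, s = srcP.val v ∧ CondR z d v ∧
  s' = (dstP d).val v

/-- The state contains a proof of `⊥`. -/
def BadR (s : ℕ) : Prop := ∃ a b k th, s = nd (nd a b) (nd k th) ∧ MeR th (nd 5 0)

/-- No state with a proof of `⊥` is reached in `m` steps. -/
def AOR (z : ℕ) : ℕ → ℕ → Prop
  | 0, s => ¬ BadR s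
  | m + 1, s => ∀ d s', StR z d s s' → AOR z m s'

/-- The same for the first `d` instructions. -/
def AOdR (z s m d : ℕ) : Prop := ∀ d' < d, ∀ s', StR z d' s s' → AOR z m s'

/-- The family of relations. -/
def RE : ℕ → ℕ → ℕ → ℕ → ℕ → Prop
  | 0, a, _, _, _ => IsT a
  | 1, a, _, _, _ => IsF a
  | 2, a, b, _, _ => HasR a b
  | 3, a, b, _, _ => FreeR a b
  | 4, a, b, c, d => SbT a b c d
  | 5, a, b, c, d => SbF a b c d
  | 6, a, b, c, _ => FFR a b c
  | 10, a, _, _, _ => IsL a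
  | 11, a, _, _, _ => LSR a
  | 12, a, b, _, _ => MeR a b
  | 16, a, b, c, _ => MpR a b c
  | 17, a, b, c, _ => AOR a c b
  | 18, a, b, c, d => AOdR a b c d
  | _, _, _, _, _ => False

/-! ### Definability -/

/-- The assignment `e` with the values `v` at the `n` places from `a` on. -/
def ov (a n : ℕ) (v e : ℕ → ℕ) : ℕ → ℕ := fun k => if a ≤ k ∧ k < a + n then v (k - a) else e k

lemma Dfn.exs {P : (ℕ → ℕ) → Prop} (h : Dfn P) (a n : ℕ) :
    Dfn (fun e => ∃ v : ℕ → ℕ, P (ov a n v e)) := by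
  induction n with
  | zero =>
    refine h.congr fun e => ?_
    have : ∀ v, ov a 0 v e = e := by
      intro v; funext k
      simp only [ov]
      rw [if_neg (by omega)]
    constructor
    · intro h; exact ⟨fun _ => 0, by rw [this]; exact h⟩
    · rintro ⟨v, h⟩; rw [this] at h; exact h
  | succ n ih =>
    refine (ih.ex (a + n)).congr fun e => ?_
    constructor
    · rintro ⟨b, v, hb⟩
      refine ⟨fun i => if i < n then v i else b, ?_⟩
      have : ov a (n + 1) (fun i => if i < n then v i else b) e =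
          ov a n v (update e (a + n) b) := by
        funext k
        simp only [ov]
        by_cases h1 : a ≤ k ∧ k < a + n
        · rw [if_pos (by omega), if_pos h1, if_pos (by omega)]
        · rw [if_neg h1]
          by_cases h2 : k = a + n
          · subst h2
            rw [if_pos (by omega), if_neg (by omega), update_self]
          · rw [if_neg (by omega), update_of_ne h2]
      rw [this]; exact hb
    · rintro ⟨v, hv⟩
      refine ⟨v n, v, ?_⟩
      have : ov a (n + 1) v e = ov a n v (update e (a + n) (v n)) := by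
        funext k
        simp only [ov]
        by_cases h1 : a ≤ k ∧ k < a + n
        · rw [if_pos (by omega), if_pos h1]
        · rw [if_neg h1]
          by_cases h2 : k = a + n
          · subst h2
            rw [if_pos (by omega), update_self]
            congr 1; omega
          · rw [if_neg (by omega), update_of_ne h2]
      rw [← this]; exact hv

lemma d4_IsT : D4 (fun a _ _ _ => IsT a) := d4_syn (con := .bot) (g := fun n => n) (s₀ := 0) (i := 0) (by omega)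
lemma d4_IsF : D4 (fun a _ _ _ => IsF a) := d4_syn (con := .bot) (g := fun n => n) (s₀ := 0) (i := 1) (by omega)
lemma d4_HasR : D4 (fun a b _ _ => HasR a b) := d4_syn (con := .bot) (g := fun n => n) (s₀ := 0) (i := 2) (by omega)
lemma d4_FreeR : D4 (fun a b _ _ => FreeR a b) := d4_syn (con := .bot) (g := fun n => n) (s₀ := 0) (i := 3) (by omega)
lemma d4_SbT : D4 (fun a b c d => SbT a b c d) := d4_syn (con := .bot) (g := fun n => n) (s₀ := 0) (i := 4) (by omega)
lemma d4_SbF : D4 (fun a b c d => SbF a b c d) := d4_syn (con := .bot) (g := fun n => n) (s₀ := 0) (i := 5) (by omega)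
lemma d4_FFR : D4 (fun a b c _ => FFR a b c) := d4_syn (con := .bot) (g := fun n => n) (s₀ := 0) (i := 6) (by omega)
lemma d4_IsL : D4 (fun a _ _ _ => IsL a) := d4_syn (con := .bot) (g := fun n => n) (s₀ := 0) (i := 10) (by omega)
lemma d4_LSR : D4 (fun a _ _ _ => LSR a) := d4_syn (con := .bot) (g := fun n => n) (s₀ := 0) (i := 11) (by omega)
lemma d4_MeR : D4 (fun a b _ _ => MeR a b) := d4_syn (con := .bot) (g := fun n => n) (s₀ := 0) (i := 12) (by omega)

lemma d4_MpR : D4 (fun a b c _ => MpR a b c) := by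
  have key := ((d4_MeR.app (x 0) (ndT (nT 8) (ndT (x 4) (x 2))) (x 0) (x 0)).and
    (d4_MeR.app (x 1) (x 4) (x 0) (x 0))).ex 4
  refine key.congr fun e => ?_
  simp (disch := decide) only [Tm.val, update_self, update_of_ne, Tm.val_num, val_ndT, MpR]

lemma dfn_cond (d : ℕ) : Dfn (fun e => CondR (e 0) d (fun k => e (k + 4))) := by
  match d with
  | 20 => exact Dfn.and (d4_FFR.app (x 10) (x 13) (x 4) (x 0)) (d4_SbF.app (x 10) (x 13) (x 4) (x 9))
  | 21 => exact (d4_FreeR.app (x 10) (x 13) (x 0) (x 0)).not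
  | 22 => exact d4_MpR.app (x 14) (x 14) (x 9) (x 0)
  | 23 => exact d4_MeR.app (x 14) (x 9) (x 0) (x 0)
  | 24 => exact d4_MeR.app (x 0) (x 9) (x 0) (x 0)
  | 0 | 1 | 2 | 3 | 4 | 5 | 6 | 7 | 8 | 9 | 10 | 11 | 12 | 13 | 14 | 15 | 16 | 17 | 18 | 19 =>
    exact (Dfn.false'.not).congr fun e => by simp [CondR]
  | n + 25 => exact (Dfn.false'.not).congr fun e => by simp [CondR]

lemma srcP_has {k : ℕ} (h : srcP.Has k) : k < 11 := by
  simp only [srcP, has_ndT, Tm.Has] at h; omega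

lemma dstP_has {d k : ℕ} (h : (dstP d).Has k) : k < 11 := by
  match d with
  | 0 | 1 | 2 | 3 | 4 | 5 | 6 | 7 | 8 | 9 | 10 | 11 | 12 | 13 | 14 | 15 | 16 | 17 | 18 | 19 | 20
  | 21 | 22 | 23 | 24 =>
    simp only [dstP, stP, tsP, fsP, ts1P, ts2P, fs1P, fs2P, botP, tI, tA, tE, tL, has_ndT, Tm.Has,
      Tm.not_has_num, or_false, false_or] at h
    omega
  | n + 25 => exact srcP_has h

lemma condR_congr {z d : ℕ} {v w : ℕ → ℕ} (h : ∀ k < 11, v k = w k) :
    CondR z d v ↔ CondR z d w := by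
  match d with
  | 20 => simp only [CondR]; rw [h 6 (by omega), h 9 (by omega), h 0 (by omega), h 5 (by omega)]
  | 21 => simp only [CondR]; rw [h 6 (by omega), h 9 (by omega)]
  | 22 => simp only [CondR]; rw [h 10 (by omega), h 5 (by omega)]
  | 23 => simp only [CondR]; rw [h 10 (by omega), h 5 (by omega)]
  | 24 => simp only [CondR]; rw [h 5 (by omega)]
  | 0 | 1 | 2 | 3 | 4 | 5 | 6 | 7 | 8 | 9 | 10 | 11 | 12 | 13 | 14 | 15 | 16 | 17 | 18 | 19 =>
    simp [CondR]
  | n + 25 => simp [CondR]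

lemma d4_StR : D4 StR := by
  have h1 : ∀ j, Dfn (fun e => e 1 = j ∧ ∃ v : ℕ → ℕ, e 2 = srcP.val v ∧ CondR (e 0) j v ∧
      e 3 = (dstP j).val v) := by
    intro j
    have k1 := ((Dfn.eq (x 2) (srcP.ren (· + 4))).and ((dfn_cond j).and
      (Dfn.eq (x 3) ((dstP j).ren (· + 4))))).exs 4 11
    refine ((Dfn.eq (x 1) (nT j)).and k1).congr fun e => ?_
    refine and_congr (by simp [Tm.val]) (exists_congr fun v => ?_)
    have e0 : ov 4 11 v e 0 = e 0 := by simp [ov]
    have e2 : ov 4 11 v e 2 = e 2 := by simp [ov]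
    have e3 : ov 4 11 v e 3 = e 3 := by simp [ov]
    have ek : ∀ k < 11, (ov 4 11 v e ∘ (· + 4)) k = v k := by
      intro k hk
      simp only [ov, comp_apply]
      rw [if_pos (by omega)]; congr 1
    have ek' : ∀ k < 11, ov 4 11 v e (k + 4) = v k := ek
    simp only [Tm.val, Tm.val_ren, e0, e2, e3]
    rw [Tm.val_congr (t := srcP) (fun k hk => ek k (srcP_has hk)),
      Tm.val_congr (t := dstP j) (fun k hk => ek k (dstP_has hk)), condR_congr ek']
  refine (Dfn.bex h1 25).congr fun e => ?_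
  constructor
  · rintro ⟨j, hj, h, v, hv⟩
    rw [← h] at hj hv
    exact ⟨hj, v, hv⟩
  · rintro ⟨hj, v, hv⟩
    exact ⟨e 1, hj, rfl, v, hv⟩

/-- `y` is the entry number `i` of the sequence with code `(a, b)`. -/
def BtR (a b i y : ℕ) : Prop := y = a % ((i + 1) * b + 1)

lemma d4_BtR : D4 BtR := by
  have key := (Dfn.le (.succ (x 3)) (.succ (.mul (.succ (x 2)) (x 1)))).and
    ((Dfn.eq (x 0) (.add (.mul (x 4) (.succ (.mul (.succ (x 2)) (x 1)))) (x 3))).ex 4)
  refine key.congr fun e => ?_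
  simp (disch := decide) only [Tm.val, update_self, update_of_ne, BtR]
  constructor
  · rintro ⟨h1, q, h2⟩
    rw [h2, Nat.add_comm (q * _) (e 3), Nat.add_mul_mod_self_right, Nat.mod_eq_of_lt (by omega)]
  · intro h
    refine ⟨?_, e 0 / ((e 2 + 1) * e 1 + 1), ?_⟩
    · rw [h]
      have := Nat.mod_lt (e 0) (show 0 < (e 2 + 1) * e 1 + 1 by omega)
      omega
    · rw [h]
      have := Nat.div_add_mod (e 0) ((e 2 + 1) * e 1 + 1)
      nlinarith

lemma exists_bt (f : ℕ → ℕ) (m : ℕ) : ∃ a b : ℕ, ∀ i ≤ m, a % ((i + 1) * b + 1) = f i := by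
  set l := (List.range (m + 1)).map f with hl
  have hlen : l.length = m + 1 := by simp [hl]
  refine ⟨(Nat.unbeta l).unpair.1, (Nat.unbeta l).unpair.2, fun i hi => ?_⟩
  have h1 := Nat.beta_unbeta_coe l ⟨i, by omega⟩
  unfold Nat.beta at h1
  rw [h1]
  simp [hl]

lemma aor_iff (z : ℕ) : ∀ (m s : ℕ), AOR z m s ↔
    ∀ f : ℕ → ℕ, f 0 = s → (∀ i < m, ∃ d, StR z d (f i) (f (i + 1))) → ¬ BadR (f m) := by
  intro m
  induction m with
  | zero =>
    intro s
    simp only [AOR]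
    constructor
    · intro h f hf _; rw [hf]; exact h
    · intro h; exact h (fun _ => s) rfl (by omega)
  | succ m ih =>
    intro s
    simp only [AOR]
    constructor
    · intro h f hf hs
      obtain ⟨d, hd⟩ := hs 0 (by omega)
      rw [hf] at hd
      have := (ih (f 1)).mp (h d _ hd) (fun i => f (i + 1)) rfl (fun i hi => hs (i + 1) (by omega))
      exact this
    · intro h d s' hd
      refine (ih s').mpr fun f hf hs => ?_
      have := h (fun i => if i = 0 then s else f (i - 1)) (by simp) ?_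
      · simpa using this
      · intro i hi
        cases i with
        | zero => exact ⟨d, by simpa [hf] using hd⟩
        | succ i =>
          obtain ⟨d', hd'⟩ := hs i (by omega)
          exact ⟨d', by simpa using hd'⟩

lemma dfn_bad : Dfn (fun e => BadR (e 0)) := by
  have key := ((((Dfn.eq (x 0) (ndT (ndT (x 1) (x 2)) (ndT (x 3) (x 4)))).and
    (d4_MeR.app (x 4) (ndT (nT 5) (nT 0)) (x 0) (x 0))).ex 4).ex 3).ex 2 |>.ex 1
  refine key.congr fun e => ?_
  simp (disch := decide) only [Tm.val, update_self, update_of_ne, Tm.val_num, val_ndT, BadR]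

lemma d4_bad : D4 (fun a _ _ _ => BadR a) := dfn_bad

lemma d4_AOR : D4 (fun z s m _ => AOR z m s) := by
  -- a = x4, b = x5, i = x6, y = x7, y' = x8, d = x9
  have a1 := (d4_BtR.app (x 4) (x 5) .zero (x 1))
  have a2 := (((((Dfn.le (.succ (x 6)) (x 2)).imp ((d4_BtR.app (x 4) (x 5) (x 6) (x 7)).imp
    ((d4_BtR.app (x 4) (x 5) (.succ (x 6)) (x 8)).imp
      ((d4_StR.app (x 0) (x 9) (x 7) (x 8)).ex 9)))).all 8).all 7).all 6)
  have a3 := ((d4_BtR.app (x 4) (x 5) (x 2) (x 7)).imp (d4_bad.app (x 7) (x 0) (x 0) (x 0)).not).all 7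
  have key := ((a1.imp (a2.imp a3)).all 5).all 4
  refine key.congr fun e => ?_
  simp (disch := decide) only [Tm.val, update_self, update_of_ne, BtR]
  rw [aor_iff]
  constructor
  · intro h f hf hs
    obtain ⟨a, b, hab⟩ := exists_bt f (e 2)
    refine h a b (by rw [hab 0 (Nat.zero_le _), hf]) ?_ (f (e 2)) (hab _ le_rfl).symm
    rintro i y y' hi hy hy'
    rw [hy, hy', hab i (by omega), hab (i + 1) (by omega)]
    exact hs i (by omega)
  · intro h a b h0 hs y hy
    have := h (fun i => a % ((i + 1) * b + 1)) h0.symm ?_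
    · rw [hy]; exact this
    · intro i hi
      exact hs i _ _ (by omega) rfl rfl

lemma d4_AOdR : D4 AOdR := by
  have key := (((Dfn.le (.succ (x 4)) (x 3)).imp ((d4_StR.app (x 0) (x 4) (x 1) (x 5)).imp
    (d4_AOR.app (x 0) (x 5) (x 2) (x 0)))).all 5).all 4
  refine key.congr fun e => ?_
  simp (disch := decide) only [Tm.val, update_self, update_of_ne, AOdR]
  constructor
  · intro h d hd s' hs'
    exact h d s' (by omega) hs'
  · intro h d s' hd hs'
    exact h d (by omega) s' hs'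

lemma d4_RE (i : ℕ) : D4 (RE i) := by
  match i with
  | 0 => exact d4_IsT
  | 1 => exact d4_IsF
  | 2 => exact d4_HasR
  | 3 => exact d4_FreeR
  | 4 => exact d4_SbT
  | 5 => exact d4_SbF
  | 6 => exact d4_FFR
  | 10 => exact d4_IsL
  | 11 => exact d4_LSR
  | 12 => exact d4_MeR
  | 16 => exact d4_MpR
  | 17 => exact d4_AOR
  | 18 => exact d4_AOdR
  | 7 | 8 | 9 | 13 | 14 | 15 => exact Dfn.false'
  | n + 19 => exact Dfn.false'

/-! ### The interface -/

/-- Interfaces with substitution of closed terms. -/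
structure IfaceC (R : ℕ → ℕ → ℕ → ℕ → ℕ → Prop) extends Iface R where
  sbc : ∀ (j : ℕ) (t₀ t₁ t₂ t₃ : Tm) (τ : ℕ → Tm), (∀ k, (τ k).Cld) → t₀.Alw → t₁.Alw → t₂.Alw →
    t₃.Alw → (A j t₀ t₁ t₂ t₃).sb τ = A j (t₀.sb τ) (t₁.sb τ) (t₂.sb τ) (t₃.sb τ)

/-- Definable families of relations are given by formulas. -/
theorem exists_ifaceC {R : ℕ → ℕ → ℕ → ℕ → ℕ → Prop} (hR : ∀ i, D4 (R i)) (K : ℕ)
    (hK : ∀ j a b c d, R j a b c d → j < K) : Nonempty (IfaceC R) := by
  set D : ℕ → Prop := fun n => ∃ j < K, ∃ a b c d, n = nd j (nd a (nd b (nd c d))) ∧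
    R j a b c d with hD
  have hdef : Dfn (fun e => D (e 0)) := by
    refine Dfn.bex (Q := fun j e => ∃ a b c d, e 0 = nd j (nd a (nd b (nd c d))) ∧
      R j a b c d) (fun j => ?_) K
    have key := (((((Dfn.eq (x 0) (ndT (Tm.num j) (ndT (x 1) (ndT (x 2) (ndT (x 3) (x 4)))))).and
      ((hR j).app (x 1) (x 2) (x 3) (x 4))).ex 4).ex 3).ex 2).ex 1
    refine key.congr fun e => ?_
    simp (disch := decide) only [Tm.val, update_self, update_of_ne, Tm.val_num, val_ndT]
  obtain ⟨δ, h1, h2, h3⟩ := exists_delta hdef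
  have hrel : ∀ j a b c d, D (nd j (nd a (nd b (nd c d)))) ↔ R j a b c d := by
    intro j a b c d
    constructor
    · rintro ⟨j', _, a', b', c', d', hh, hr⟩
      obtain ⟨i0, hh⟩ := nd_inj.mp hh
      obtain ⟨i1, hh⟩ := nd_inj.mp hh
      obtain ⟨i2, hh⟩ := nd_inj.mp hh
      obtain ⟨i3, i4⟩ := nd_inj.mp hh
      rw [i0, i1, i2, i3, i4]; exact hr
    · intro hr
      exact ⟨j, hK _ _ _ _ _ hr, a, b, c, d, rfl, hr⟩
  have hterm : ∀ (j : ℕ) (t₀ t₁ t₂ t₃ : Tm), t₀.Alw → t₁.Alw → t₂.Alw → t₃.Alw →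
      ∀ k, δ.Bd k → ¬ (ndT (Tm.num j) (ndT t₀ (ndT t₁ (ndT t₂ t₃)))).Has k := by
    intro j t₀ t₁ t₂ t₃ a0 a1 a2 a3 k hk hh
    obtain ⟨hk1, hk2⟩ := h3 k hk
    have hal : ¬ Al k := by unfold Al; omega
    simp only [has_ndT] at hh
    rcases hh with hh | hh | hh | hh | hh
    · exact Tm.not_has_num _ _ hh
    · exact hal (a0 k hh)
    · exact hal (a1 k hh)
    · exact hal (a2 k hh)
    · exact hal (a3 k hh)
  have hsb : ∀ (j : ℕ) (t₀ t₁ t₂ t₃ : Tm) (τ : ℕ → Tm), t₀.Alw → t₁.Alw → t₂.Alw → t₃.Alw →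
      (δ.sub 0 (ndT (Tm.num j) (ndT t₀ (ndT t₁ (ndT t₂ t₃))))).sb τ =
        δ.sub 0 (ndT (Tm.num j) (ndT (t₀.sb τ) (ndT (t₁.sb τ) (ndT (t₂.sb τ) (t₃.sb τ))))) := by
    intro j t₀ t₁ t₂ t₃ τ a0 a1 a2 a3
    rw [Fm.sub_sb (hterm j t₀ t₁ t₂ t₃ a0 a1 a2 a3)
      (fun k hk hk0 => absurd (h2 k hk) hk0) (fun h => by have := h3 0 h; omega)]
    have : (ndT (Tm.num j) (ndT t₀ (ndT t₁ (ndT t₂ t₃)))).sb τ =
        ndT (Tm.num j) (ndT (t₀.sb τ) (ndT (t₁.sb τ) (ndT (t₂.sb τ) (t₃.sb τ)))) := by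
      simp only [ndT, Tm.sb, Tm.sb_num]
    rw [this]
  refine ⟨⟨⟨fun j t₀ t₁ t₂ t₃ => δ.sub 0 (ndT (Tm.num j) (ndT t₀ (ndT t₁ (ndT t₂ t₃)))),
    ?_, ?_, ?_⟩, ?_⟩⟩
  · intro j t₀ t₁ t₂ t₃ e a0 a1 a2 a3
    rw [Fm.sat_sub (freeFor_of (hterm j t₀ t₁ t₂ t₃ a0 a1 a2 a3)), h1, update_self]
    simp only [val_ndT, Tm.val_num]
    exact hrel _ _ _ _ _
  · intro j t₀ t₁ t₂ t₃ e a0 a1 a2 a3
    exact hsb j t₀ t₁ t₂ t₃ _ a0 a1 a2 a3
  · intro j t₀ t₁ t₂ t₃ k a0 a1 a2 a3 hk
    rcases free_sub hk with h | h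
    · exact absurd (h2 k h.1) h.2
    · simp only [has_ndT] at h
      rcases h with h | h
      · exact absurd h (Tm.not_has_num _ _)
      · exact h
  · intro j t₀ t₁ t₂ t₃ τ _ a0 a1 a2 a3
    exact hsb j t₀ t₁ t₂ t₃ τ a0 a1 a2 a3

lemma exists_ifaceRE : Nonempty (IfaceC RE) := by
  refine exists_ifaceC d4_RE 19 fun j a b c d h => ?_
  by_contra hj
  obtain ⟨n, rfl⟩ : ∃ n, j = n + 19 := ⟨j - 19, by omega⟩
  exact h

end Helper31Con

end

section

/-!
# Closed terms for codes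
-/

namespace Helper31Con

open Function Filter Fm

lemma len_ndT (t s : Tm) : (ndT t s).len = 3 * t.len + 2 * s.len + 5 := by
  simp only [ndT, Tm.len]; omega

/-- Closed term with value `tc t`. -/
def tT : Tm → Tm
  | .var k => ndT (nT 0) (nT k)
  | .zero => ndT (nT 1) (nT 0)
  | .succ t => ndT (nT 2) (tT t)
  | .add t s => ndT (nT 3) (ndT (tT t) (tT s))
  | .mul t s => ndT (nT 4) (ndT (tT t) (tT s))

/-- Closed term with value `fc φ`. -/
def fT : Fm → Tm
  | .bot => ndT (nT 5) (nT 0)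
  | .eq t s => ndT (nT 6) (ndT (tT t) (tT s))
  | .le t s => ndT (nT 7) (ndT (tT t) (tT s))
  | .imp φ ψ => ndT (nT 8) (ndT (fT φ) (fT ψ))
  | .all k φ => ndT (nT 9) (ndT (nT k) (fT φ))

/-- Closed term for a list of terms. -/
def ltT : List Tm → Tm
  | [] => nT 0
  | t :: l => ndT (tT t) (ltT l)

/-- Closed term with value `lc l`. -/
def lT : List Fm → Tm
  | [] => nT 0
  | φ :: l => ndT (fT φ) (lT l)

lemma cld_tT (t : Tm) : (tT t).Cld := by
  induction t with
  | var k => exact (Tm.cld_num _).ndT (Tm.cld_num _)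
  | zero => exact (Tm.cld_num _).ndT (Tm.cld_num _)
  | succ t ih => exact (Tm.cld_num _).ndT ih
  | add t s iht ihs => exact (Tm.cld_num _).ndT (iht.ndT ihs)
  | mul t s iht ihs => exact (Tm.cld_num _).ndT (iht.ndT ihs)

lemma cld_fT (φ : Fm) : (fT φ).Cld := by
  induction φ with
  | bot => exact (Tm.cld_num _).ndT (Tm.cld_num _)
  | eq t s => exact (Tm.cld_num _).ndT ((cld_tT t).ndT (cld_tT s))
  | le t s => exact (Tm.cld_num _).ndT ((cld_tT t).ndT (cld_tT s))
  | imp φ ψ ih1 ih2 => exact (Tm.cld_num _).ndT (ih1.ndT ih2)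
  | all k φ ih => exact (Tm.cld_num _).ndT ((Tm.cld_num _).ndT ih)

lemma cld_ltT (l : List Tm) : (ltT l).Cld := by
  induction l with
  | nil => exact Tm.cld_num _
  | cons t l ih => exact (cld_tT t).ndT ih

lemma cld_lT (l : List Fm) : (lT l).Cld := by
  induction l with
  | nil => exact Tm.cld_num _
  | cons φ l ih => exact (cld_fT φ).ndT ih

lemma val_tT (t : Tm) (e : ℕ → ℕ) : (tT t).val e = tc t := by
  induction t with
  | var k => simp [tT, tc]
  | zero => simp [tT, tc]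
  | succ t ih => simp [tT, tc, ih]
  | add t s iht ihs => simp [tT, tc, iht, ihs]
  | mul t s iht ihs => simp [tT, tc, iht, ihs]

lemma val_fT (φ : Fm) (e : ℕ → ℕ) : (fT φ).val e = fc φ := by
  induction φ with
  | bot => simp [fT, fc]
  | eq t s => simp [fT, fc, val_tT]
  | le t s => simp [fT, fc, val_tT]
  | imp φ ψ ih1 ih2 => simp [fT, fc, ih1, ih2]
  | all k φ ih => simp [fT, fc, ih]

lemma val_lT (l : List Fm) (e : ℕ → ℕ) : (lT l).val e = lc l := by
  induction l with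
  | nil => rfl
  | cons φ l ih => simp [lT, lc, ih, val_fT]

/-- Size bound for a closed term. -/
def Bd8 (t : Tm) (a : ℕ) : Prop := t.len ≤ 2 ^ (8 * a)

lemma two_pow_add_le {a b : ℕ} : 2 ^ (8 * a) + 2 ^ (8 * b) ≤ 2 * 2 ^ (8 * (a + b)) := by
  have h1 : 2 ^ (8 * a) ≤ 2 ^ (8 * (a + b)) := Nat.pow_le_pow_right (by omega) (by omega)
  have h2 : 2 ^ (8 * b) ≤ 2 ^ (8 * (a + b)) := Nat.pow_le_pow_right (by omega) (by omega)
  omega

lemma Bd8.mono {t : Tm} {a b : ℕ} (h : Bd8 t a) (hab : a ≤ b) : Bd8 t b :=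
  h.trans (Nat.pow_le_pow_right (by omega) (by omega))

lemma Bd8.num (n : ℕ) : Bd8 (nT n) (n + 1) := by
  unfold Bd8
  rw [Tm.len_num]
  have h1 : n + 1 < 2 ^ (n + 1) := Nat.lt_two_pow_self
  exact h1.le.trans (Nat.pow_le_pow_right (by omega) (by omega))

/-- A pair. -/
lemma Bd8.ndT {t s : Tm} {a b : ℕ} (h : Bd8 t a) (h' : Bd8 s b) : Bd8 (ndT t s) (a + b + 1) := by
  unfold Bd8 at *
  rw [len_ndT]
  have h1 : 2 ^ (8 * (a + b + 1)) = 256 * 2 ^ (8 * (a + b)) := by
    rw [show 8 * (a + b + 1) = 8 * (a + b) + 8 by ring, pow_add]; ring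
  have h2 := two_pow_add_le (a := a) (b := b)
  have h3 : 1 ≤ 2 ^ (8 * (a + b)) := Nat.one_le_two_pow
  rw [h1]; omega

/-- A tagged term. -/
lemma Bd8.tag {s : Tm} {c b : ℕ} (hc : c ≤ 9) (h' : Bd8 s b) : Bd8 (Helper31Con.ndT (nT c) s) (b + 1) := by
  unfold Bd8 at *
  rw [len_ndT, Tm.len_num]
  have h1 : 2 ^ (8 * (b + 1)) = 256 * 2 ^ (8 * b) := by
    rw [show 8 * (b + 1) = 8 * b + 8 by ring, pow_add]; ring
  have h3 : 1 ≤ 2 ^ (8 * b) := Nat.one_le_two_pow
  rw [h1]; omega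

/-- A tagged pair. -/
lemma Bd8.tag2 {t s : Tm} {c a b : ℕ} (hc : c ≤ 9) (h : Bd8 t a) (h' : Bd8 s b) :
    Bd8 (Helper31Con.ndT (nT c) (Helper31Con.ndT t s)) (a + b + 1) := by
  unfold Bd8 at *
  rw [len_ndT, Tm.len_num, len_ndT]
  have h1 : 2 ^ (8 * (a + b + 1)) = 256 * 2 ^ (8 * (a + b)) := by
    rw [show 8 * (a + b + 1) = 8 * (a + b) + 8 by ring, pow_add]; ring
  have h2 := two_pow_add_le (a := a) (b := b)
  have h3 : 1 ≤ 2 ^ (8 * (a + b)) := Nat.one_le_two_pow
  rw [h1]; omega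

lemma bd_tT (t : Tm) : Bd8 (tT t) t.len := by
  induction t with
  | var k => exact Bd8.tag (by omega) (by
      unfold Bd8
      rw [Tm.len_num]
      have h1 : k < 2 ^ k := Nat.lt_two_pow_self
      exact (show k + 1 ≤ 2 ^ k from h1).trans (Nat.pow_le_pow_right (by omega) (by omega)))
  | zero => exact Bd8.tag (b := 0) (by omega) (by unfold Bd8; simp)
  | succ t ih => exact Bd8.tag (by omega) ih
  | add t s iht ihs => exact Bd8.tag2 (by omega) iht ihs
  | mul t s iht ihs => exact Bd8.tag2 (by omega) iht ihs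

lemma bd_fT (φ : Fm) : Bd8 (fT φ) φ.len := by
  induction φ with
  | bot => exact Bd8.tag (b := 0) (by omega) (by unfold Bd8; simp)
  | eq t s => exact Bd8.tag2 (by omega) (bd_tT t) (bd_tT s)
  | le t s => exact Bd8.tag2 (by omega) (bd_tT t) (bd_tT s)
  | imp φ ψ ih1 ih2 => exact Bd8.tag2 (by omega) ih1 ih2
  | all k φ ih =>
    have := Bd8.tag2 (c := 9) (by omega) (Bd8.num k) ih
    refine this.mono ?_
    simp only [Fm.len]; omega

/-- Size of a list of terms. -/
def tsz : List Tm → ℕ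
  | [] => 1
  | t :: l => t.len + tsz l + 1

/-- Size of a list of formulas. -/
def fsz : List Fm → ℕ
  | [] => 1
  | φ :: l => φ.len + fsz l + 1

lemma bd_ltT (l : List Tm) : Bd8 (ltT l) (tsz l) := by
  induction l with
  | nil => exact Bd8.num 0
  | cons t l ih => exact (bd_tT t).ndT ih

lemma bd_lT (l : List Fm) : Bd8 (lT l) (fsz l) := by
  induction l with
  | nil => exact Bd8.num 0
  | cons φ l ih => exact (bd_fT φ).ndT ih

@[simp] lemma alw_ndT {t s : Tm} : (ndT t s).Alw ↔ t.Alw ∧ s.Alw := by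
  constructor
  · intro h
    exact ⟨fun k hk => h k ((has_ndT _ _ _).mpr (Or.inl hk)),
      fun k hk => h k ((has_ndT _ _ _).mpr (Or.inr hk))⟩
  · rintro ⟨h, h'⟩ k hk
    rcases (has_ndT _ _ _).mp hk with hk | hk
    · exact h k hk
    · exact h' k hk

lemma Tm.Cld.alw {t : Tm} (h : t.Cld) : t.Alw := fun k hk => absurd hk (h k)

@[simp] lemma alw_tT (t : Tm) : (tT t).Alw := (cld_tT t).alw
@[simp] lemma alw_fT (φ : Fm) : (fT φ).Alw := (cld_fT φ).alw
@[simp] lemma alw_lT (l : List Fm) : (lT l).Alw := (cld_lT l).alw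
@[simp] lemma alw_ltT (l : List Tm) : (ltT l).Alw := (cld_ltT l).alw

end Helper31Con

end

section

/-!
# Derivations of facts about codes: equality, occurrence of variables
-/

namespace Helper31Con

open Function Filter Fm

/-- Admissible closed term. -/
def Cx.Ok (X : Cx) (t : Tm) : Prop := t.Cld ∧ t.len ≤ X.N + 1

lemma Cx.ok0 (X : Cx) : X.Ok Tm.zero := ⟨Tm.cld_zero, by simp [Tm.len]⟩

lemma Cx.okN (X : Cx) {n : ℕ} (h : n ≤ X.N) : X.Ok (nT n) :=
  ⟨Tm.cld_num n, by rw [Tm.len_num]; omega⟩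

lemma Cx.Ok.l {X : Cx} {t s : Tm} (h : X.Ok (ndT t s)) : X.Ok t := by
  refine ⟨fun k hk => h.1 k ((has_ndT _ _ _).mpr (Or.inl hk)), ?_⟩
  have := h.2; rw [len_ndT] at this; omega

lemma Cx.Ok.r {X : Cx} {t s : Tm} (h : X.Ok (ndT t s)) : X.Ok s := by
  refine ⟨fun k hk => h.1 k ((has_ndT _ _ _).mpr (Or.inr hk)), ?_⟩
  have := h.2; rw [len_ndT] at this; omega

lemma Cx.Ok.n {X : Cx} {n : ℕ} (h : X.Ok (nT n)) : n ≤ X.N := by
  have := h.2; rw [Tm.len_num] at this; omega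

lemma Cx.sbL {X : Cx} {l : List Tm} (h : ∀ t ∈ l, X.Ok t) : X.Sb (ta l) := sb_ta h

lemma Cx.sb1 {X : Cx} {a : Tm} (ha : X.Ok a) : X.Sb (ta [a]) := sb_ta (by
  intro t ht; rw [List.mem_singleton] at ht; rw [ht]; exact ha)

lemma Cx.sb2 {X : Cx} {a b : Tm} (ha : X.Ok a) (hb : X.Ok b) : X.Sb (ta [a, b]) := sb_ta (by
  intro t ht
  simp only [List.mem_cons, List.not_mem_nil, or_false] at ht
  rcases ht with rfl | rfl
  · exact ha
  · exact hb)

lemma Cx.sb3 {X : Cx} {a b c : Tm} (ha : X.Ok a) (hb : X.Ok b) (hc : X.Ok c) :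
    X.Sb (ta [a, b, c]) := sb_ta (by
  intro t ht
  simp only [List.mem_cons, List.not_mem_nil, or_false] at ht
  rcases ht with rfl | rfl | rfl
  · exact ha
  · exact hb
  · exact hc)

lemma Cx.sb4 {X : Cx} {a b c d : Tm} (ha : X.Ok a) (hb : X.Ok b) (hc : X.Ok c) (hd : X.Ok d) :
    X.Sb (ta [a, b, c, d]) := sb_ta (by
  intro t ht
  simp only [List.mem_cons, List.not_mem_nil, or_false] at ht
  rcases ht with rfl | rfl | rfl | rfl
  · exact ha
  · exact hb
  · exact hc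
  · exact hd)

lemma Cx.sb5 {X : Cx} {a b c d u : Tm} (ha : X.Ok a) (hb : X.Ok b) (hc : X.Ok c) (hd : X.Ok d)
    (hu : X.Ok u) : X.Sb (ta [a, b, c, d, u]) := sb_ta (by
  intro t ht
  simp only [List.mem_cons, List.not_mem_nil, or_false] at ht
  rcases ht with rfl | rfl | rfl | rfl | rfl
  · exact ha
  · exact hb
  · exact hc
  · exact hd
  · exact hu)

lemma Cx.sb6 {X : Cx} {a b c d u v : Tm} (ha : X.Ok a) (hb : X.Ok b) (hc : X.Ok c) (hd : X.Ok d)
    (hu : X.Ok u) (hv : X.Ok v) : X.Sb (ta [a, b, c, d, u, v]) := sb_ta (by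
  intro t ht
  simp only [List.mem_cons, List.not_mem_nil, or_false] at ht
  rcases ht with rfl | rfl | rfl | rfl | rfl | rfl
  · exact ha
  · exact hb
  · exact hc
  · exact hd
  · exact hu
  · exact hv)

lemma Cx.D.of_not {X : Cx} {d : ℕ} {α : Fm} (h : X.D d (neg α)) : X.Dc d α False :=
  ⟨fun h' => h'.elim, fun _ => h⟩

lemma Cx.D.of_true {X : Cx} {d : ℕ} {α : Fm} (h : X.D d α) : X.Dc d α True :=
  ⟨fun _ => h, fun h' => (h' trivial).elim⟩

lemma Cx.Dc.false {X : Cx} {d : ℕ} {α : Fm} {P : Prop} (h : X.Dc d α P) (hP : ¬ P) :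
    X.Dc d α False := (h.2 hP).of_not

lemma Cx.Dc.true {X : Cx} {d : ℕ} {α : Fm} {P : Prop} (h : X.Dc d α P) (hP : P) :
    X.Dc d α True := (h.1 hP).of_true

/-! ### Equality -/

lemma ev_eqN : Ev fun X => ∀ i j, i ≤ X.N → j ≤ X.N → X.Dc (i + 1) (eq (nT i) (nT j)) (i = j) := by
  have r1 := ev_rule [] (eq .zero .zero) (fun e _ => rfl)
  have r2 := ev_rule [] (neg (eq .zero (.succ (x 0)))) (fun e _ => by
    simp only [Fm.sat_neg, Fm.Sat, Tm.val]; omega)
  have r3 := ev_rule [] (neg (eq (.succ (x 0)) .zero)) (fun e _ => by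
    simp only [Fm.sat_neg, Fm.Sat, Tm.val]; omega)
  have r4 := ev_dec [] ![eq (x 0) (x 1)] (eq (.succ (x 0)) (.succ (x 1))) (fun p => p 0)
    (fun e _ => by simp [Fm.Sat, Tm.val])
  refine (((r1.and r2).and (r3.and r4)).and ev_one).mono ?_
  rintro X ⟨⟨⟨r1, r2⟩, ⟨r3, r4⟩⟩, h1⟩ i
  induction i with
  | zero =>
    intro j hi hj
    cases j with
    | zero =>
      exact ((r1 (ta []) 0 (X.sbL (by simp)) (by simp)).of_true).congr (by simp)
    | succ j =>
      have := r2 (ta [nT j]) 0 (X.sb1 (X.okN (by omega))) (by simp)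
      exact this.of_not.congr (by simp)
  | succ i ih =>
    intro j hi hj
    cases j with
    | zero =>
      have := r3 (ta [nT i]) 0 (X.sb1 (X.okN (by omega))) (by simp)
      exact (this.mono h1 (by omega)).of_not.congr (by simp)
    | succ j =>
      have := r4 (ta [nT i, nT j]) (i + 1) ![i = j] (X.sb2 (X.okN (by omega)) (X.okN (by omega)))
        (by simp) (by
          intro k
          fin_cases k
          exact ih j (by omega) (by omega))
      exact this.congr (by simp)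

lemma ev_pair : Ev fun X => ∀ (a b c d : Tm) (n : ℕ) (P Q : Prop), X.Ok a → X.Ok b → X.Ok c →
    X.Ok d → X.Dc n (eq a c) P → X.Dc n (eq b d) Q →
    X.Dc (n + 1) (eq (ndT a b) (ndT c d)) (P ∧ Q) := by
  have r := ev_dec [] ![eq (x 0) (x 2), eq (x 1) (x 3)] (eq (ndT (x 0) (x 1)) (ndT (x 2) (x 3)))
    (fun p => p 0 ∧ p 1) (fun e _ => by simp [Fm.Sat, Tm.val, nd_inj])
  refine r.mono ?_
  intro X r a b c d n P Q ha hb hc hd h1 h2
  exact r (ta [a, b, c, d]) n ![P, Q] (X.sb4 ha hb hc hd) (by simp) (by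
    intro k
    fin_cases k
    · exact h1
    · exact h2)

lemma ev_pairN : Ev fun X => ∀ (a b c d : Tm) (n : ℕ), X.Ok a → X.Ok b → X.Ok c →
    X.Ok d → X.D n (neg (eq a c)) → X.D (n + 1) (neg (eq (ndT a b) (ndT c d))) := by
  have r := ev_rule [neg (eq (x 0) (x 2))] (neg (eq (ndT (x 0) (x 1)) (ndT (x 2) (x 3))))
    (fun e h => by
      simp only [List.mem_singleton, forall_eq, Fm.sat_neg, Fm.Sat, Tm.val, val_ndT, nd_inj] at h ⊢
      tauto)
  refine r.mono ?_
  intro X r a b c d n ha hb hc hd h1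
  exact r (ta [a, b, c, d]) n (X.sb4 ha hb hc hd) (by
    intro α hα
    rw [List.mem_singleton] at hα
    rw [hα]
    exact h1)

lemma ev_refl : Ev fun X => ∀ (a : Tm), X.Ok a → X.D 1 (eq a a) := by
  refine (ev_rule [] (eq (x 0) (x 0)) (fun e _ => rfl)).mono ?_
  intro X r a ha
  exact r (ta [a]) 0 (X.sb1 ha) (by simp)

/-- Facts about tagged terms. -/
lemma ev_tag : Ev fun X => ∀ (c c' : ℕ) (a a' : Tm) (n : ℕ) (P : Prop), X.Ok (ndT (nT c) a) →
    X.Ok (ndT (nT c') a') → c ≤ 9 → c' ≤ 9 → 10 ≤ n → (c = c' → X.Dc n (eq a a') P) →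
    X.Dc (n + 1) (eq (ndT (nT c) a) (ndT (nT c') a')) (c = c' ∧ P) := by
  refine ((ev_eqN.and ev_one).and (ev_pair.and ev_pairN)).mono ?_
  rintro X ⟨⟨r1, r2⟩, ⟨r3, r4⟩⟩ c c' a a' n P h1 h2 hc hc' hn hP
  have e1 := r1 c c' h1.l.n h2.l.n
  by_cases hcc : c = c'
  · exact r3 _ _ _ _ _ _ _ h1.l h1.r h2.l h2.r (e1.mono r2 (by omega)) (hP hcc)
  · have := r4 _ a _ a' _ h1.l h1.r h2.l h2.r (e1.2 hcc)
    exact ((this.mono r2 (by omega)).of_not).congr (by tauto)

lemma ev_eqT : Ev fun X => ∀ t s : Tm, X.Ok (tT t) → X.Ok (tT s) →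
    X.Dc (t.len + 12) (eq (tT t) (tT s)) (t = s) := by
  refine ((ev_eqN.and ev_one).and (ev_pair.and ev_tag)).mono ?_
  rintro X ⟨⟨r1, h1⟩, ⟨r2, r3⟩⟩ t
  induction t with
  | var k =>
    intro s ht hs
    cases s with
    | var j =>
      have := r3 0 0 _ _ (k + 12) _ ht hs (by omega) (by omega) (by omega)
        (fun _ => (r1 k j ht.r.n hs.r.n).mono h1 (by omega))
      exact (this.mono h1 (by simp only [Tm.len]; omega)).congr (by simp)
    | zero => exact ((r3 0 1 _ _ (k + 12) False ht hs (by omega) (by omega) (by omega)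
        (fun h => by omega)).mono h1 (by simp only [Tm.len]; omega)).congr (by simp)
    | succ s => exact ((r3 0 2 _ _ (k + 12) False ht hs (by omega) (by omega) (by omega)
        (fun h => by omega)).mono h1 (by simp only [Tm.len]; omega)).congr (by simp)
    | add s r => exact ((r3 0 3 _ _ (k + 12) False ht hs (by omega) (by omega) (by omega)
        (fun h => by omega)).mono h1 (by simp only [Tm.len]; omega)).congr (by simp)
    | mul s r => exact ((r3 0 4 _ _ (k + 12) False ht hs (by omega) (by omega) (by omega)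
        (fun h => by omega)).mono h1 (by simp only [Tm.len]; omega)).congr (by simp)
  | zero =>
    intro s ht hs
    cases s with
    | var j => exact ((r3 1 0 _ _ 12 False ht hs (by omega) (by omega) (by omega)
        (fun h => by omega)).mono h1 (by simp only [Tm.len]; omega)).congr (by simp)
    | zero =>
      have := r3 1 1 _ _ 12 _ ht hs (by omega) (by omega) (by omega)
        (fun _ => (r1 0 0 (by omega) (by omega)).mono h1 (by omega))
      exact (this.mono h1 (by simp only [Tm.len]; omega)).congr (by simp)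
    | succ s => exact ((r3 1 2 _ _ 12 False ht hs (by omega) (by omega) (by omega)
        (fun h => by omega)).mono h1 (by simp only [Tm.len]; omega)).congr (by simp)
    | add s r => exact ((r3 1 3 _ _ 12 False ht hs (by omega) (by omega) (by omega)
        (fun h => by omega)).mono h1 (by simp only [Tm.len]; omega)).congr (by simp)
    | mul s r => exact ((r3 1 4 _ _ 12 False ht hs (by omega) (by omega) (by omega)
        (fun h => by omega)).mono h1 (by simp only [Tm.len]; omega)).congr (by simp)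
  | succ t ih =>
    intro s ht hs
    cases s with
    | var j => exact ((r3 2 0 _ _ 12 False ht hs (by omega) (by omega) (by omega)
        (fun h => by omega)).mono h1 (by simp only [Tm.len]; omega)).congr (by simp)
    | zero => exact ((r3 2 1 _ _ 12 False ht hs (by omega) (by omega) (by omega)
        (fun h => by omega)).mono h1 (by simp only [Tm.len]; omega)).congr (by simp)
    | succ s =>
      have := r3 2 2 _ _ (t.len + 12) _ ht hs (by omega) (by omega) (by omega)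
        (fun _ => ih s ht.r hs.r)
      exact (this.mono h1 (by simp only [Tm.len]; omega)).congr (by simp)
    | add s r => exact ((r3 2 3 _ _ 12 False ht hs (by omega) (by omega) (by omega)
        (fun h => by omega)).mono h1 (by simp only [Tm.len]; omega)).congr (by simp)
    | mul s r => exact ((r3 2 4 _ _ 12 False ht hs (by omega) (by omega) (by omega)
        (fun h => by omega)).mono h1 (by simp only [Tm.len]; omega)).congr (by simp)
  | add t t' ih ih' =>
    intro s ht hs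
    have p1 := t.len_pos
    have p2 := t'.len_pos
    cases s with
    | var j => exact ((r3 3 0 _ _ 12 False ht hs (by omega) (by omega) (by omega)
        (fun h => by omega)).mono h1 (by simp only [Tm.len]; omega)).congr (by simp)
    | zero => exact ((r3 3 1 _ _ 12 False ht hs (by omega) (by omega) (by omega)
        (fun h => by omega)).mono h1 (by simp only [Tm.len]; omega)).congr (by simp)
    | succ s => exact ((r3 3 2 _ _ 12 False ht hs (by omega) (by omega) (by omega)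
        (fun h => by omega)).mono h1 (by simp only [Tm.len]; omega)).congr (by simp)
    | add s s' =>
      have q := r2 _ _ _ _ (t.len + t'.len + 11) _ _ ht.r.l ht.r.r hs.r.l hs.r.r
        ((ih s ht.r.l hs.r.l).mono h1 (by omega)) ((ih' s' ht.r.r hs.r.r).mono h1 (by omega))
      have := r3 3 3 _ _ _ _ ht hs (by omega) (by omega) (by omega) (fun _ => q)
      exact (this.mono h1 (by simp only [Tm.len]; omega)).congr (by simp)
    | mul s r => exact ((r3 3 4 _ _ 12 False ht hs (by omega) (by omega) (by omega)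
        (fun h => by omega)).mono h1 (by simp only [Tm.len]; omega)).congr (by simp)
  | mul t t' ih ih' =>
    intro s ht hs
    have p1 := t.len_pos
    have p2 := t'.len_pos
    cases s with
    | var j => exact ((r3 4 0 _ _ 12 False ht hs (by omega) (by omega) (by omega)
        (fun h => by omega)).mono h1 (by simp only [Tm.len]; omega)).congr (by simp)
    | zero => exact ((r3 4 1 _ _ 12 False ht hs (by omega) (by omega) (by omega)
        (fun h => by omega)).mono h1 (by simp only [Tm.len]; omega)).congr (by simp)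
    | succ s => exact ((r3 4 2 _ _ 12 False ht hs (by omega) (by omega) (by omega)
        (fun h => by omega)).mono h1 (by simp only [Tm.len]; omega)).congr (by simp)
    | add s r => exact ((r3 4 3 _ _ 12 False ht hs (by omega) (by omega) (by omega)
        (fun h => by omega)).mono h1 (by simp only [Tm.len]; omega)).congr (by simp)
    | mul s s' =>
      have q := r2 _ _ _ _ (t.len + t'.len + 11) _ _ ht.r.l ht.r.r hs.r.l hs.r.r
        ((ih s ht.r.l hs.r.l).mono h1 (by omega)) ((ih' s' ht.r.r hs.r.r).mono h1 (by omega))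
      have := r3 4 4 _ _ _ _ ht hs (by omega) (by omega) (by omega) (fun _ => q)
      exact (this.mono h1 (by simp only [Tm.len]; omega)).congr (by simp)

/-- The tag of a formula. -/
def ftag : Fm → ℕ
  | .bot => 5
  | .eq _ _ => 6
  | .le _ _ => 7
  | .imp _ _ => 8
  | .all _ _ => 9

/-- The body of the term of a formula. -/
def fbod : Fm → Tm
  | .bot => nT 0
  | .eq t s => ndT (tT t) (tT s)
  | .le t s => ndT (tT t) (tT s)
  | .imp φ ψ => ndT (fT φ) (fT ψ)
  | .all k φ => ndT (nT k) (fT φ)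

lemma fT_eq (φ : Fm) : fT φ = ndT (nT (ftag φ)) (fbod φ) := by cases φ <;> rfl

lemma ftag_le (φ : Fm) : ftag φ ≤ 9 := by cases φ <;> simp [ftag]

/-- The tag of a term. -/
def ttag : Tm → ℕ
  | .var _ => 0
  | .zero => 1
  | .succ _ => 2
  | .add _ _ => 3
  | .mul _ _ => 4

/-- The body of the term of a term. -/
def tbod : Tm → Tm
  | .var k => nT k
  | .zero => nT 0
  | .succ t => tT t
  | .add t s => ndT (tT t) (tT s)
  | .mul t s => ndT (tT t) (tT s)

lemma tT_eq (t : Tm) : tT t = ndT (nT (ttag t)) (tbod t) := by cases t <;> rfl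

lemma ttag_le (t : Tm) : ttag t ≤ 9 := by cases t <;> simp [ttag]

/-- Terms with different tags. -/
lemma ev_tagN : Ev fun X => ∀ (c c' : ℕ) (a a' : Tm), X.Ok (ndT (nT c) a) →
    X.Ok (ndT (nT c') a') → c ≤ 9 → c' ≤ 9 → c ≠ c' →
    X.D 11 (neg (eq (ndT (nT c) a) (ndT (nT c') a'))) := by
  refine (ev_tag).mono ?_
  intro X r c c' a a' h1 h2 hc hc' hcc
  exact (r c c' a a' 10 False h1 h2 hc hc' le_rfl (fun h => absurd h hcc)).2 (by tauto)

lemma ev_eqF : Ev fun X => ∀ φ ψ : Fm, X.Ok (fT φ) → X.Ok (fT ψ) →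
    X.Dc (φ.len + 13) (eq (fT φ) (fT ψ)) (φ = ψ) := by
  refine ((ev_eqN.and (ev_eqT.and ev_one)).and ((ev_pair.and ev_tag).and ev_tagN)).mono ?_
  rintro X ⟨⟨r1, ⟨r4, h1⟩⟩, ⟨⟨r2, r3⟩, r5⟩⟩ φ
  have hne : ∀ φ ψ : Fm, ftag φ ≠ ftag ψ → X.Ok (fT φ) → X.Ok (fT ψ) →
      X.Dc (φ.len + 13) (eq (fT φ) (fT ψ)) (φ = ψ) := by
    intro φ ψ hn hφ hψ
    rw [fT_eq] at hφ hψ ⊢
    rw [fT_eq ψ]
    have := r5 _ _ _ _ hφ hψ (ftag_le _) (ftag_le _) hn
    exact (this.mono h1 (by omega)).of_not.congr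
      ⟨fun h => h.elim, fun h => hn (by rw [h])⟩
  have pos2 : ∀ (t t' s s' : Tm), X.Ok (ndT (tT t) (tT t')) → X.Ok (ndT (tT s) (tT s')) →
      X.Dc (t.len + t'.len + 12) (eq (ndT (tT t) (tT t')) (ndT (tT s) (tT s'))) (t = s ∧ t' = s') := by
    intro t t' s s' ht hs
    have p1 := t.len_pos
    have p2 := t'.len_pos
    exact r2 _ _ _ _ (t.len + t'.len + 11) _ _ ht.l ht.r hs.l hs.r
      ((r4 t s ht.l hs.l).mono h1 (by omega)) ((r4 t' s' ht.r hs.r).mono h1 (by omega))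
  induction φ with
  | bot =>
    intro ψ hφ hψ
    cases ψ with
    | bot =>
      have := r3 5 5 _ _ 12 _ hφ hψ (by omega) (by omega) (by omega)
        (fun _ => (r1 0 0 (by omega) (by omega)).mono h1 (by omega))
      exact (this.mono h1 (by simp only [Fm.len]; omega)).congr (by simp)
    | eq s s' => exact hne _ _ (by simp [ftag]) hφ hψ
    | le s s' => exact hne _ _ (by simp [ftag]) hφ hψ
    | imp s s' => exact hne _ _ (by simp [ftag]) hφ hψ
    | all s s' => exact hne _ _ (by simp [ftag]) hφ hψ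
  | eq t t' =>
    intro ψ hφ hψ
    cases ψ with
    | eq s s' =>
      have := r3 6 6 _ _ _ _ hφ hψ (by omega) (by omega) (by omega)
        (fun _ => pos2 t t' s s' hφ.r hψ.r)
      exact (this.mono h1 (by simp only [Fm.len]; omega)).congr (by simp)
    | bot => exact hne _ _ (by simp [ftag]) hφ hψ
    | le s s' => exact hne _ _ (by simp [ftag]) hφ hψ
    | imp s s' => exact hne _ _ (by simp [ftag]) hφ hψ
    | all s s' => exact hne _ _ (by simp [ftag]) hφ hψ
  | le t t' =>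
    intro ψ hφ hψ
    cases ψ with
    | le s s' =>
      have := r3 7 7 _ _ _ _ hφ hψ (by omega) (by omega) (by omega)
        (fun _ => pos2 t t' s s' hφ.r hψ.r)
      exact (this.mono h1 (by simp only [Fm.len]; omega)).congr (by simp)
    | bot => exact hne _ _ (by simp [ftag]) hφ hψ
    | eq s s' => exact hne _ _ (by simp [ftag]) hφ hψ
    | imp s s' => exact hne _ _ (by simp [ftag]) hφ hψ
    | all s s' => exact hne _ _ (by simp [ftag]) hφ hψ
  | imp φ φ' ih ih' =>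
    intro ψ hφ hψ
    cases ψ with
    | imp ψ ψ' =>
      have p1 := φ.len_pos
      have p2 := φ'.len_pos
      have q := r2 _ _ _ _ (φ.len + φ'.len + 12) _ _ hφ.r.l hφ.r.r hψ.r.l hψ.r.r
        ((ih ψ hφ.r.l hψ.r.l).mono h1 (by omega)) ((ih' ψ' hφ.r.r hψ.r.r).mono h1 (by omega))
      have := r3 8 8 _ _ _ _ hφ hψ (by omega) (by omega) (by omega) (fun _ => q)
      exact (this.mono h1 (by simp only [Fm.len]; omega)).congr (by simp)
    | bot => exact hne _ _ (by simp [ftag]) hφ hψ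
    | eq s s' => exact hne _ _ (by simp [ftag]) hφ hψ
    | le s s' => exact hne _ _ (by simp [ftag]) hφ hψ
    | all s s' => exact hne _ _ (by simp [ftag]) hφ hψ
  | all k φ ih =>
    intro ψ hφ hψ
    cases ψ with
    | all j ψ =>
      have p1 := φ.len_pos
      have q := r2 _ _ _ _ (φ.len + k + 13) _ _ hφ.r.l hφ.r.r hψ.r.l hψ.r.r
        ((r1 k j hφ.r.l.n hψ.r.l.n).mono h1 (by omega)) ((ih ψ hφ.r.r hψ.r.r).mono h1 (by omega))
      have := r3 9 9 _ _ _ _ hφ hψ (by omega) (by omega) (by omega) (fun _ => q)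
      exact (this.mono h1 (by simp only [Fm.len]; omega)).congr (by simp)
    | bot => exact hne _ _ (by simp [ftag]) hφ hψ
    | eq s s' => exact hne _ _ (by simp [ftag]) hφ hψ
    | le s s' => exact hne _ _ (by simp [ftag]) hφ hψ
    | imp s s' => exact hne _ _ (by simp [ftag]) hφ hψ

end Helper31Con

end

section

/-!
# Recursion equations for the syntactic relations
-/

namespace Helper31Con

open Function Filter Fm

lemma isT_var (a : ℕ) : IsT (nd 0 a) := ⟨.var a, rfl⟩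
lemma isT_zero : IsT (nd 1 0) := ⟨.zero, rfl⟩
lemma isT_succ {a : ℕ} (h : IsT a) : IsT (nd 2 a) := by
  obtain ⟨t, rfl⟩ := h; exact ⟨.succ t, rfl⟩
lemma isT_add {a b : ℕ} (h : IsT a) (h' : IsT b) : IsT (nd 3 (nd a b)) := by
  obtain ⟨t, rfl⟩ := h; obtain ⟨s, rfl⟩ := h'; exact ⟨.add t s, rfl⟩
lemma isT_mul {a b : ℕ} (h : IsT a) (h' : IsT b) : IsT (nd 4 (nd a b)) := by
  obtain ⟨t, rfl⟩ := h; obtain ⟨s, rfl⟩ := h'; exact ⟨.mul t s, rfl⟩

lemma isF_bot : IsF (nd 5 0) := ⟨.bot, rfl⟩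
lemma isF_eq {a b : ℕ} (h : IsT a) (h' : IsT b) : IsF (nd 6 (nd a b)) := by
  obtain ⟨t, rfl⟩ := h; obtain ⟨s, rfl⟩ := h'; exact ⟨.eq t s, rfl⟩
lemma isF_le {a b : ℕ} (h : IsT a) (h' : IsT b) : IsF (nd 7 (nd a b)) := by
  obtain ⟨t, rfl⟩ := h; obtain ⟨s, rfl⟩ := h'; exact ⟨.le t s, rfl⟩
lemma isF_imp {a b : ℕ} (h : IsF a) (h' : IsF b) : IsF (nd 8 (nd a b)) := by
  obtain ⟨t, rfl⟩ := h; obtain ⟨s, rfl⟩ := h'; exact ⟨.imp t s, rfl⟩
lemma isF_all {b : ℕ} (a : ℕ) (h' : IsF b) : IsF (nd 9 (nd a b)) := by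
  obtain ⟨s, rfl⟩ := h'; exact ⟨.all a s, rfl⟩

lemma isL_nil : IsL 0 := ⟨[], rfl⟩
lemma isL_cons {a b : ℕ} (h : IsF a) (h' : IsL b) : IsL (nd a b) := by
  obtain ⟨φ, rfl⟩ := h; obtain ⟨l, rfl⟩ := h'; exact ⟨φ :: l, rfl⟩

/-! ### Occurrence -/

lemma hasR_var {a k : ℕ} : HasR (nd 0 a) k ↔ a = k := by
  constructor
  · rintro ⟨t, h, h'⟩
    cases t <;> simp [tc, nd_inj] at h
    rw [h]; exact h'
  · rintro rfl; exact ⟨.var a, rfl, rfl⟩

lemma hasR_zero {k : ℕ} : ¬ HasR (nd 1 0) k := by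
  rintro ⟨t, h, h'⟩
  cases t <;> simp [tc, nd_inj] at h
  exact h'

lemma hasR_succ {a k : ℕ} : HasR (nd 2 a) k ↔ HasR a k := by
  constructor
  · rintro ⟨t, h, h'⟩
    cases t <;> simp [tc, nd_inj] at h
    exact ⟨_, h, h'⟩
  · rintro ⟨t, rfl, h⟩; exact ⟨.succ t, rfl, h⟩

lemma hasR_add {a b k : ℕ} (ha : IsT a) (hb : IsT b) :
    HasR (nd 3 (nd a b)) k ↔ HasR a k ∨ HasR b k := by
  constructor
  · rintro ⟨t, h, h'⟩
    cases t <;> simp [tc, nd_inj] at h
    rcases h' with h' | h'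
    · exact Or.inl ⟨_, h.1, h'⟩
    · exact Or.inr ⟨_, h.2, h'⟩
  · rintro (⟨t, rfl, h⟩ | ⟨t, rfl, h⟩)
    · obtain ⟨s, rfl⟩ := hb; exact ⟨.add t s, rfl, Or.inl h⟩
    · obtain ⟨s, rfl⟩ := ha; exact ⟨.add s t, rfl, Or.inr h⟩

lemma hasR_mul {a b k : ℕ} (ha : IsT a) (hb : IsT b) :
    HasR (nd 4 (nd a b)) k ↔ HasR a k ∨ HasR b k := by
  constructor
  · rintro ⟨t, h, h'⟩
    cases t <;> simp [tc, nd_inj] at h
    rcases h' with h' | h'
    · exact Or.inl ⟨_, h.1, h'⟩
    · exact Or.inr ⟨_, h.2, h'⟩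
  · rintro (⟨t, rfl, h⟩ | ⟨t, rfl, h⟩)
    · obtain ⟨s, rfl⟩ := hb; exact ⟨.mul t s, rfl, Or.inl h⟩
    · obtain ⟨s, rfl⟩ := ha; exact ⟨.mul s t, rfl, Or.inr h⟩

lemma freeR_bot {k : ℕ} : ¬ FreeR (nd 5 0) k := by
  rintro ⟨t, h, h'⟩
  cases t <;> simp [fc, nd_inj] at h
  exact h'

lemma freeR_eq {a b k : ℕ} (ha : IsT a) (hb : IsT b) :
    FreeR (nd 6 (nd a b)) k ↔ HasR a k ∨ HasR b k := by
  constructor
  · rintro ⟨t, h, h'⟩
    cases t <;> simp [fc, nd_inj] at h
    rcases h' with h' | h'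
    · exact Or.inl ⟨_, h.1, h'⟩
    · exact Or.inr ⟨_, h.2, h'⟩
  · rintro (⟨t, rfl, h⟩ | ⟨t, rfl, h⟩)
    · obtain ⟨s, rfl⟩ := hb; exact ⟨.eq t s, rfl, Or.inl h⟩
    · obtain ⟨s, rfl⟩ := ha; exact ⟨.eq s t, rfl, Or.inr h⟩

lemma freeR_le {a b k : ℕ} (ha : IsT a) (hb : IsT b) :
    FreeR (nd 7 (nd a b)) k ↔ HasR a k ∨ HasR b k := by
  constructor
  · rintro ⟨t, h, h'⟩
    cases t <;> simp [fc, nd_inj] at h
    rcases h' with h' | h'
    · exact Or.inl ⟨_, h.1, h'⟩
    · exact Or.inr ⟨_, h.2, h'⟩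
  · rintro (⟨t, rfl, h⟩ | ⟨t, rfl, h⟩)
    · obtain ⟨s, rfl⟩ := hb; exact ⟨.le t s, rfl, Or.inl h⟩
    · obtain ⟨s, rfl⟩ := ha; exact ⟨.le s t, rfl, Or.inr h⟩

lemma freeR_imp {a b k : ℕ} (ha : IsF a) (hb : IsF b) :
    FreeR (nd 8 (nd a b)) k ↔ FreeR a k ∨ FreeR b k := by
  constructor
  · rintro ⟨t, h, h'⟩
    cases t <;> simp [fc, nd_inj] at h
    rcases h' with h' | h'
    · exact Or.inl ⟨_, h.1, h'⟩
    · exact Or.inr ⟨_, h.2, h'⟩
  · rintro (⟨t, rfl, h⟩ | ⟨t, rfl, h⟩)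
    · obtain ⟨s, rfl⟩ := hb; exact ⟨.imp t s, rfl, Or.inl h⟩
    · obtain ⟨s, rfl⟩ := ha; exact ⟨.imp s t, rfl, Or.inr h⟩

lemma freeR_all {j a k : ℕ} : FreeR (nd 9 (nd j a)) k ↔ j ≠ k ∧ FreeR a k := by
  constructor
  · rintro ⟨t, h, h'⟩
    cases t <;> simp [fc, nd_inj] at h
    rw [h.1]
    exact ⟨h'.1, _, h.2, h'.2⟩
  · rintro ⟨h, t, rfl, h'⟩
    exact ⟨.all j t, rfl, h, h'⟩

/-! ### Free for -/

lemma ffr_bot {k r : ℕ} (hr : IsT r) : FFR (nd 5 0) k r := by
  obtain ⟨r, rfl⟩ := hr; exact ⟨.bot, r, rfl, rfl, trivial⟩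

lemma ffr_eq {a b k r : ℕ} (ha : IsT a) (hb : IsT b) (hr : IsT r) : FFR (nd 6 (nd a b)) k r := by
  obtain ⟨r, rfl⟩ := hr; obtain ⟨t, rfl⟩ := ha; obtain ⟨s, rfl⟩ := hb
  exact ⟨.eq t s, r, rfl, rfl, trivial⟩

lemma ffr_le {a b k r : ℕ} (ha : IsT a) (hb : IsT b) (hr : IsT r) : FFR (nd 7 (nd a b)) k r := by
  obtain ⟨r, rfl⟩ := hr; obtain ⟨t, rfl⟩ := ha; obtain ⟨s, rfl⟩ := hb
  exact ⟨.le t s, r, rfl, rfl, trivial⟩

lemma ffr_imp {a b k r : ℕ} : FFR (nd 8 (nd a b)) k r ↔ FFR a k r ∧ FFR b k r := by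
  constructor
  · rintro ⟨φ, r', h, h', h''⟩
    cases φ <;> simp [fc, nd_inj] at h
    exact ⟨⟨_, r', h.1, h', h''.1⟩, ⟨_, r', h.2, h', h''.2⟩⟩
  · rintro ⟨⟨φ, r', rfl, h, h'⟩, ⟨ψ, r'', rfl, h2, h3⟩⟩
    obtain rfl : r' = r'' := tc_inj (h.symm.trans h2)
    exact ⟨.imp φ ψ, r', rfl, h, h', h3⟩

lemma ffr_all {j a k r : ℕ} (ha : IsF a) (hr : IsT r) : FFR (nd 9 (nd j a)) k r ↔
    j = k ∨ ¬ FreeR a k ∨ (¬ HasR r j ∧ FFR a k r) := by
  constructor
  · rintro ⟨φ, r', h, h', h''⟩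
    cases φ <;> simp [fc, nd_inj] at h
    obtain ⟨rfl, rfl⟩ := h
    rcases h'' with h'' | h'' | h''
    · exact Or.inl h''
    · refine Or.inr (Or.inl ?_)
      rintro ⟨φ', h1, h2⟩
      rw [← fc_inj h1] at h2
      exact h'' h2
    · refine Or.inr (Or.inr ⟨?_, _, r', rfl, h', h''.2⟩)
      rintro ⟨t', h1, h2⟩
      rw [h'] at h1
      rw [← tc_inj h1] at h2
      exact h''.1 h2
  · obtain ⟨φ, rfl⟩ := ha
    obtain ⟨r, rfl⟩ := hr
    rintro (h | h | ⟨h, φ', r', h1, h2, h3⟩)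
    · exact ⟨.all j φ, r, rfl, rfl, Or.inl h⟩
    · exact ⟨.all j φ, r, rfl, rfl, Or.inr (Or.inl fun h' => h ⟨φ, rfl, h'⟩)⟩
    · obtain rfl := fc_inj h1
      obtain rfl := tc_inj h2
      exact ⟨.all j φ, r, rfl, rfl, Or.inr (Or.inr ⟨fun h' => h ⟨r, rfl, h'⟩, h3⟩)⟩

/-! ### Substitution -/

lemma sbT_var {a k r y : ℕ} (hr : IsT r) : SbT (nd 0 a) k r y ↔
    (a = k ∧ y = r) ∨ (a ≠ k ∧ y = nd 0 a) := by
  obtain ⟨r, rfl⟩ := hr
  constructor
  · rintro ⟨t, r', h, h', h''⟩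
    cases t <;> simp [tc, nd_inj] at h
    obtain rfl := tc_inj h'
    subst h
    by_cases hk : a = k
    · exact Or.inl ⟨hk, by simpa [Tm.sub, hk] using h''⟩
    · exact Or.inr ⟨hk, by simpa [Tm.sub, hk, tc] using h''⟩
  · rintro (⟨h, h'⟩ | ⟨h, h'⟩)
    · exact ⟨.var a, r, rfl, rfl, by simp [Tm.sub, h, h']⟩
    · exact ⟨.var a, r, rfl, rfl, by simp [Tm.sub, h, h', tc]⟩

lemma sbT_zero {k r y : ℕ} (hr : IsT r) : SbT (nd 1 0) k r y ↔ y = nd 1 0 := by
  obtain ⟨r, rfl⟩ := hr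
  constructor
  · rintro ⟨t, r', h, h', h''⟩
    cases t <;> simp [tc, nd_inj] at h
    exact h''
  · rintro rfl
    exact ⟨.zero, r, rfl, rfl, rfl⟩

lemma sbT_succ {a k r b : ℕ} : SbT (nd 2 a) k r (nd 2 b) ↔ SbT a k r b := by
  constructor
  · rintro ⟨t, r', h, h', h''⟩
    cases t <;> simp [tc, nd_inj] at h
    simp only [Tm.sub, tc, nd_inj, true_and] at h''
    exact ⟨_, r', h, h', h''⟩
  · rintro ⟨t, r', rfl, h', rfl⟩
    exact ⟨.succ t, r', rfl, h', rfl⟩

lemma sbT_add {a b k r c d : ℕ} : SbT (nd 3 (nd a b)) k r (nd 3 (nd c d)) ↔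
    SbT a k r c ∧ SbT b k r d := by
  constructor
  · rintro ⟨t, r', h, h', h''⟩
    cases t <;> simp [tc, nd_inj] at h
    simp only [Tm.sub, tc, nd_inj, true_and] at h''
    exact ⟨⟨_, r', h.1, h', h''.1⟩, ⟨_, r', h.2, h', h''.2⟩⟩
  · rintro ⟨⟨t, r', rfl, h', rfl⟩, ⟨s, r'', rfl, h'', rfl⟩⟩
    obtain rfl : r' = r'' := tc_inj (h'.symm.trans h'')
    exact ⟨.add t s, r', rfl, h', rfl⟩

lemma sbT_mul {a b k r c d : ℕ} : SbT (nd 4 (nd a b)) k r (nd 4 (nd c d)) ↔
    SbT a k r c ∧ SbT b k r d := by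
  constructor
  · rintro ⟨t, r', h, h', h''⟩
    cases t <;> simp [tc, nd_inj] at h
    simp only [Tm.sub, tc, nd_inj, true_and] at h''
    exact ⟨⟨_, r', h.1, h', h''.1⟩, ⟨_, r', h.2, h', h''.2⟩⟩
  · rintro ⟨⟨t, r', rfl, h', rfl⟩, ⟨s, r'', rfl, h'', rfl⟩⟩
    obtain rfl : r' = r'' := tc_inj (h'.symm.trans h'')
    exact ⟨.mul t s, r', rfl, h', rfl⟩

lemma sbT_ne {c c' a b k r : ℕ} (h0 : c ≠ 0) (h : c ≠ c') : ¬ SbT (nd c a) k r (nd c' b) := by
  rintro ⟨t, r', h1, _, h3⟩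
  cases t with
  | var j => simp only [tc, nd_inj] at h1; exact h0 h1.1
  | zero => simp only [Tm.sub, tc, nd_inj] at h1 h3; omega
  | succ t => simp only [Tm.sub, tc, nd_inj] at h1 h3; omega
  | add t s => simp only [Tm.sub, tc, nd_inj] at h1 h3; omega
  | mul t s => simp only [Tm.sub, tc, nd_inj] at h1 h3; omega

lemma sbF_bot {k r y : ℕ} (hr : IsT r) : SbF (nd 5 0) k r y ↔ y = nd 5 0 := by
  obtain ⟨r, rfl⟩ := hr
  constructor
  · rintro ⟨t, r', h, h', h''⟩
    cases t <;> simp [fc, nd_inj] at h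
    exact h''
  · rintro rfl
    exact ⟨.bot, r, rfl, rfl, rfl⟩

lemma sbF_eq {a b k r c d : ℕ} : SbF (nd 6 (nd a b)) k r (nd 6 (nd c d)) ↔
    SbT a k r c ∧ SbT b k r d := by
  constructor
  · rintro ⟨t, r', h, h', h''⟩
    cases t <;> simp [fc, nd_inj] at h
    simp only [Fm.sub, fc, nd_inj, true_and] at h''
    exact ⟨⟨_, r', h.1, h', h''.1⟩, ⟨_, r', h.2, h', h''.2⟩⟩
  · rintro ⟨⟨t, r', rfl, h', rfl⟩, ⟨s, r'', rfl, h'', rfl⟩⟩
    obtain rfl : r' = r'' := tc_inj (h'.symm.trans h'')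
    exact ⟨.eq t s, r', rfl, h', rfl⟩

lemma sbF_le {a b k r c d : ℕ} : SbF (nd 7 (nd a b)) k r (nd 7 (nd c d)) ↔
    SbT a k r c ∧ SbT b k r d := by
  constructor
  · rintro ⟨t, r', h, h', h''⟩
    cases t <;> simp [fc, nd_inj] at h
    simp only [Fm.sub, fc, nd_inj, true_and] at h''
    exact ⟨⟨_, r', h.1, h', h''.1⟩, ⟨_, r', h.2, h', h''.2⟩⟩
  · rintro ⟨⟨t, r', rfl, h', rfl⟩, ⟨s, r'', rfl, h'', rfl⟩⟩
    obtain rfl : r' = r'' := tc_inj (h'.symm.trans h'')
    exact ⟨.le t s, r', rfl, h', rfl⟩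

lemma sbF_imp {a b k r c d : ℕ} : SbF (nd 8 (nd a b)) k r (nd 8 (nd c d)) ↔
    SbF a k r c ∧ SbF b k r d := by
  constructor
  · rintro ⟨t, r', h, h', h''⟩
    cases t <;> simp [fc, nd_inj] at h
    simp only [Fm.sub, fc, nd_inj, true_and] at h''
    exact ⟨⟨_, r', h.1, h', h''.1⟩, ⟨_, r', h.2, h', h''.2⟩⟩
  · rintro ⟨⟨t, r', rfl, h', rfl⟩, ⟨s, r'', rfl, h'', rfl⟩⟩
    obtain rfl : r' = r'' := tc_inj (h'.symm.trans h'')
    exact ⟨.imp t s, r', rfl, h', rfl⟩

lemma sbF_all {j a k r i b : ℕ} (ha : IsF a) (hr : IsT r) :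
    SbF (nd 9 (nd j a)) k r (nd 9 (nd i b)) ↔
    i = j ∧ ((j = k ∧ b = a) ∨ (j ≠ k ∧ SbF a k r b)) := by
  constructor
  · rintro ⟨t, r', h, h', h''⟩
    cases t <;> simp [fc, nd_inj] at h
    obtain ⟨rfl, rfl⟩ := h
    by_cases hk : j = k
    · simp only [Fm.sub, if_pos hk, fc, nd_inj, true_and] at h''
      exact ⟨h''.1, Or.inl ⟨hk, h''.2⟩⟩
    · simp only [Fm.sub, if_neg hk, fc, nd_inj, true_and] at h''
      exact ⟨h''.1, Or.inr ⟨hk, _, r', rfl, h', h''.2⟩⟩
  · obtain ⟨φ, rfl⟩ := ha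
    obtain ⟨r, rfl⟩ := hr
    rintro ⟨rfl, ⟨h, rfl⟩ | ⟨h, φ', r', h1, h2, rfl⟩⟩
    · exact ⟨.all i φ, r, rfl, rfl, by simp [Fm.sub, h, fc]⟩
    · obtain rfl := fc_inj h1
      obtain rfl := tc_inj h2
      exact ⟨.all i φ, r, rfl, rfl, by simp [Fm.sub, h, fc]⟩

lemma sbF_ne {c c' a b k r : ℕ} (h : c ≠ c') : ¬ SbF (nd c a) k r (nd c' b) := by
  rintro ⟨t, r', h1, _, h3⟩
  cases t with
  | bot => simp only [Fm.sub, fc, nd_inj] at h1 h3; omega
  | eq t s => simp only [Fm.sub, fc, nd_inj] at h1 h3; omega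
  | le t s => simp only [Fm.sub, fc, nd_inj] at h1 h3; omega
  | imp t s => simp only [Fm.sub, fc, nd_inj] at h1 h3; omega
  | all j t =>
    by_cases hk : j = k
    · simp only [Fm.sub, if_pos hk, fc, nd_inj] at h1 h3; omega
    · simp only [Fm.sub, if_neg hk, fc, nd_inj] at h1 h3; omega

/-! ### Membership -/

lemma meR_nil {y : ℕ} : ¬ MeR 0 y := by
  rintro ⟨l, φ, h, _, h'⟩
  cases l with
  | nil => simp at h'
  | cons ψ l => simp only [lc] at h; have := nd_pos (fc ψ) (lc l); omega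

lemma meR_cons {y L w : ℕ} (hy : IsF y) (hx : IsF w) (hL : IsL L) :
    MeR (nd y L) w ↔ y = w ∨ MeR L w := by
  obtain ⟨φ, rfl⟩ := hy
  obtain ⟨ψ, rfl⟩ := hx
  obtain ⟨l, rfl⟩ := hL
  have h1 : nd (fc φ) (lc l) = lc (φ :: l) := rfl
  rw [h1, meR_iff, meR_iff, List.mem_cons]
  exact or_congr_left ⟨fun h => by rw [h], fun h => fc_inj h.symm⟩

lemma mpR_nil {th c : ℕ} : ¬ MpR 0 th c := by
  rintro ⟨χ, h, _⟩
  exact meR_nil h

lemma meR_isF {L y : ℕ} (h : MeR L y) : IsF y := by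
  obtain ⟨_, φ, _, h, _⟩ := h; exact ⟨φ, h⟩

lemma isF_imp_inv {a b : ℕ} (h : IsF (nd 8 (nd a b))) : IsF a ∧ IsF b := by
  obtain ⟨φ, h⟩ := h
  cases φ <;> simp [fc, nd_inj] at h
  exact ⟨⟨_, h.1⟩, ⟨_, h.2⟩⟩

lemma mpR_cons_imp {χ ψ L th c : ℕ} (hχ : IsF χ) (hψ : IsF ψ) (hc : IsF c) (hL : IsL L) :
    MpR (nd (nd 8 (nd χ ψ)) L) th c ↔ (ψ = c ∧ MeR th χ) ∨ MpR L th c := by
  constructor
  · rintro ⟨ρ, h, h'⟩
    have hρ := meR_isF h'
    rw [meR_cons (isF_imp hχ hψ) (isF_imp hρ hc) hL] at h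
    rcases h with h | h
    · simp only [nd_inj, true_and] at h
      exact Or.inl ⟨h.2, by rw [h.1]; exact h'⟩
    · exact Or.inr ⟨ρ, h, h'⟩
  · rintro (⟨rfl, h⟩ | ⟨ρ, h, h'⟩)
    · exact ⟨χ, (meR_cons (isF_imp hχ hψ) (isF_imp hχ hψ) hL).mpr (Or.inl rfl), h⟩
    · exact ⟨ρ, (meR_cons (isF_imp hχ hψ) (meR_isF h) hL).mpr (Or.inr h), h'⟩

lemma mpR_cons_ne {a b L th c : ℕ} (ha : a ≠ 8) (hF : IsF (nd a b)) (hL : IsL L) :
    MpR (nd (nd a b) L) th c ↔ MpR L th c := by
  constructor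
  · rintro ⟨ρ, h, h'⟩
    rw [meR_cons hF (meR_isF h) hL] at h
    rcases h with h | h
    · simp only [nd_inj] at h
      exact absurd h.1 ha
    · exact ⟨ρ, h, h'⟩
  · rintro ⟨ρ, h, h'⟩
    exact ⟨ρ, (meR_cons hF (meR_isF h) hL).mpr (Or.inr h), h'⟩

end Helper31Con

end

section

/-!
# Derivations of facts about codes
-/

namespace Helper31Con

open Function Filter Fm

lemma IfaceC.satC {R : ℕ → ℕ → ℕ → ℕ → ℕ → Prop} (I : IfaceC R) {j : ℕ} {t₀ t₁ t₂ t₃ : Tm}
    {e : ℕ → ℕ} (h : t₀.Alw ∧ t₁.Alw ∧ t₂.Alw ∧ t₃.Alw) :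
    (I.A j t₀ t₁ t₂ t₃).Sat e ↔ R j (t₀.val e) (t₁.val e) (t₂.val e) (t₃.val e) :=
  I.sat _ _ _ _ _ _ h.1 h.2.1 h.2.2.1 h.2.2.2

lemma IfaceC.sbA {R : ℕ → ℕ → ℕ → ℕ → ℕ → Prop} (I : IfaceC R) {j : ℕ} {t₀ t₁ t₂ t₃ : Tm}
    {τ : ℕ → Tm} (hτ : ∀ k, (τ k).Cld) (h : t₀.Alw ∧ t₁.Alw ∧ t₂.Alw ∧ t₃.Alw) :
    (I.A j t₀ t₁ t₂ t₃).sb τ = I.A j (t₀.sb τ) (t₁.sb τ) (t₂.sb τ) (t₃.sb τ) :=
  I.sbc _ _ _ _ _ _ hτ h.1 h.2.1 h.2.2.1 h.2.2.2

variable (I : IfaceC RE)

/-- Atoms with fewer arguments. -/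
abbrev IfaceC.A1 (j : ℕ) (a : Tm) : Fm := I.A j a .zero .zero .zero
/-- Atoms with fewer arguments. -/
abbrev IfaceC.A2 (j : ℕ) (a b : Tm) : Fm := I.A j a b .zero .zero
/-- Atoms with fewer arguments. -/
abbrev IfaceC.A3 (j : ℕ) (a b c : Tm) : Fm := I.A j a b c .zero

/-! ### Types -/

lemma ev_isT : Ev fun X => ∀ t, X.Ok (tT t) → X.D (t.len + 1) (I.A1 0 (tT t)) := by
  have r0 := ev_rule [] (I.A1 0 (ndT (nT 0) (x 0))) (fun e _ => by
    rw [I.satC (by simp [Al])]; simp only [val_ndT, Tm.val_num, Tm.val]; exact isT_var _)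
  have r1 := ev_rule [] (I.A1 0 (ndT (nT 1) (nT 0))) (fun e _ => by
    rw [I.satC (by simp)]; simp only [val_ndT, Tm.val_num]; exact isT_zero)
  have r2 := ev_rule [I.A1 0 (x 0)] (I.A1 0 (ndT (nT 2) (x 0))) (fun e h => by
    rw [List.forall_mem_singleton, I.satC (by simp [Al])] at h
    rw [I.satC (by simp [Al])]; simp only [val_ndT, Tm.val_num, Tm.val]; exact isT_succ h)
  have r3 := ev_rule [I.A1 0 (x 0), I.A1 0 (x 1)] (I.A1 0 (ndT (nT 3) (ndT (x 0) (x 1))))
    (fun e h => by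
    rw [List.forall_mem_cons, List.forall_mem_singleton, I.satC (by simp [Al]),
      I.satC (by simp [Al])] at h
    rw [I.satC (by simp [Al])]; simp only [val_ndT, Tm.val_num, Tm.val]; exact isT_add h.1 h.2)
  have r4 := ev_rule [I.A1 0 (x 0), I.A1 0 (x 1)] (I.A1 0 (ndT (nT 4) (ndT (x 0) (x 1))))
    (fun e h => by
    rw [List.forall_mem_cons, List.forall_mem_singleton, I.satC (by simp [Al]),
      I.satC (by simp [Al])] at h
    rw [I.satC (by simp [Al])]; simp only [val_ndT, Tm.val_num, Tm.val]; exact isT_mul h.1 h.2)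
  refine ((ev_one.and (r0.and r1)).and (r2.and (r3.and r4))).mono ?_
  rintro X ⟨⟨h1, ⟨r0, r1⟩⟩, ⟨r2, ⟨r3, r4⟩⟩⟩ t
  induction t with
  | var k =>
    intro ht
    have sb := X.sb1 ht.r
    have := r0 _ 0 sb (by simp)
    rw [I.sbA sb.cld (by simp [Al])] at this
    exact Cx.D.mono h1 this (by omega)
  | zero =>
    intro ht
    have sb := X.sbL (l := []) (by simp)
    have := r1 _ 0 sb (by simp)
    rw [I.sbA sb.cld (by simp)] at this
    exact Cx.D.mono h1 this (by omega)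
  | succ t ih =>
    intro ht
    have sb := X.sb1 ht.r
    have := r2 _ (t.len + 1) sb (by
      rw [List.forall_mem_singleton, I.sbA sb.cld (by simp [Al])]; exact ih ht.r)
    rw [I.sbA sb.cld (by simp [Al])] at this
    exact Cx.D.mono h1 this (by simp only [Tm.len]; omega)
  | add t s iht ihs =>
    intro ht
    have p1 := t.len_pos
    have p2 := s.len_pos
    have sb := X.sb2 ht.r.l ht.r.r
    have := r3 _ (t.len + s.len) sb (by
      rw [List.forall_mem_cons, List.forall_mem_singleton, I.sbA sb.cld (by simp [Al]),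
        I.sbA sb.cld (by simp [Al])]
      exact ⟨(iht ht.r.l).mono h1 (by omega), (ihs ht.r.r).mono h1 (by omega)⟩)
    rw [I.sbA sb.cld (by simp [Al])] at this
    exact Cx.D.mono h1 this (by simp only [Tm.len]; omega)
  | mul t s iht ihs =>
    intro ht
    have p1 := t.len_pos
    have p2 := s.len_pos
    have sb := X.sb2 ht.r.l ht.r.r
    have := r4 _ (t.len + s.len) sb (by
      rw [List.forall_mem_cons, List.forall_mem_singleton, I.sbA sb.cld (by simp [Al]),
        I.sbA sb.cld (by simp [Al])]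
      exact ⟨(iht ht.r.l).mono h1 (by omega), (ihs ht.r.r).mono h1 (by omega)⟩)
    rw [I.sbA sb.cld (by simp [Al])] at this
    exact Cx.D.mono h1 this (by simp only [Tm.len]; omega)

lemma ev_isF : Ev fun X => ∀ φ, X.Ok (fT φ) → X.D (φ.len + 2) (I.A1 1 (fT φ)) := by
  have r0 := ev_rule [] (I.A1 1 (ndT (nT 5) (nT 0))) (fun e _ => by
    rw [I.satC (by simp)]; simp only [val_ndT, Tm.val_num]; exact isF_bot)
  have r1 := ev_rule [I.A1 0 (x 0), I.A1 0 (x 1)] (I.A1 1 (ndT (nT 6) (ndT (x 0) (x 1))))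
    (fun e h => by
    rw [List.forall_mem_cons, List.forall_mem_singleton, I.satC (by simp [Al]),
      I.satC (by simp [Al])] at h
    rw [I.satC (by simp [Al])]; simp only [val_ndT, Tm.val_num, Tm.val]; exact isF_eq h.1 h.2)
  have r2 := ev_rule [I.A1 0 (x 0), I.A1 0 (x 1)] (I.A1 1 (ndT (nT 7) (ndT (x 0) (x 1))))
    (fun e h => by
    rw [List.forall_mem_cons, List.forall_mem_singleton, I.satC (by simp [Al]),
      I.satC (by simp [Al])] at h
    rw [I.satC (by simp [Al])]; simp only [val_ndT, Tm.val_num, Tm.val]; exact isF_le h.1 h.2)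
  have r3 := ev_rule [I.A1 1 (x 0), I.A1 1 (x 1)] (I.A1 1 (ndT (nT 8) (ndT (x 0) (x 1))))
    (fun e h => by
    rw [List.forall_mem_cons, List.forall_mem_singleton, I.satC (by simp [Al]),
      I.satC (by simp [Al])] at h
    rw [I.satC (by simp [Al])]; simp only [val_ndT, Tm.val_num, Tm.val]; exact isF_imp h.1 h.2)
  have r4 := ev_rule [I.A1 1 (x 1)] (I.A1 1 (ndT (nT 9) (ndT (x 0) (x 1))))
    (fun e h => by
    rw [List.forall_mem_singleton, I.satC (by simp [Al])] at h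
    rw [I.satC (by simp [Al])]; simp only [val_ndT, Tm.val_num, Tm.val]; exact isF_all _ h)
  refine (((ev_one.and (ev_isT I)).and (r0.and r1)).and (r2.and (r3.and r4))).mono ?_
  rintro X ⟨⟨⟨h1, rt⟩, ⟨r0, r1⟩⟩, ⟨r2, ⟨r3, r4⟩⟩⟩ φ
  induction φ with
  | bot =>
    intro ht
    have sb := X.sbL (l := []) (by simp)
    have := r0 _ 0 sb (by simp)
    rw [I.sbA sb.cld (by simp)] at this
    exact Cx.D.mono h1 this (by omega)
  | eq t s =>
    intro ht
    have p1 := t.len_pos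
    have p2 := s.len_pos
    have sb := X.sb2 ht.r.l ht.r.r
    have := r1 _ (t.len + s.len) sb (by
      rw [List.forall_mem_cons, List.forall_mem_singleton, I.sbA sb.cld (by simp [Al]),
        I.sbA sb.cld (by simp [Al])]
      exact ⟨(rt _ ht.r.l).mono h1 (by omega), (rt _ ht.r.r).mono h1 (by omega)⟩)
    rw [I.sbA sb.cld (by simp [Al])] at this
    exact Cx.D.mono h1 this (by simp only [Fm.len]; omega)
  | le t s =>
    intro ht
    have p1 := t.len_pos
    have p2 := s.len_pos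
    have sb := X.sb2 ht.r.l ht.r.r
    have := r2 _ (t.len + s.len) sb (by
      rw [List.forall_mem_cons, List.forall_mem_singleton, I.sbA sb.cld (by simp [Al]),
        I.sbA sb.cld (by simp [Al])]
      exact ⟨(rt _ ht.r.l).mono h1 (by omega), (rt _ ht.r.r).mono h1 (by omega)⟩)
    rw [I.sbA sb.cld (by simp [Al])] at this
    exact Cx.D.mono h1 this (by simp only [Fm.len]; omega)
  | imp φ ψ ih1 ih2 =>
    intro ht
    have sb := X.sb2 ht.r.l ht.r.r
    have := r3 _ (φ.len + ψ.len + 2) sb (by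
      rw [List.forall_mem_cons, List.forall_mem_singleton, I.sbA sb.cld (by simp [Al]),
        I.sbA sb.cld (by simp [Al])]
      exact ⟨(ih1 ht.r.l).mono h1 (by omega), (ih2 ht.r.r).mono h1 (by omega)⟩)
    rw [I.sbA sb.cld (by simp [Al])] at this
    exact Cx.D.mono h1 this (by simp only [Fm.len]; omega)
  | all k φ ih =>
    intro ht
    have sb := X.sb2 ht.r.l ht.r.r
    have := r4 _ (φ.len + 2) sb (by
      rw [List.forall_mem_singleton, I.sbA sb.cld (by simp [Al])]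
      exact ih ht.r.r)
    rw [I.sbA sb.cld (by simp [Al])] at this
    exact Cx.D.mono h1 this (by simp only [Fm.len]; omega)

lemma ev_isL : Ev fun X => ∀ l, X.Ok (lT l) → X.D (fsz l + 3) (I.A1 10 (lT l)) := by
  have r0 := ev_rule [] (I.A1 10 (nT 0)) (fun e _ => by
    rw [I.satC (by simp)]; exact isL_nil)
  have r1 := ev_rule [I.A1 1 (x 0), I.A1 10 (x 1)] (I.A1 10 (ndT (x 0) (x 1)))
    (fun e h => by
    rw [List.forall_mem_cons, List.forall_mem_singleton, I.satC (by simp [Al]),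
      I.satC (by simp [Al])] at h
    rw [I.satC (by simp [Al])]; simp only [val_ndT, Tm.val]; exact isL_cons h.1 h.2)
  refine ((ev_one.and (ev_isF I)).and (r0.and r1)).mono ?_
  rintro X ⟨⟨h1, rt⟩, ⟨r0, r1⟩⟩ l
  induction l with
  | nil =>
    intro ht
    have sb := X.sbL (l := []) (by simp)
    have := r0 _ 0 sb (by simp)
    rw [I.sbA sb.cld (by simp)] at this
    exact Cx.D.mono h1 this (by omega)
  | cons φ l ih =>
    intro ht
    have sb := X.sb2 ht.l ht.r
    have := r1 _ (φ.len + fsz l + 3) sb (by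
      rw [List.forall_mem_cons, List.forall_mem_singleton, I.sbA sb.cld (by simp [Al]),
        I.sbA sb.cld (by simp [Al])]
      exact ⟨(rt _ ht.l).mono h1 (by omega), (ih ht.r).mono h1 (by omega)⟩)
    rw [I.sbA sb.cld (by simp [Al])] at this
    exact Cx.D.mono h1 this (by simp only [fsz]; omega)

/-! ### Occurrence of variables -/

lemma ev_has : Ev fun X => ∀ t k, X.Ok (tT t) → k ≤ X.N →
    X.Dc (t.len + 2) (I.A2 2 (tT t) (nT k)) (t.Has k) := by
  have r0 := ev_dec [] ![eq (x 0) (x 1)] (I.A2 2 (ndT (nT 0) (x 0)) (x 1)) (fun p => p 0)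
    (fun e _ => by
      rw [I.satC (by simp [Al])]; simp only [val_ndT, Tm.val_num, Tm.val]; exact hasR_var)
  have r1 := ev_rule [] (neg (I.A2 2 (ndT (nT 1) (nT 0)) (x 1)))
    (fun e _ => by
      rw [Fm.sat_neg, I.satC (by simp [Al])]; simp only [val_ndT, Tm.val_num, Tm.val]
      exact hasR_zero)
  have r2 := ev_dec [] ![I.A2 2 (x 0) (x 1)] (I.A2 2 (ndT (nT 2) (x 0)) (x 1)) (fun p => p 0)
    (fun e _ => by
      rw [I.satC (by simp [Al])]
      simp only [Matrix.cons_val_zero, val_ndT, Tm.val_num, Tm.val]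
      rw [I.satC (by simp [Al])]
      exact hasR_succ)
  have r3 := ev_dec [I.A1 0 (x 0), I.A1 0 (x 2)] ![I.A2 2 (x 0) (x 1), I.A2 2 (x 2) (x 1)]
    (I.A2 2 (ndT (nT 3) (ndT (x 0) (x 2))) (x 1)) (fun p => p 0 ∨ p 1)
    (fun e h => by
      rw [List.forall_mem_cons, List.forall_mem_singleton, I.satC (by simp [Al]),
        I.satC (by simp [Al])] at h
      rw [I.satC (by simp [Al])]
      simp only [Matrix.cons_val_zero, Matrix.cons_val_one, val_ndT, Tm.val_num, Tm.val]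
      rw [I.satC (by simp [Al]), I.satC (by simp [Al])]
      exact hasR_add h.1 h.2)
  have r4 := ev_dec [I.A1 0 (x 0), I.A1 0 (x 2)] ![I.A2 2 (x 0) (x 1), I.A2 2 (x 2) (x 1)]
    (I.A2 2 (ndT (nT 4) (ndT (x 0) (x 2))) (x 1)) (fun p => p 0 ∨ p 1)
    (fun e h => by
      rw [List.forall_mem_cons, List.forall_mem_singleton, I.satC (by simp [Al]),
        I.satC (by simp [Al])] at h
      rw [I.satC (by simp [Al])]
      simp only [Matrix.cons_val_zero, Matrix.cons_val_one, val_ndT, Tm.val_num, Tm.val]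
      rw [I.satC (by simp [Al]), I.satC (by simp [Al])]
      exact hasR_mul h.1 h.2)
  refine (((ev_one.and (ev_isT I)).and (ev_eqN.and (r0.and r1))).and (r2.and (r3.and r4))).mono ?_
  rintro X ⟨⟨⟨h1, rt⟩, ⟨rn, ⟨r0, r1⟩⟩⟩, ⟨r2, ⟨r3, r4⟩⟩⟩ t
  induction t with
  | var i =>
    intro k ht hk
    have sb := X.sb2 ht.r (X.okN hk)
    have := r0 _ (i + 1) ![i = k] sb (by simp) (by
      intro j; fin_cases j; exact rn i k ht.r.n hk)
    rw [I.sbA sb.cld (by simp [Al])] at this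
    exact (Cx.Dc.mono h1 this (by simp only [Tm.len]; omega))
  | zero =>
    intro k ht hk
    have sb := X.sb2 X.ok0 (X.okN hk)
    have := r1 _ 0 sb (by simp)
    change X.D _ (neg ((I.A2 2 (ndT (nT 1) (nT 0)) (x 1)).sb _)) at this
    rw [I.sbA sb.cld (by simp [Al])] at this
    exact (Cx.D.mono h1 this (by omega)).of_not
  | succ t ih =>
    intro k ht hk
    have sb := X.sb2 ht.r (X.okN hk)
    have := r2 _ (t.len + 2) ![t.Has k] sb (by simp) (by
      intro j; fin_cases j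
      show X.Dc _ ((I.A2 2 (x 0) (x 1)).sb _) _
      rw [I.sbA sb.cld (by simp [Al])]
      exact ih k ht.r hk)
    rw [I.sbA sb.cld (by simp [Al])] at this
    exact (Cx.Dc.mono h1 this (by simp only [Tm.len]; omega))
  | add t s iht ihs =>
    intro k ht hk
    have sb := X.sb3 ht.r.l (X.okN hk) ht.r.r
    have := r3 _ (t.len + s.len + 2) ![t.Has k, s.Has k] sb (by
      rw [List.forall_mem_cons, List.forall_mem_singleton, I.sbA sb.cld (by simp [Al]),
        I.sbA sb.cld (by simp [Al])]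
      exact ⟨(rt _ ht.r.l).mono h1 (by omega), (rt _ ht.r.r).mono h1 (by omega)⟩) (by
      intro j; fin_cases j
      · show X.Dc _ ((I.A2 2 (x 0) (x 1)).sb _) _
        rw [I.sbA sb.cld (by simp [Al])]
        exact (iht k ht.r.l hk).mono h1 (by omega)
      · show X.Dc _ ((I.A2 2 (x 2) (x 1)).sb _) _
        rw [I.sbA sb.cld (by simp [Al])]
        exact (ihs k ht.r.r hk).mono h1 (by omega))
    rw [I.sbA sb.cld (by simp [Al])] at this
    exact (Cx.Dc.mono h1 this (by simp only [Tm.len]; omega))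
  | mul t s iht ihs =>
    intro k ht hk
    have sb := X.sb3 ht.r.l (X.okN hk) ht.r.r
    have := r4 _ (t.len + s.len + 2) ![t.Has k, s.Has k] sb (by
      rw [List.forall_mem_cons, List.forall_mem_singleton, I.sbA sb.cld (by simp [Al]),
        I.sbA sb.cld (by simp [Al])]
      exact ⟨(rt _ ht.r.l).mono h1 (by omega), (rt _ ht.r.r).mono h1 (by omega)⟩) (by
      intro j; fin_cases j
      · show X.Dc _ ((I.A2 2 (x 0) (x 1)).sb _) _
        rw [I.sbA sb.cld (by simp [Al])]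
        exact (iht k ht.r.l hk).mono h1 (by omega)
      · show X.Dc _ ((I.A2 2 (x 2) (x 1)).sb _) _
        rw [I.sbA sb.cld (by simp [Al])]
        exact (ihs k ht.r.r hk).mono h1 (by omega))
    rw [I.sbA sb.cld (by simp [Al])] at this
    exact (Cx.Dc.mono h1 this (by simp only [Tm.len]; omega))

end Helper31Con

end

section

/-!
# Derivations of facts about codes: free variables, substitution, membership
-/

namespace Helper31Con

open Function Filter Fm

variable (I : IfaceC RE)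

lemma ev_free : Ev fun X => ∀ φ k, X.Ok (fT φ) → k ≤ X.N →
    X.Dc (φ.len + 3) (I.A2 3 (fT φ) (nT k)) (φ.Free k) := by
  have r0 := ev_rule [] (neg (I.A2 3 (ndT (nT 5) (nT 0)) (x 1)))
    (fun e _ => by
      rw [Fm.sat_neg, I.satC (by simp [Al])]; simp only [val_ndT, Tm.val_num, Tm.val]
      exact freeR_bot)
  have r1 := ev_dec [I.A1 0 (x 0), I.A1 0 (x 2)] ![I.A2 2 (x 0) (x 1), I.A2 2 (x 2) (x 1)]
    (I.A2 3 (ndT (nT 6) (ndT (x 0) (x 2))) (x 1)) (fun p => p 0 ∨ p 1)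
    (fun e h => by
      rw [List.forall_mem_cons, List.forall_mem_singleton, I.satC (by simp [Al]),
        I.satC (by simp [Al])] at h
      rw [I.satC (by simp [Al])]
      simp only [Matrix.cons_val_zero, Matrix.cons_val_one, val_ndT, Tm.val_num, Tm.val]
      rw [I.satC (by simp [Al]), I.satC (by simp [Al])]
      exact freeR_eq h.1 h.2)
  have r2 := ev_dec [I.A1 0 (x 0), I.A1 0 (x 2)] ![I.A2 2 (x 0) (x 1), I.A2 2 (x 2) (x 1)]
    (I.A2 3 (ndT (nT 7) (ndT (x 0) (x 2))) (x 1)) (fun p => p 0 ∨ p 1)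
    (fun e h => by
      rw [List.forall_mem_cons, List.forall_mem_singleton, I.satC (by simp [Al]),
        I.satC (by simp [Al])] at h
      rw [I.satC (by simp [Al])]
      simp only [Matrix.cons_val_zero, Matrix.cons_val_one, val_ndT, Tm.val_num, Tm.val]
      rw [I.satC (by simp [Al]), I.satC (by simp [Al])]
      exact freeR_le h.1 h.2)
  have r3 := ev_dec [I.A1 1 (x 0), I.A1 1 (x 2)] ![I.A2 3 (x 0) (x 1), I.A2 3 (x 2) (x 1)]
    (I.A2 3 (ndT (nT 8) (ndT (x 0) (x 2))) (x 1)) (fun p => p 0 ∨ p 1)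
    (fun e h => by
      rw [List.forall_mem_cons, List.forall_mem_singleton, I.satC (by simp [Al]),
        I.satC (by simp [Al])] at h
      rw [I.satC (by simp [Al])]
      simp only [Matrix.cons_val_zero, Matrix.cons_val_one, val_ndT, Tm.val_num, Tm.val]
      rw [I.satC (by simp [Al]), I.satC (by simp [Al])]
      exact freeR_imp h.1 h.2)
  have r4 := ev_dec [] ![eq (x 2) (x 1), I.A2 3 (x 0) (x 1)]
    (I.A2 3 (ndT (nT 9) (ndT (x 2) (x 0))) (x 1)) (fun p => ¬ p 0 ∧ p 1)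
    (fun e h => by
      rw [I.satC (by simp [Al])]
      simp only [Matrix.cons_val_zero, Matrix.cons_val_one, val_ndT, Tm.val_num, Tm.val]
      rw [I.satC (by simp [Al])]
      exact freeR_all)
  refine (((ev_one.and ((ev_isT I).and (ev_isF I))).and ((ev_eqN.and (ev_has I)).and
    (r0.and r1))).and (r2.and (r3.and r4))).mono ?_
  rintro X ⟨⟨⟨h1, ⟨rt, rf⟩⟩, ⟨⟨rn, rh⟩, ⟨r0, r1⟩⟩⟩, ⟨r2, ⟨r3, r4⟩⟩⟩ φ
  induction φ with
  | bot =>
    intro k ht hk
    have sb := X.sb2 X.ok0 (X.okN hk)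
    have := r0 _ 0 sb (by simp)
    change X.D _ (neg ((I.A2 3 (ndT (nT 5) (nT 0)) (x 1)).sb _)) at this
    rw [I.sbA sb.cld (by simp [Al])] at this
    exact (Cx.D.mono h1 this (by omega)).of_not
  | eq t s =>
    intro k ht hk
    have sb := X.sb3 ht.r.l (X.okN hk) ht.r.r
    have := r1 _ (t.len + s.len + 2) ![t.Has k, s.Has k] sb (by
      rw [List.forall_mem_cons, List.forall_mem_singleton, I.sbA sb.cld (by simp [Al]),
        I.sbA sb.cld (by simp [Al])]
      exact ⟨(rt _ ht.r.l).mono h1 (by omega), (rt _ ht.r.r).mono h1 (by omega)⟩) (by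
      intro j; fin_cases j
      · show X.Dc _ ((I.A2 2 (x 0) (x 1)).sb _) _
        rw [I.sbA sb.cld (by simp [Al])]
        exact (rh t k ht.r.l hk).mono h1 (by omega)
      · show X.Dc _ ((I.A2 2 (x 2) (x 1)).sb _) _
        rw [I.sbA sb.cld (by simp [Al])]
        exact (rh s k ht.r.r hk).mono h1 (by omega))
    rw [I.sbA sb.cld (by simp [Al])] at this
    exact (Cx.Dc.mono h1 this (by simp only [Fm.len]; omega))
  | le t s =>
    intro k ht hk
    have sb := X.sb3 ht.r.l (X.okN hk) ht.r.r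
    have := r2 _ (t.len + s.len + 2) ![t.Has k, s.Has k] sb (by
      rw [List.forall_mem_cons, List.forall_mem_singleton, I.sbA sb.cld (by simp [Al]),
        I.sbA sb.cld (by simp [Al])]
      exact ⟨(rt _ ht.r.l).mono h1 (by omega), (rt _ ht.r.r).mono h1 (by omega)⟩) (by
      intro j; fin_cases j
      · show X.Dc _ ((I.A2 2 (x 0) (x 1)).sb _) _
        rw [I.sbA sb.cld (by simp [Al])]
        exact (rh t k ht.r.l hk).mono h1 (by omega)
      · show X.Dc _ ((I.A2 2 (x 2) (x 1)).sb _) _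
        rw [I.sbA sb.cld (by simp [Al])]
        exact (rh s k ht.r.r hk).mono h1 (by omega))
    rw [I.sbA sb.cld (by simp [Al])] at this
    exact (Cx.Dc.mono h1 this (by simp only [Fm.len]; omega))
  | imp t s iht ihs =>
    intro k ht hk
    have sb := X.sb3 ht.r.l (X.okN hk) ht.r.r
    have := r3 _ (t.len + s.len + 3) ![t.Free k, s.Free k] sb (by
      rw [List.forall_mem_cons, List.forall_mem_singleton, I.sbA sb.cld (by simp [Al]),
        I.sbA sb.cld (by simp [Al])]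
      exact ⟨(rf _ ht.r.l).mono h1 (by omega), (rf _ ht.r.r).mono h1 (by omega)⟩) (by
      intro j; fin_cases j
      · show X.Dc _ ((I.A2 3 (x 0) (x 1)).sb _) _
        rw [I.sbA sb.cld (by simp [Al])]
        exact (iht k ht.r.l hk).mono h1 (by omega)
      · show X.Dc _ ((I.A2 3 (x 2) (x 1)).sb _) _
        rw [I.sbA sb.cld (by simp [Al])]
        exact (ihs k ht.r.r hk).mono h1 (by omega))
    rw [I.sbA sb.cld (by simp [Al])] at this
    exact (Cx.Dc.mono h1 this (by simp only [Fm.len]; omega))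
  | all i t ih =>
    intro k ht hk
    have sb := X.sb3 ht.r.r (X.okN hk) ht.r.l
    have := r4 _ (t.len + i + 3) ![i = k, t.Free k] sb (by simp) (by
      intro j; fin_cases j
      · exact (rn i k ht.r.l.n hk).mono h1 (by omega)
      · show X.Dc _ ((I.A2 3 (x 0) (x 1)).sb _) _
        rw [I.sbA sb.cld (by simp [Al])]
        exact (ih k ht.r.r hk).mono h1 (by omega))
    rw [I.sbA sb.cld (by simp [Al])] at this
    exact (Cx.Dc.mono h1 this (by simp only [Fm.len]; omega))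

/-! ### Free for -/

lemma ev_ffr : Ev fun X => ∀ φ k r, X.Ok (fT φ) → k ≤ X.N → X.Ok (tT r) →
    X.Dc (φ.len + r.len + 5) (I.A3 6 (fT φ) (nT k) (tT r)) (φ.FreeFor k r) := by
  have r0 := ev_rule [I.A1 0 (x 2)] (I.A3 6 (ndT (nT 5) (nT 0)) (x 1) (x 2))
    (fun e h => by
      rw [List.forall_mem_singleton, I.satC (by simp [Al])] at h
      rw [I.satC (by simp [Al])]; simp only [val_ndT, Tm.val_num, Tm.val]
      exact ffr_bot h)
  have r1 := ev_rule [I.A1 0 (x 0), I.A1 0 (x 3), I.A1 0 (x 2)]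
    (I.A3 6 (ndT (nT 6) (ndT (x 0) (x 3))) (x 1) (x 2))
    (fun e h => by
      rw [List.forall_mem_cons, List.forall_mem_cons, List.forall_mem_singleton,
        I.satC (by simp [Al]), I.satC (by simp [Al]), I.satC (by simp [Al])] at h
      rw [I.satC (by simp [Al])]; simp only [val_ndT, Tm.val_num, Tm.val]
      exact ffr_eq h.1 h.2.1 h.2.2)
  have r2 := ev_rule [I.A1 0 (x 0), I.A1 0 (x 3), I.A1 0 (x 2)]
    (I.A3 6 (ndT (nT 7) (ndT (x 0) (x 3))) (x 1) (x 2))
    (fun e h => by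
      rw [List.forall_mem_cons, List.forall_mem_cons, List.forall_mem_singleton,
        I.satC (by simp [Al]), I.satC (by simp [Al]), I.satC (by simp [Al])] at h
      rw [I.satC (by simp [Al])]; simp only [val_ndT, Tm.val_num, Tm.val]
      exact ffr_le h.1 h.2.1 h.2.2)
  have r3 := ev_dec [] ![I.A3 6 (x 0) (x 1) (x 2), I.A3 6 (x 3) (x 1) (x 2)]
    (I.A3 6 (ndT (nT 8) (ndT (x 0) (x 3))) (x 1) (x 2)) (fun p => p 0 ∧ p 1)
    (fun e h => by
      rw [I.satC (by simp [Al])]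
      simp only [Matrix.cons_val_zero, Matrix.cons_val_one, val_ndT, Tm.val_num, Tm.val]
      rw [I.satC (by simp [Al]), I.satC (by simp [Al])]
      exact ffr_imp)
  have r4 := ev_dec [I.A1 1 (x 0), I.A1 0 (x 2)] ![eq (x 3) (x 1), I.A2 3 (x 0) (x 1),
      I.A2 2 (x 2) (x 3), I.A3 6 (x 0) (x 1) (x 2)]
    (I.A3 6 (ndT (nT 9) (ndT (x 3) (x 0))) (x 1) (x 2))
    (fun p => p 0 ∨ ¬ p 1 ∨ (¬ p 2 ∧ p 3))
    (fun e h => by
      rw [List.forall_mem_cons, List.forall_mem_singleton, I.satC (by simp [Al]),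
        I.satC (by simp [Al])] at h
      rw [I.satC (by simp [Al])]
      show _ ↔ ((eq (x 3) (x 1)).Sat e ∨ ¬ (I.A2 3 (x 0) (x 1)).Sat e ∨
        (¬ (I.A2 2 (x 2) (x 3)).Sat e ∧ (I.A3 6 (x 0) (x 1) (x 2)).Sat e))
      rw [I.satC (by simp [Al]), I.satC (by simp [Al]), I.satC (by simp [Al])]
      simp only [val_ndT, Tm.val_num, Tm.val]
      exact ffr_all h.1 h.2)
  refine (((ev_one.and ((ev_isT I).and (ev_isF I))).and ((ev_eqN.and ((ev_has I).and
    (ev_free I))).and (r0.and r1))).and (r2.and (r3.and r4))).mono ?_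
  rintro X ⟨⟨⟨h1, ⟨rt, rf⟩⟩, ⟨⟨rn, ⟨rh, rfr⟩⟩, ⟨r0, r1⟩⟩⟩, ⟨r2, ⟨r3, r4⟩⟩⟩ φ
  induction φ with
  | bot =>
    intro k r ht hk hr
    have sb := X.sb3 X.ok0 (X.okN hk) hr
    have := r0 _ (r.len + 1) sb (by
      rw [List.forall_mem_singleton, I.sbA sb.cld (by simp [Al])]; exact rt r hr)
    rw [I.sbA sb.cld (by simp [Al])] at this
    exact (Cx.D.mono h1 this (by omega)).of_true
  | eq t s =>
    intro k r ht hk hr
    have sb := X.sb4 ht.r.l (X.okN hk) hr ht.r.r
    have := r1 _ (t.len + s.len + r.len + 1) sb (by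
      rw [List.forall_mem_cons, List.forall_mem_cons, List.forall_mem_singleton,
        I.sbA sb.cld (by simp [Al]), I.sbA sb.cld (by simp [Al]), I.sbA sb.cld (by simp [Al])]
      exact ⟨(rt _ ht.r.l).mono h1 (by omega), (rt _ ht.r.r).mono h1 (by omega),
        (rt _ hr).mono h1 (by omega)⟩)
    rw [I.sbA sb.cld (by simp [Al])] at this
    exact (Cx.D.mono h1 this (by simp only [Fm.len]; omega)).of_true
  | le t s =>
    intro k r ht hk hr
    have sb := X.sb4 ht.r.l (X.okN hk) hr ht.r.r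
    have := r2 _ (t.len + s.len + r.len + 1) sb (by
      rw [List.forall_mem_cons, List.forall_mem_cons, List.forall_mem_singleton,
        I.sbA sb.cld (by simp [Al]), I.sbA sb.cld (by simp [Al]), I.sbA sb.cld (by simp [Al])]
      exact ⟨(rt _ ht.r.l).mono h1 (by omega), (rt _ ht.r.r).mono h1 (by omega),
        (rt _ hr).mono h1 (by omega)⟩)
    rw [I.sbA sb.cld (by simp [Al])] at this
    exact (Cx.D.mono h1 this (by simp only [Fm.len]; omega)).of_true
  | imp t s iht ihs =>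
    intro k r ht hk hr
    have sb := X.sb4 ht.r.l (X.okN hk) hr ht.r.r
    have := r3 _ (t.len + s.len + r.len + 5) ![t.FreeFor k r, s.FreeFor k r] sb (by simp) (by
      intro j; fin_cases j
      · show X.Dc _ ((I.A3 6 (x 0) (x 1) (x 2)).sb _) _
        rw [I.sbA sb.cld (by simp [Al])]
        exact (iht k r ht.r.l hk hr).mono h1 (by omega)
      · show X.Dc _ ((I.A3 6 (x 3) (x 1) (x 2)).sb _) _
        rw [I.sbA sb.cld (by simp [Al])]
        exact (ihs k r ht.r.r hk hr).mono h1 (by omega))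
    rw [I.sbA sb.cld (by simp [Al])] at this
    exact (Cx.Dc.mono h1 this (by simp only [Fm.len]; omega))
  | all i t ih =>
    intro k r ht hk hr
    have sb := X.sb4 ht.r.r (X.okN hk) hr ht.r.l
    have := r4 _ (t.len + i + r.len + 5) ![i = k, t.Free k, r.Has i, t.FreeFor k r] sb (by
      rw [List.forall_mem_cons, List.forall_mem_singleton, I.sbA sb.cld (by simp [Al]),
        I.sbA sb.cld (by simp [Al])]
      exact ⟨(rf _ ht.r.r).mono h1 (by omega), (rt _ hr).mono h1 (by omega)⟩) (by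
      intro j; fin_cases j
      · exact (rn i k ht.r.l.n hk).mono h1 (by omega)
      · show X.Dc _ ((I.A2 3 (x 0) (x 1)).sb _) _
        rw [I.sbA sb.cld (by simp [Al])]
        exact (rfr t k ht.r.r hk).mono h1 (by omega)
      · show X.Dc _ ((I.A2 2 (x 2) (x 3)).sb _) _
        rw [I.sbA sb.cld (by simp [Al])]
        exact (rh r i hr ht.r.l.n).mono h1 (by omega)
      · show X.Dc _ ((I.A3 6 (x 0) (x 1) (x 2)).sb _) _
        rw [I.sbA sb.cld (by simp [Al])]
        exact (ih k r ht.r.r hk hr).mono h1 (by omega))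
    rw [I.sbA sb.cld (by simp [Al])] at this
    exact (Cx.Dc.mono h1 this (by simp only [Fm.len]; omega))

/-! ### Substitution -/

lemma ev_sbT : Ev fun X => ∀ t k r s, X.Ok (tT t) → k ≤ X.N → X.Ok (tT r) → X.Ok (tT s) →
    X.Dc (t.len + r.len + s.len + 14) (I.A 4 (tT t) (nT k) (tT r) (tT s)) (s = t.sub k r) := by
  have r0 := ev_dec [I.A1 0 (x 2)] ![eq (x 0) (x 1), eq (x 3) (x 2), eq (x 3) (ndT (nT 0) (x 0))]
    (I.A 4 (ndT (nT 0) (x 0)) (x 1) (x 2) (x 3))
    (fun p => (p 0 ∧ p 1) ∨ (¬ p 0 ∧ p 2))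
    (fun e h => by
      rw [List.forall_mem_singleton, I.satC (by simp [Al])] at h
      rw [I.satC (by simp [Al])]
      show _ ↔ (((eq (x 0) (x 1)).Sat e ∧ (eq (x 3) (x 2)).Sat e) ∨
        (¬ (eq (x 0) (x 1)).Sat e ∧ (eq (x 3) (ndT (nT 0) (x 0))).Sat e))
      simp only [Fm.Sat, val_ndT, Tm.val_num, Tm.val]
      exact sbT_var h)
  have r1 := ev_dec [I.A1 0 (x 2)] ![eq (x 3) (ndT (nT 1) (nT 0))]
    (I.A 4 (ndT (nT 1) (nT 0)) (x 1) (x 2) (x 3)) (fun p => p 0)
    (fun e h => by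
      rw [List.forall_mem_singleton, I.satC (by simp [Al])] at h
      rw [I.satC (by simp [Al])]
      show _ ↔ (eq (x 3) (ndT (nT 1) (nT 0))).Sat e
      simp only [Fm.Sat, val_ndT, Tm.val_num, Tm.val]
      exact sbT_zero h)
  have r2 := ev_dec [] ![I.A 4 (x 0) (x 1) (x 2) (x 3)]
    (I.A 4 (ndT (nT 2) (x 0)) (x 1) (x 2) (ndT (nT 2) (x 3))) (fun p => p 0)
    (fun e h => by
      rw [I.satC (by simp [Al])]
      simp only [Matrix.cons_val_zero, val_ndT, Tm.val_num, Tm.val]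
      rw [I.satC (by simp [Al])]
      exact sbT_succ)
  have r3 := ev_dec [] ![I.A 4 (x 0) (x 1) (x 2) (x 3), I.A 4 (x 4) (x 1) (x 2) (x 5)]
    (I.A 4 (ndT (nT 3) (ndT (x 0) (x 4))) (x 1) (x 2) (ndT (nT 3) (ndT (x 3) (x 5))))
    (fun p => p 0 ∧ p 1)
    (fun e h => by
      rw [I.satC (by simp [Al])]
      simp only [Matrix.cons_val_zero, Matrix.cons_val_one, val_ndT, Tm.val_num, Tm.val]
      rw [I.satC (by simp [Al]), I.satC (by simp [Al])]
      exact sbT_add)
  have r4 := ev_dec [] ![I.A 4 (x 0) (x 1) (x 2) (x 3), I.A 4 (x 4) (x 1) (x 2) (x 5)]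
    (I.A 4 (ndT (nT 4) (ndT (x 0) (x 4))) (x 1) (x 2) (ndT (nT 4) (ndT (x 3) (x 5))))
    (fun p => p 0 ∧ p 1)
    (fun e h => by
      rw [I.satC (by simp [Al])]
      simp only [Matrix.cons_val_zero, Matrix.cons_val_one, val_ndT, Tm.val_num, Tm.val]
      rw [I.satC (by simp [Al]), I.satC (by simp [Al])]
      exact sbT_mul)
  have r5 := ev_rule [neg (eq (x 0) (nT 0)), neg (eq (x 0) (x 1))]
    (neg (I.A 4 (ndT (x 0) (x 2)) (x 3) (x 4) (ndT (x 1) (x 5))))
    (fun e h => by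
      rw [List.forall_mem_cons, List.forall_mem_singleton] at h
      rw [Fm.sat_neg, I.satC (by simp [Al])]
      simp only [val_ndT, Tm.val]
      exact sbT_ne h.1 h.2)
  refine ((((ev_one.and (ev_isT I)).and (ev_eqN.and ev_eqT)).and (r0.and r1)).and
    ((r2.and r3).and (r4.and r5))).mono ?_
  rintro X ⟨⟨⟨⟨h1, rt⟩, ⟨rn, re⟩⟩, ⟨r0, r1⟩⟩, ⟨⟨r2, r3⟩, ⟨r4, r5⟩⟩⟩ t
  have hne : ∀ (t : Tm) (k : ℕ) (r s : Tm), X.Ok (tT t) → k ≤ X.N → X.Ok (tT r) → X.Ok (tT s) →
      ttag t ≠ 0 → ttag t ≠ ttag s → X.D 12 (neg (I.A 4 (tT t) (nT k) (tT r) (tT s))) := by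
    intro t k r s ht hk hr hs h0 hts
    rw [tT_eq t] at ht ⊢
    rw [tT_eq s] at hs ⊢
    have sb := X.sb6 ht.l hs.l ht.r (X.okN hk) hr hs.r
    have l1 := ttag_le t
    have e0 := (rn _ 0 ht.l.n (Nat.zero_le _)).2 h0
    have e1 := (rn _ _ ht.l.n hs.l.n).2 hts
    have := r5 _ 11 sb (by
      rw [List.forall_mem_cons, List.forall_mem_singleton]
      exact ⟨Cx.D.mono h1 e0 (by omega), Cx.D.mono h1 e1 (by omega)⟩)
    change X.D _ (neg ((I.A 4 (ndT (x 0) (x 2)) (x 3) (x 4) (ndT (x 1) (x 5))).sb _)) at this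
    rw [I.sbA sb.cld (by simp [Al])] at this
    exact this
  have hfin : ∀ (t : Tm) (k : ℕ) (r s : Tm), X.Ok (tT t) → k ≤ X.N → X.Ok (tT r) → X.Ok (tT s) →
      ttag t ≠ 0 → ttag t ≠ ttag s → ttag (t.sub k r) = ttag t →
      X.Dc (t.len + r.len + s.len + 14) (I.A 4 (tT t) (nT k) (tT r) (tT s)) (s = t.sub k r) := by
    intro t k r s ht hk hr hs h0 hts hsub
    have := (Cx.D.mono h1 (hne t k r s ht hk hr hs h0 hts)
      (show 12 ≤ t.len + r.len + s.len + 14 by omega)).of_not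
    exact this.congr ⟨fun h => h.elim, fun h => hts (by rw [h, hsub])⟩
  induction t with
  | var i =>
    intro k r s ht hk hr hs
    have sb := X.sb4 ht.r (X.okN hk) hr hs
    have hv : X.Ok (tT (.var i)) := ht
    have := r0 _ (i + 1 + r.len + s.len + 12) ![i = k, s = r, s = .var i] sb (by
      rw [List.forall_mem_singleton, I.sbA sb.cld (by simp [Al])]
      exact (rt _ hr).mono h1 (by omega)) (by
      intro j; fin_cases j
      · exact (rn i k ht.r.n hk).mono h1 (by omega)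
      · exact (re s r hs hr).mono h1 (by omega)
      · exact (re s (.var i) hs hv).mono h1 (by omega))
    rw [I.sbA sb.cld (by simp [Al])] at this
    refine (Cx.Dc.mono h1 this (by simp only [Tm.len]; omega)).congr ?_
    show (i = k ∧ s = r) ∨ (¬ i = k ∧ s = .var i) ↔ s = if i = k then r else .var i
    by_cases hik : i = k
    · rw [if_pos hik]; tauto
    · rw [if_neg hik]; tauto
  | zero =>
    intro k r s ht hk hr hs
    have sb := X.sb4 X.ok0 (X.okN hk) hr hs
    have := r1 _ (r.len + s.len + 12) ![s = .zero] sb (by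
      rw [List.forall_mem_singleton, I.sbA sb.cld (by simp [Al])]
      exact (rt _ hr).mono h1 (by omega)) (by
      intro j; fin_cases j
      exact (re s .zero hs ht).mono h1 (by omega))
    rw [I.sbA sb.cld (by simp [Al])] at this
    exact (Cx.Dc.mono h1 this (by simp only [Tm.len]; omega))
  | succ t ih =>
    intro k r s ht hk hr hs
    cases s with
    | succ s =>
      have sb := X.sb4 ht.r (X.okN hk) hr hs.r
      have := r2 _ (t.len + r.len + s.len + 14) ![s = t.sub k r] sb (by simp) (by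
        intro j; fin_cases j
        show X.Dc _ ((I.A 4 (x 0) (x 1) (x 2) (x 3)).sb _) _
        rw [I.sbA sb.cld (by simp [Al])]
        exact (ih k r s ht.r hk hr hs.r))
      rw [I.sbA sb.cld (by simp [Al])] at this
      refine (Cx.Dc.mono h1 this (by simp only [Tm.len]; omega)).congr ?_
      show s = t.sub k r ↔ _
      simp [Tm.sub]
    | var j => exact hfin _ k r _ ht hk hr hs (by simp [ttag]) (by simp [ttag]) rfl
    | zero => exact hfin _ k r _ ht hk hr hs (by simp [ttag]) (by simp [ttag]) rfl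
    | add s s' => exact hfin _ k r _ ht hk hr hs (by simp [ttag]) (by simp [ttag]) rfl
    | mul s s' => exact hfin _ k r _ ht hk hr hs (by simp [ttag]) (by simp [ttag]) rfl
  | add t t' ih ih' =>
    intro k r s ht hk hr hs
    cases s with
    | add s s' =>
      have sb := X.sb6 ht.r.l (X.okN hk) hr hs.r.l ht.r.r hs.r.r
      have := r3 _ (t.len + t'.len + r.len + (s.len + s'.len) + 14) ![s = t.sub k r, s' = t'.sub k r]
        sb (by simp) (by
        intro j; fin_cases j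
        · show X.Dc _ ((I.A 4 (x 0) (x 1) (x 2) (x 3)).sb _) _
          rw [I.sbA sb.cld (by simp [Al])]
          exact (ih k r s ht.r.l hk hr hs.r.l).mono h1 (by omega)
        · show X.Dc _ ((I.A 4 (x 4) (x 1) (x 2) (x 5)).sb _) _
          rw [I.sbA sb.cld (by simp [Al])]
          exact (ih' k r s' ht.r.r hk hr hs.r.r).mono h1 (by omega))
      rw [I.sbA sb.cld (by simp [Al])] at this
      refine (Cx.Dc.mono h1 this (by simp only [Tm.len]; omega)).congr ?_
      show (s = t.sub k r ∧ s' = t'.sub k r) ↔ _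
      simp [Tm.sub]
    | var j => exact hfin _ k r _ ht hk hr hs (by simp [ttag]) (by simp [ttag]) rfl
    | zero => exact hfin _ k r _ ht hk hr hs (by simp [ttag]) (by simp [ttag]) rfl
    | succ s => exact hfin _ k r _ ht hk hr hs (by simp [ttag]) (by simp [ttag]) rfl
    | mul s s' => exact hfin _ k r _ ht hk hr hs (by simp [ttag]) (by simp [ttag]) rfl
  | mul t t' ih ih' =>
    intro k r s ht hk hr hs
    cases s with
    | mul s s' =>
      have sb := X.sb6 ht.r.l (X.okN hk) hr hs.r.l ht.r.r hs.r.r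
      have := r4 _ (t.len + t'.len + r.len + (s.len + s'.len) + 14) ![s = t.sub k r, s' = t'.sub k r]
        sb (by simp) (by
        intro j; fin_cases j
        · show X.Dc _ ((I.A 4 (x 0) (x 1) (x 2) (x 3)).sb _) _
          rw [I.sbA sb.cld (by simp [Al])]
          exact (ih k r s ht.r.l hk hr hs.r.l).mono h1 (by omega)
        · show X.Dc _ ((I.A 4 (x 4) (x 1) (x 2) (x 5)).sb _) _
          rw [I.sbA sb.cld (by simp [Al])]
          exact (ih' k r s' ht.r.r hk hr hs.r.r).mono h1 (by omega))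
      rw [I.sbA sb.cld (by simp [Al])] at this
      refine (Cx.Dc.mono h1 this (by simp only [Tm.len]; omega)).congr ?_
      show (s = t.sub k r ∧ s' = t'.sub k r) ↔ _
      simp [Tm.sub]
    | var j => exact hfin _ k r _ ht hk hr hs (by simp [ttag]) (by simp [ttag]) rfl
    | zero => exact hfin _ k r _ ht hk hr hs (by simp [ttag]) (by simp [ttag]) rfl
    | succ s => exact hfin _ k r _ ht hk hr hs (by simp [ttag]) (by simp [ttag]) rfl
    | add s s' => exact hfin _ k r _ ht hk hr hs (by simp [ttag]) (by simp [ttag]) rfl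

end Helper31Con

end

section

/-!
# Derivations of facts about codes: substitution in formulas, membership
-/

namespace Helper31Con

open Function Filter Fm

variable (I : IfaceC RE)

lemma ev_sbF : Ev fun X => ∀ φ k r ψ, X.Ok (fT φ) → k ≤ X.N → X.Ok (tT r) → X.Ok (fT ψ) →
    X.Dc (φ.len + r.len + ψ.len + 18) (I.A 5 (fT φ) (nT k) (tT r) (fT ψ)) (ψ = φ.sub k r) := by
  have r1 := ev_dec [I.A1 0 (x 2)] ![eq (x 3) (ndT (nT 5) (nT 0))]
    (I.A 5 (ndT (nT 5) (nT 0)) (x 1) (x 2) (x 3)) (fun p => p 0)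
    (fun e h => by
      rw [List.forall_mem_singleton, I.satC (by simp [Al])] at h
      rw [I.satC (by simp [Al])]
      show _ ↔ (eq (x 3) (ndT (nT 5) (nT 0))).Sat e
      simp only [Fm.Sat, val_ndT, Tm.val_num, Tm.val]
      exact sbF_bot h)
  have r2 := ev_dec [] ![I.A 4 (x 0) (x 1) (x 2) (x 3), I.A 4 (x 4) (x 1) (x 2) (x 5)]
    (I.A 5 (ndT (nT 6) (ndT (x 0) (x 4))) (x 1) (x 2) (ndT (nT 6) (ndT (x 3) (x 5))))
    (fun p => p 0 ∧ p 1)
    (fun e h => by
      rw [I.satC (by simp [Al])]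
      simp only [Matrix.cons_val_zero, Matrix.cons_val_one, val_ndT, Tm.val_num, Tm.val]
      rw [I.satC (by simp [Al]), I.satC (by simp [Al])]
      exact sbF_eq)
  have r3 := ev_dec [] ![I.A 4 (x 0) (x 1) (x 2) (x 3), I.A 4 (x 4) (x 1) (x 2) (x 5)]
    (I.A 5 (ndT (nT 7) (ndT (x 0) (x 4))) (x 1) (x 2) (ndT (nT 7) (ndT (x 3) (x 5))))
    (fun p => p 0 ∧ p 1)
    (fun e h => by
      rw [I.satC (by simp [Al])]
      simp only [Matrix.cons_val_zero, Matrix.cons_val_one, val_ndT, Tm.val_num, Tm.val]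
      rw [I.satC (by simp [Al]), I.satC (by simp [Al])]
      exact sbF_le)
  have r4 := ev_dec [] ![I.A 5 (x 0) (x 1) (x 2) (x 3), I.A 5 (x 4) (x 1) (x 2) (x 5)]
    (I.A 5 (ndT (nT 8) (ndT (x 0) (x 4))) (x 1) (x 2) (ndT (nT 8) (ndT (x 3) (x 5))))
    (fun p => p 0 ∧ p 1)
    (fun e h => by
      rw [I.satC (by simp [Al])]
      simp only [Matrix.cons_val_zero, Matrix.cons_val_one, val_ndT, Tm.val_num, Tm.val]
      rw [I.satC (by simp [Al]), I.satC (by simp [Al])]
      exact sbF_imp)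
  have r5 := ev_dec [I.A1 1 (x 0), I.A1 0 (x 2)] ![eq (x 5) (x 4), eq (x 4) (x 1), eq (x 3) (x 0),
      I.A 5 (x 0) (x 1) (x 2) (x 3)]
    (I.A 5 (ndT (nT 9) (ndT (x 4) (x 0))) (x 1) (x 2) (ndT (nT 9) (ndT (x 5) (x 3))))
    (fun p => p 0 ∧ ((p 1 ∧ p 2) ∨ (¬ p 1 ∧ p 3)))
    (fun e h => by
      rw [List.forall_mem_cons, List.forall_mem_singleton, I.satC (by simp [Al]),
        I.satC (by simp [Al])] at h
      rw [I.satC (by simp [Al])]
      show _ ↔ ((eq (x 5) (x 4)).Sat e ∧ (((eq (x 4) (x 1)).Sat e ∧ (eq (x 3) (x 0)).Sat e) ∨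
        (¬ (eq (x 4) (x 1)).Sat e ∧ (I.A 5 (x 0) (x 1) (x 2) (x 3)).Sat e)))
      rw [I.satC (by simp [Al])]
      simp only [Fm.Sat, val_ndT, Tm.val_num, Tm.val]
      exact sbF_all h.1 h.2)
  have r6 := ev_rule [neg (eq (x 0) (x 1))]
    (neg (I.A 5 (ndT (x 0) (x 2)) (x 3) (x 4) (ndT (x 1) (x 5))))
    (fun e h => by
      rw [List.forall_mem_singleton] at h
      rw [Fm.sat_neg, I.satC (by simp [Al])]
      simp only [val_ndT, Tm.val]
      exact sbF_ne h)
  refine ((((ev_one.and ((ev_isT I).and (ev_isF I))).and (ev_eqN.and (ev_eqF.and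
    (ev_sbT I)))).and (r1.and r2)).and ((r3.and r4).and (r5.and r6))).mono ?_
  rintro X ⟨⟨⟨⟨h1, ⟨rt, rf⟩⟩, ⟨rn, ⟨re, rs⟩⟩⟩, ⟨r1, r2⟩⟩, ⟨⟨r3, r4⟩, ⟨r5, r6⟩⟩⟩ φ
  have hne : ∀ (t : Fm) (k : ℕ) (r : Tm) (s : Fm), X.Ok (fT t) → k ≤ X.N → X.Ok (tT r) →
      X.Ok (fT s) → ftag t ≠ ftag s → X.D 12 (neg (I.A 5 (fT t) (nT k) (tT r) (fT s))) := by
    intro t k r s ht hk hr hs hts
    rw [fT_eq t] at ht ⊢
    rw [fT_eq s] at hs ⊢
    have sb := X.sb6 ht.l hs.l ht.r (X.okN hk) hr hs.r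
    have l1 := ftag_le t
    have e1 := (rn _ _ ht.l.n hs.l.n).2 hts
    have := r6 _ 11 sb (by
      rw [List.forall_mem_singleton]
      exact Cx.D.mono h1 e1 (by omega))
    change X.D _ (neg ((I.A 5 (ndT (x 0) (x 2)) (x 3) (x 4) (ndT (x 1) (x 5))).sb _)) at this
    rw [I.sbA sb.cld (by simp [Al])] at this
    exact this
  have hsub : ∀ (t : Fm) (k : ℕ) (r : Tm), ftag (t.sub k r) = ftag t := by
    intro t k r
    cases t with
    | all j t =>
      by_cases hj : j = k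
      · simp [Fm.sub, hj, ftag]
      · simp [Fm.sub, hj, ftag]
    | bot => rfl
    | eq t s => rfl
    | le t s => rfl
    | imp t s => rfl
  have hfin : ∀ (t : Fm) (k : ℕ) (r : Tm) (s : Fm), X.Ok (fT t) → k ≤ X.N → X.Ok (tT r) →
      X.Ok (fT s) → ftag t ≠ ftag s →
      X.Dc (t.len + r.len + s.len + 18) (I.A 5 (fT t) (nT k) (tT r) (fT s)) (s = t.sub k r) := by
    intro t k r s ht hk hr hs hts
    have := (Cx.D.mono h1 (hne t k r s ht hk hr hs hts)
      (show 12 ≤ t.len + r.len + s.len + 18 by omega)).of_not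
    exact this.congr ⟨fun h => h.elim, fun h => hts (by rw [h, hsub])⟩
  induction φ with
  | bot =>
    intro k r s ht hk hr hs
    have sb := X.sb4 X.ok0 (X.okN hk) hr hs
    have := r1 _ (r.len + s.len + 13) ![s = .bot] sb (by
      rw [List.forall_mem_singleton, I.sbA sb.cld (by simp [Al])]
      exact (rt _ hr).mono h1 (by omega)) (by
      intro j; fin_cases j
      exact (re s .bot hs ht).mono h1 (by omega))
    rw [I.sbA sb.cld (by simp [Al])] at this
    exact (Cx.Dc.mono h1 this (by simp only [Fm.len]; omega))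
  | eq t t' =>
    intro k r s ht hk hr hs
    cases s with
    | eq s s' =>
      have sb := X.sb6 ht.r.l (X.okN hk) hr hs.r.l ht.r.r hs.r.r
      have := r2 _ (t.len + t'.len + r.len + (s.len + s'.len) + 18) ![s = t.sub k r, s' = t'.sub k r]
        sb (by simp) (by
        intro j; fin_cases j
        · show X.Dc _ ((I.A 4 (x 0) (x 1) (x 2) (x 3)).sb _) _
          rw [I.sbA sb.cld (by simp [Al])]
          exact (rs t k r s ht.r.l hk hr hs.r.l).mono h1 (by omega)
        · show X.Dc _ ((I.A 4 (x 4) (x 1) (x 2) (x 5)).sb _) _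
          rw [I.sbA sb.cld (by simp [Al])]
          exact (rs t' k r s' ht.r.r hk hr hs.r.r).mono h1 (by omega))
      rw [I.sbA sb.cld (by simp [Al])] at this
      refine (Cx.Dc.mono h1 this (by simp only [Fm.len]; omega)).congr ?_
      show (s = t.sub k r ∧ s' = t'.sub k r) ↔ _
      simp [Fm.sub]
    | bot => exact hfin _ k r _ ht hk hr hs (by simp [ftag])
    | le s s' => exact hfin _ k r _ ht hk hr hs (by simp [ftag])
    | imp s s' => exact hfin _ k r _ ht hk hr hs (by simp [ftag])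
    | all j s => exact hfin _ k r _ ht hk hr hs (by simp [ftag])
  | le t t' =>
    intro k r s ht hk hr hs
    cases s with
    | le s s' =>
      have sb := X.sb6 ht.r.l (X.okN hk) hr hs.r.l ht.r.r hs.r.r
      have := r3 _ (t.len + t'.len + r.len + (s.len + s'.len) + 18) ![s = t.sub k r, s' = t'.sub k r]
        sb (by simp) (by
        intro j; fin_cases j
        · show X.Dc _ ((I.A 4 (x 0) (x 1) (x 2) (x 3)).sb _) _
          rw [I.sbA sb.cld (by simp [Al])]
          exact (rs t k r s ht.r.l hk hr hs.r.l).mono h1 (by omega)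
        · show X.Dc _ ((I.A 4 (x 4) (x 1) (x 2) (x 5)).sb _) _
          rw [I.sbA sb.cld (by simp [Al])]
          exact (rs t' k r s' ht.r.r hk hr hs.r.r).mono h1 (by omega))
      rw [I.sbA sb.cld (by simp [Al])] at this
      refine (Cx.Dc.mono h1 this (by simp only [Fm.len]; omega)).congr ?_
      show (s = t.sub k r ∧ s' = t'.sub k r) ↔ _
      simp [Fm.sub]
    | bot => exact hfin _ k r _ ht hk hr hs (by simp [ftag])
    | eq s s' => exact hfin _ k r _ ht hk hr hs (by simp [ftag])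
    | imp s s' => exact hfin _ k r _ ht hk hr hs (by simp [ftag])
    | all j s => exact hfin _ k r _ ht hk hr hs (by simp [ftag])
  | imp t t' ih ih' =>
    intro k r s ht hk hr hs
    cases s with
    | imp s s' =>
      have sb := X.sb6 ht.r.l (X.okN hk) hr hs.r.l ht.r.r hs.r.r
      have := r4 _ (t.len + t'.len + r.len + (s.len + s'.len) + 18) ![s = t.sub k r, s' = t'.sub k r]
        sb (by simp) (by
        intro j; fin_cases j
        · show X.Dc _ ((I.A 5 (x 0) (x 1) (x 2) (x 3)).sb _) _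
          rw [I.sbA sb.cld (by simp [Al])]
          exact (ih k r s ht.r.l hk hr hs.r.l).mono h1 (by omega)
        · show X.Dc _ ((I.A 5 (x 4) (x 1) (x 2) (x 5)).sb _) _
          rw [I.sbA sb.cld (by simp [Al])]
          exact (ih' k r s' ht.r.r hk hr hs.r.r).mono h1 (by omega))
      rw [I.sbA sb.cld (by simp [Al])] at this
      refine (Cx.Dc.mono h1 this (by simp only [Fm.len]; omega)).congr ?_
      show (s = t.sub k r ∧ s' = t'.sub k r) ↔ _
      simp [Fm.sub]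
    | bot => exact hfin _ k r _ ht hk hr hs (by simp [ftag])
    | eq s s' => exact hfin _ k r _ ht hk hr hs (by simp [ftag])
    | le s s' => exact hfin _ k r _ ht hk hr hs (by simp [ftag])
    | all j s => exact hfin _ k r _ ht hk hr hs (by simp [ftag])
  | all i t ih =>
    intro k r s ht hk hr hs
    cases s with
    | all i' s =>
      have sb := X.sb6 ht.r.r (X.okN hk) hr hs.r.r ht.r.l hs.r.l
      have := r5 _ (t.len + i + r.len + (s.len + i') + 19) ![i' = i, i = k, s = t, s = t.sub k r] sb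
        (by
        rw [List.forall_mem_cons, List.forall_mem_singleton, I.sbA sb.cld (by simp [Al]),
          I.sbA sb.cld (by simp [Al])]
        exact ⟨(rf _ ht.r.r).mono h1 (by omega), (rt _ hr).mono h1 (by omega)⟩) (by
        intro j; fin_cases j
        · exact (rn i' i hs.r.l.n ht.r.l.n).mono h1 (by omega)
        · exact (rn i k ht.r.l.n hk).mono h1 (by omega)
        · exact (re s t hs.r.r ht.r.r).mono h1 (by omega)
        · show X.Dc _ ((I.A 5 (x 0) (x 1) (x 2) (x 3)).sb _) _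
          rw [I.sbA sb.cld (by simp [Al])]
          exact (ih k r s ht.r.r hk hr hs.r.r).mono h1 (by omega))
      rw [I.sbA sb.cld (by simp [Al])] at this
      refine (Cx.Dc.mono h1 this (by simp only [Fm.len]; omega)).congr ?_
      show (i' = i ∧ ((i = k ∧ s = t) ∨ (¬ i = k ∧ s = t.sub k r))) ↔ _
      by_cases hik : i = k
      · simp only [Fm.sub, if_pos hik, Fm.all.injEq]; tauto
      · simp only [Fm.sub, if_neg hik, Fm.all.injEq]; tauto
    | bot => exact hfin _ k r _ ht hk hr hs (by simp [ftag])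
    | eq s s' => exact hfin _ k r _ ht hk hr hs (by simp [ftag])
    | le s s' => exact hfin _ k r _ ht hk hr hs (by simp [ftag])
    | imp s s' => exact hfin _ k r _ ht hk hr hs (by simp [ftag])

/-! ### Membership -/

lemma ev_me : Ev fun X => ∀ l φ, X.Ok (lT l) → X.Ok (fT φ) →
    X.Dc (fsz l + φ.len + 16) (I.A2 12 (lT l) (fT φ)) (φ ∈ l) := by
  have r0 := ev_rule [] (neg (I.A2 12 (nT 0) (x 0)))
    (fun e _ => by
      rw [Fm.sat_neg, I.satC (by simp [Al])]
      exact meR_nil)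
  have r1 := ev_dec [I.A1 1 (x 0), I.A1 1 (x 2), I.A1 10 (x 1)] ![eq (x 0) (x 2), I.A2 12 (x 1) (x 2)]
    (I.A2 12 (ndT (x 0) (x 1)) (x 2)) (fun p => p 0 ∨ p 1)
    (fun e h => by
      rw [List.forall_mem_cons, List.forall_mem_cons, List.forall_mem_singleton,
        I.satC (by simp [Al]), I.satC (by simp [Al]), I.satC (by simp [Al])] at h
      rw [I.satC (by simp [Al])]
      simp only [Matrix.cons_val_zero, Matrix.cons_val_one, val_ndT, Tm.val]
      rw [I.satC (by simp [Al])]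
      exact meR_cons h.1 h.2.1 h.2.2)
  refine ((ev_one.and ((ev_isF I).and (ev_isL I))).and (ev_eqF.and (r0.and r1))).mono ?_
  rintro X ⟨⟨h1, ⟨rf, rl⟩⟩, ⟨re, ⟨r0, r1⟩⟩⟩ l
  induction l with
  | nil =>
    intro φ hl hφ
    have sb := X.sb1 hφ
    have := r0 _ 0 sb (by simp)
    change X.D _ (neg ((I.A2 12 (nT 0) (x 0)).sb _)) at this
    rw [I.sbA sb.cld (by simp [Al])] at this
    exact ((Cx.D.mono h1 this (by omega)).of_not).congr (by simp)
  | cons ψ l ih =>
    intro φ hl hφ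
    have sb := X.sb3 hl.l hl.r hφ
    have := r1 _ (ψ.len + fsz l + φ.len + 16) ![ψ = φ, φ ∈ l] sb (by
      rw [List.forall_mem_cons, List.forall_mem_cons, List.forall_mem_singleton,
        I.sbA sb.cld (by simp [Al]), I.sbA sb.cld (by simp [Al]), I.sbA sb.cld (by simp [Al])]
      exact ⟨(rf _ hl.l).mono h1 (by omega), (rf _ hφ).mono h1 (by omega),
        (rl _ hl.r).mono h1 (by omega)⟩) (by
      intro j; fin_cases j
      · exact (re ψ φ hl.l hφ).mono h1 (by omega)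
      · show X.Dc _ ((I.A2 12 (x 1) (x 2)).sb _) _
        rw [I.sbA sb.cld (by simp [Al])]
        exact (ih φ hl.r hφ).mono h1 (by omega))
    rw [I.sbA sb.cld (by simp [Al])] at this
    refine (Cx.Dc.mono h1 this (by simp only [fsz]; omega)).congr ?_
    show (ψ = φ ∨ φ ∈ l) ↔ _
    rw [List.mem_cons, eq_comm]

/-- Modus ponens is possible. -/
def MpL (L th : List Fm) (c : Fm) : Prop := ∃ χ, Fm.imp χ c ∈ L ∧ χ ∈ th

lemma ev_mp : Ev fun X => ∀ L th c, X.Ok (lT L) → X.Ok (lT th) → X.Ok (fT c) →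
    X.Dc (fsz L + fsz th + c.len + 20) (I.A3 16 (lT L) (lT th) (fT c)) (MpL L th c) := by
  have r0 := ev_rule [] (neg (I.A3 16 (nT 0) (x 0) (x 1)))
    (fun e _ => by
      rw [Fm.sat_neg, I.satC (by simp [Al])]
      exact mpR_nil)
  have r1 := ev_dec [I.A1 1 (x 0), I.A1 1 (x 1), I.A1 1 (x 2), I.A1 10 (x 3)]
    ![eq (x 1) (x 2), I.A2 12 (x 4) (x 0), I.A3 16 (x 3) (x 4) (x 2)]
    (I.A3 16 (ndT (ndT (nT 8) (ndT (x 0) (x 1))) (x 3)) (x 4) (x 2))
    (fun p => (p 0 ∧ p 1) ∨ p 2)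
    (fun e h => by
      rw [List.forall_mem_cons, List.forall_mem_cons, List.forall_mem_cons,
        List.forall_mem_singleton, I.satC (by simp [Al]), I.satC (by simp [Al]),
        I.satC (by simp [Al]), I.satC (by simp [Al])] at h
      rw [I.satC (by simp [Al])]
      show _ ↔ (((eq (x 1) (x 2)).Sat e ∧ (I.A2 12 (x 4) (x 0)).Sat e) ∨
        (I.A3 16 (x 3) (x 4) (x 2)).Sat e)
      rw [I.satC (by simp [Al]), I.satC (by simp [Al])]
      simp only [Fm.Sat, val_ndT, Tm.val_num, Tm.val]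
      exact mpR_cons_imp h.1 h.2.1 h.2.2.1 h.2.2.2)
  have r2 := ev_dec [neg (eq (x 0) (nT 8)), I.A1 1 (ndT (x 0) (x 1)), I.A1 10 (x 3)]
    ![I.A3 16 (x 3) (x 4) (x 2)]
    (I.A3 16 (ndT (ndT (x 0) (x 1)) (x 3)) (x 4) (x 2)) (fun p => p 0)
    (fun e h => by
      rw [List.forall_mem_cons, List.forall_mem_cons,
        List.forall_mem_singleton, I.satC (by simp [Al]), I.satC (by simp [Al])] at h
      rw [I.satC (by simp [Al])]
      show _ ↔ (I.A3 16 (x 3) (x 4) (x 2)).Sat e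
      rw [I.satC (by simp [Al])]
      simp only [Fm.Sat, Fm.sat_neg, val_ndT, Tm.val_num, Tm.val] at h ⊢
      exact mpR_cons_ne h.1 h.2.1 h.2.2)
  refine (((ev_one.and ((ev_isF I).and (ev_isL I))).and (ev_eqF.and (ev_eqN.and
    (ev_me I)))).and (r0.and (r1.and r2))).mono ?_
  rintro X ⟨⟨⟨h1, ⟨rf, rl⟩⟩, ⟨re, ⟨rn, rm⟩⟩⟩, ⟨r0, ⟨r1, r2⟩⟩⟩ L
  induction L with
  | nil =>
    intro th c hL hth hc
    have sb := X.sb2 hth hc
    have := r0 _ 0 sb (by simp)
    change X.D _ (neg ((I.A3 16 (nT 0) (x 0) (x 1)).sb _)) at this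
    rw [I.sbA sb.cld (by simp [Al])] at this
    exact ((Cx.D.mono h1 this (by omega)).of_not).congr (by simp [MpL])
  | cons ψ l ih =>
    intro th c hL hth hc
    have hother : (∀ χ ρ, ψ ≠ .imp χ ρ) → X.Dc (fsz (ψ :: l) + fsz th + c.len + 20)
        (I.A3 16 (lT (ψ :: l)) (lT th) (fT c)) (MpL (ψ :: l) th c) := by
      intro hψ
      have htag : ftag ψ ≠ 8 := by
        cases ψ with
        | imp a b => exact absurd rfl (hψ a b)
        | bot => simp [ftag]
        | eq a b => simp [ftag]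
        | le a b => simp [ftag]
        | all a b => simp [ftag]
      have hψok : X.Ok (fT ψ) := hL.l
      have hfψ := rf ψ hψok
      rw [fT_eq] at hψok hfψ
      have e0 := (rn _ 8 hψok.l.n (by
        -- the numeral `8`
        have := hL.l.2
        have h2 : 8 ≤ X.N := by
          have h3 := (fT ψ).len_pos
          rw [fT_eq, len_ndT, Tm.len_num] at this
          have h4 : 5 ≤ ftag ψ := by cases ψ <;> simp [ftag]
          omega
        exact h2)).2 htag
      have l1 := ftag_le ψ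
      have sb := X.sb5 hψok.l hψok.r hc hL.r hth
      have := r2 _ (ψ.len + fsz l + fsz th + c.len + 20) ![MpL l th c] sb (by
        rw [List.forall_mem_cons, List.forall_mem_cons, List.forall_mem_singleton,
          I.sbA sb.cld (by simp [Al]), I.sbA sb.cld (by simp [Al])]
        exact ⟨Cx.D.mono h1 e0 (by omega), Cx.D.mono h1 hfψ (by omega),
          (rl _ hL.r).mono h1 (by omega)⟩) (by
        intro j; fin_cases j
        show X.Dc _ ((I.A3 16 (x 3) (x 4) (x 2)).sb _) _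
        rw [I.sbA sb.cld (by simp [Al])]
        exact (ih th c hL.r hth hc).mono h1 (by omega))
      rw [I.sbA sb.cld (by simp [Al])] at this
      have e1 : lT (ψ :: l) = ndT (ndT (nT (ftag ψ)) (fbod ψ)) (lT l) := by
        show ndT (fT ψ) (lT l) = _
        rw [fT_eq]
      rw [e1]
      refine (Cx.Dc.mono h1 this (by simp only [fsz]; omega)).congr ?_
      show MpL l th c ↔ _
      unfold MpL
      refine exists_congr fun χ => and_congr_left fun _ => ?_
      rw [List.mem_cons]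
      exact ⟨Or.inr, fun h => h.resolve_left fun h' => hψ _ _ h'.symm⟩
    cases ψ with
    | imp χ ρ =>
      have sb := X.sb5 hL.l.r.l hL.l.r.r hc hL.r hth
      have := r1 _ (χ.len + ρ.len + fsz l + fsz th + c.len + 20) ![ρ = c, χ ∈ th, MpL l th c] sb (by
        rw [List.forall_mem_cons, List.forall_mem_cons, List.forall_mem_cons,
          List.forall_mem_singleton,
          I.sbA sb.cld (by simp [Al]), I.sbA sb.cld (by simp [Al]), I.sbA sb.cld (by simp [Al]),
          I.sbA sb.cld (by simp [Al])]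
        exact ⟨(rf _ hL.l.r.l).mono h1 (by omega), (rf _ hL.l.r.r).mono h1 (by omega),
          (rf _ hc).mono h1 (by omega), (rl _ hL.r).mono h1 (by omega)⟩) (by
        intro j; fin_cases j
        · exact (re ρ c hL.l.r.r hc).mono h1 (by omega)
        · show X.Dc _ ((I.A2 12 (x 4) (x 0)).sb _) _
          rw [I.sbA sb.cld (by simp [Al])]
          exact (rm th χ hth hL.l.r.l).mono h1 (by omega)
        · show X.Dc _ ((I.A3 16 (x 3) (x 4) (x 2)).sb _) _
          rw [I.sbA sb.cld (by simp [Al])]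
          exact (ih th c hL.r hth hc).mono h1 (by omega))
      rw [I.sbA sb.cld (by simp [Al])] at this
      refine (Cx.Dc.mono h1 this (by simp only [fsz, Fm.len]; omega)).congr ?_
      show ((ρ = c ∧ χ ∈ th) ∨ MpL l th c) ↔ _
      unfold MpL
      constructor
      · rintro (⟨rfl, h⟩ | ⟨χ', h, h'⟩)
        · exact ⟨χ, List.mem_cons_self, h⟩
        · exact ⟨χ', List.mem_cons_of_mem _ h, h'⟩
      · rintro ⟨χ', h, h'⟩
        rcases List.mem_cons.mp h with h | h
        · rw [Fm.imp.injEq] at h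
          exact Or.inl ⟨h.2.symm, by rw [← h.1]; exact h'⟩
        · exact Or.inr ⟨χ', h, h'⟩
    | bot => exact hother (by simp)
    | eq a b => exact hother (by simp)
    | le a b => exact hother (by simp)
    | all a b => exact hother (by simp)

end Helper31Con

end
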